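import Pool.Agent.Lib.MTB.Clos

/-!
# MTB.AMach (MP_e46137_lc): abstract monotone machines; the approximators and the passed arcs
-/

namespace MTB

open Classical Finset MTS

/-- Abstract monotone machine: step `t` depends (monotonically) only on the memory and on the
input bits in `rd t`. -/
structure AMach (A : Type) (S : ℕ) where
  init : Fin S → Bool
  rd : ℕ → Set A
  next : ℕ → (Fin S → Bool) → (A → Bool) → (Fin S → Bool)
  mono : ∀ t (σ σ' : Fin S → Bool) (x y : A → Bool), σ ≤ σ' → (∀ a ∈ rd t, x a ≤ y a) →
    next t σ x ≤ next t σ' y

/-- the memory after `t` steps -/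
def AMach.run {A : Type} {S : ℕ} (M : AMach A S) (x : A → Bool) : ℕ → Fin S → Bool
  | 0 => M.init
  | t + 1 => M.next t (M.run x t) x

variable {A : Type} {r N S : ℕ}

/-- the family of an input bit: the small partial colourings which force it -/
noncomputable def force (w : ℕ) (no : Col r N → A → Bool) (a : A) : Finset (PC r N) :=
  univ.filter (fun U => size U ≤ w ∧ ∀ χ, Agree U χ → no χ a = true)

/-- the union of the members of `M` below `V` -/
noncomputable def un (M : Finset (PC r N)) (V : PC r N) : PC r N :=
  fun j => if ∃ W ∈ M, Sub W V ∧ W j ≠ none then V j else none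

/-- the minimal members of all the families of one time -/
noncomputable def mins (F : Fin S → Finset (PC r N)) : Finset (PC r N) :=
  univ.filter (fun W => ∃ i, IsMin (F i) W)

/-- the bad paths of one time: for some `q` the union of all minimal members below `UP P q` has
at least `b` coloured vertices -/
noncomputable def bad (b : ℕ) (M : Finset (PC r N)) : Finset (Pth r N) :=
  univ.filter (fun P => ∃ q ≤ r, b ≤ size (un M (UP P q)))

/-- `q` is passed at time `t`: some memory bit is `true` on the path `P`, but its family contains
no part of `UP P q` -/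
def passed (M : AMach A S) (yes : Pth r N → A → Bool) (F : ℕ → Fin S → Finset (PC r N)) (t : ℕ)
    (P : Pth r N) : Set ℕ :=
  {q | ∃ i, M.run (yes P) t i = true ∧ ∀ U ∈ F t i, ¬ Sub U (UP P q)}

end MTB
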