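import Pool.Agent.Lib.MTB.AMach

/-!
# MTB.Approx (MP_e46137_lc): existence of the approximators
-/

namespace MTB

open Classical Finset MTS

variable {A : Type} {r N S : ℕ}

namespace ApproxAux

/-- the family before closing -/
private noncomputable def pre (M : AMach A S) (w : ℕ) (no : Col r N → A → Bool) (t : ℕ)
    (F : Fin S → Finset (PC r N)) (i : Fin S) : Finset (PC r N) :=
  univ.filter (fun U => size U ≤ w ∧
    M.next t (fun j => decide (U ∈ F j)) (fun a => decide (U ∈ force w no a)) i = true)

private theorem pre_size (M : AMach A S) (w : ℕ) (no : Col r N → A → Bool) (t : ℕ)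
    (F : Fin S → Finset (PC r N)) (i : Fin S) : ∀ U ∈ pre M w no t F i, size U ≤ w := by
  intro U hU
  rw [pre, mem_filter] at hU
  exact hU.2.1

/-- the closed families -/
private noncomputable def fam (M : AMach A S) (w θ : ℕ) (no : Col r N → A → Bool) :
    ℕ → Fin S → Finset (PC r N)
  | 0 => fun i => if M.init i = true then univ.filter (fun U => size U ≤ w) else ∅
  | t + 1 => fun i => (exists_closedW w θ (pre M w no t (fam M w θ no t) i)
      (pre_size M w no t (fam M w θ no t) i)).choose

private theorem fam_succ (M : AMach A S) (w θ : ℕ) (no : Col r N → A → Bool) (t : ℕ) (i : Fin S) :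
    pre M w no t (fam M w θ no t) i ⊆ fam M w θ no (t + 1) i ∧
      ClosedW w θ (fam M w θ no (t + 1) i) ∧
      (univ.filter (fun χ : Col r N => Hits (fam M w θ no (t + 1) i) χ ∧
        ¬ Hits (pre M w no t (fam M w θ no t) i) χ)).card ≤ (2 * (r * N) + 1) ^ w * θ :=
  (exists_closedW w θ (pre M w no t (fam M w θ no t) i)
    (pre_size M w no t (fam M w θ no t) i)).choose_spec

private theorem good_step (M : AMach A S) (w θ : ℕ) (no : Col r N → A → Bool) (t : ℕ)
    (χ : Col r N) (h : ∀ j, Hits (fam M w θ no t j) χ → M.run (no χ) t j = true) (i : Fin S)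
    (hi : Hits (pre M w no t (fam M w θ no t) i) χ) : M.run (no χ) (t + 1) i = true := by
  obtain ⟨U, hU, hχ⟩ := hi
  rw [pre, mem_filter] at hU
  have h1 : (fun j => decide (U ∈ fam M w θ no t j)) ≤ M.run (no χ) t := by
    intro j
    by_cases hj : U ∈ fam M w θ no t j
    · rw [h j ⟨U, hj, hχ⟩]
      exact Bool.le_true _
    · show decide (U ∈ fam M w θ no t j) ≤ _
      rw [decide_eq_false hj]
      exact Bool.false_le _
  have h2 : ∀ a ∈ M.rd t, decide (U ∈ force w no a) ≤ no χ a := by
    intro a _
    by_cases hj : U ∈ force w no a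
    · have hj' := hj
      rw [force, mem_filter] at hj'
      rw [hj'.2.2 χ hχ]
      exact Bool.le_true _
    · rw [decide_eq_false hj]
      exact Bool.false_le _
  have h3 := M.mono t _ _ _ _ h1 h2 i
  rw [hU.2.2] at h3
  exact Bool.eq_true_of_true_le h3

end ApproxAux

open ApproxAux in
/-- Approximators: closed families for all times and memory bits.  Construction: `F 0 i` = all
partial colourings of size `≤ w` if `init i = true`, else empty (closed by `closedW_empty`); given
`F t`, let `Wi` be the family of the `U` of size `≤ w` with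
`next t (fun j => decide (U ∈ F t j)) (fun a => decide (U ∈ force w no a)) i = true` and `F (t+1) i`
the family of `exists_closedW`.  Errors: if `χ` is no error at time `t` and extends a member `U` of
`Wi`, then `decide (U ∈ F t j) ≤ run (no χ) t j` and `decide (U ∈ force w no a) ≤ no χ a`, so
`run (no χ) (t+1) i = true` by monotonicity. -/
theorem exists_approx (M : AMach A S) (w θ : ℕ) (hθ : θ < 2 ^ (r * N - w))
    (no : Col r N → A → Bool) :
    ∃ F : ℕ → Fin S → Finset (PC r N),
      (∀ t i, ClosedW w θ (F t i)) ∧
      (∀ i, M.init i = true → ∀ U : PC r N, size U ≤ w → U ∈ F 0 i) ∧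
      (∀ t i (U : PC r N), size U ≤ w →
        M.next t (fun j => decide (U ∈ F t j)) (fun a => decide (U ∈ force w no a)) i = true →
        U ∈ F (t + 1) i) ∧
      ∀ t, (univ.filter (fun χ : Col r N =>
        ∃ i, Hits (F t i) χ ∧ M.run (no χ) t i = false)).card ≤
        t * (S * ((2 * (r * N) + 1) ^ w * θ)) := by
  refine ⟨fam M w θ no, ?_, ?_, ?_, ?_⟩
  · intro t i
    cases t with
    | zero =>
      show ClosedW w θ (if M.init i = true then univ.filter (fun U => size U ≤ w) else ∅)
      split_ifs
      · exact ⟨fun U hU => (mem_filter.1 hU).2, fun U hU _ => mem_filter.2 ⟨mem_univ _, hU⟩⟩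
      · exact closedW_empty hθ
    | succ t => exact (fam_succ M w θ no t i).2.1
  · intro i hi U hU
    show U ∈ (if M.init i = true then univ.filter (fun U => size U ≤ w) else ∅)
    rw [if_pos hi]
    exact mem_filter.2 ⟨mem_univ _, hU⟩
  · intro t i U hU hn
    apply (fam_succ M w θ no t i).1
    rw [pre, mem_filter]
    exact ⟨mem_univ _, hU, hn⟩
  · intro t
    induction t with
    | zero =>
      rw [Nat.zero_mul, Nat.le_zero, card_eq_zero, filter_eq_empty_iff]
      rintro χ - ⟨i, hi, hr⟩
      have h1 : M.init i = false := hr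
      have h2 : fam M w θ no 0 i = ∅ := by
        show (if M.init i = true then univ.filter (fun U => size U ≤ w) else ∅) = _
        rw [if_neg (by rw [h1]; exact Bool.false_ne_true)]
      rw [h2] at hi
      obtain ⟨U, hU, _⟩ := hi
      exact absurd hU (notMem_empty U)
    | succ t ih =>
      have hsub : (univ.filter (fun χ : Col r N => ∃ i, Hits (fam M w θ no (t + 1) i) χ ∧
          M.run (no χ) (t + 1) i = false)) ⊆
          (univ.filter (fun χ : Col r N => ∃ i, Hits (fam M w θ no t i) χ ∧
            M.run (no χ) t i = false)) ∪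
          (univ : Finset (Fin S)).biUnion (fun i => univ.filter (fun χ : Col r N =>
            Hits (fam M w θ no (t + 1) i) χ ∧
              ¬ Hits (pre M w no t (fam M w θ no t) i) χ)) := by
        intro χ hχ
        rw [mem_filter] at hχ
        obtain ⟨-, i, hi, hr⟩ := hχ
        rw [mem_union, mem_filter, mem_biUnion]
        by_cases hb : ∃ i, Hits (fam M w θ no t i) χ ∧ M.run (no χ) t i = false
        · exact Or.inl ⟨mem_univ _, hb⟩
        · right
          refine ⟨i, mem_univ _, ?_⟩
          rw [mem_filter]
          refine ⟨mem_univ _, hi, ?_⟩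
          intro hp
          have h1 := good_step M w θ no t χ (fun j hj => by
            by_contra hne
            exact hb ⟨j, hj, Bool.eq_false_iff.2 hne⟩) i hp
          rw [hr] at h1
          exact Bool.false_ne_true h1
      have h1 := (card_le_card hsub).trans (card_union_le _ _)
      have h2 := card_biUnion_le (s := (univ : Finset (Fin S)))
        (t := fun i => univ.filter (fun χ : Col r N =>
            Hits (fam M w θ no (t + 1) i) χ ∧ ¬ Hits (pre M w no t (fam M w θ no t) i) χ))
      have h3 : ∑ i : Fin S, (univ.filter (fun χ : Col r N =>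
            Hits (fam M w θ no (t + 1) i) χ ∧
              ¬ Hits (pre M w no t (fam M w θ no t) i) χ)).card ≤
          S * ((2 * (r * N) + 1) ^ w * θ) := by
        refine (sum_le_card_nsmul _ _ ((2 * (r * N) + 1) ^ w * θ)
          (fun i _ => (fam_succ M w θ no t i).2.2)).trans ?_
        rw [card_univ, Fintype.card_fin, smul_eq_mul]
      rw [Nat.succ_mul]
      omega

end MTB
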