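import Pool.Agent.Lib.MTB.Embed

/-!
# MTB.Arith (MP_e46137_lc): choice of the parameters
-/

namespace MTB

namespace ArithAux

theorem pow_succ_bound (a n : ℕ) :
    a ^ (n + 1) + (n + 1) * a ^ n ≤ (a + 1) ^ (n + 1) := by
  induction n with
  | zero => simp
  | succ n ih =>
    have h1 := Nat.mul_le_mul_right (a + 1) ih
    calc a ^ (n + 1 + 1) + (n + 1 + 1) * a ^ (n + 1)
        ≤ (a ^ (n + 1) + (n + 1) * a ^ n) * (a + 1) := by
          have h2 : (a ^ (n + 1) + (n + 1) * a ^ n) * (a + 1) =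
              a ^ (n + 1 + 1) + (n + 1 + 1) * a ^ (n + 1) + (n + 1) * a ^ n := by ring
          rw [h2]
          exact Nat.le_add_right _ _
      _ ≤ (a + 1) ^ (n + 1) * (a + 1) := h1
      _ = (a + 1) ^ (n + 1 + 1) := (pow_succ _ _).symm

theorem two_mul_pow_le (a : ℕ) : 2 * a ^ (a + 1) ≤ (a + 1) ^ (a + 1) := by
  refine le_trans ?_ (pow_succ_bound a a)
  have h1 : a ^ (a + 1) ≤ (a + 1) * a ^ a := by
    rw [pow_succ, mul_comm]
    exact Nat.mul_le_mul_right _ (Nat.le_succ a)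
  omega

theorem T_pos {n S T l : ℕ} {s t : Fin n} (hst : s ≠ t) (M : Mach n S)
    (out : Fin S) (hl : 1 ≤ l) (hM : Decides M out T l s t) : 1 ≤ T := by
  rcases Nat.eq_zero_or_pos T with rfl | h
  · exfalso
    have h1 := (hM (fun _ _ => true)).1 ⟨1, hl, s, rfl, rfl⟩
    have h2 := (hM (fun _ _ => false)).2 (by
      intro h
      induction h with
      | refl => exact hst rfl
      | tail _ h _ => exact absurd h Bool.false_ne_true)
    have h3 : M.init out = true := h1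
    have h4 : M.init out = false := h2
    rw [h3] at h4
    exact absurd h4 (by decide)
  · exact h

/-- the arithmetic of the error term -/
theorem theta_bound {T S L k n m b : ℕ} (hL : 1 ≤ L) (hn : n < 2 ^ L) (hm : m + 2 ≤ n) (hS : S ≤ n)
    (hT : T ≤ 2 ^ (L * L)) (hk : 3 * k ≤ L) (hb : b = 10 * (L * L)) (hbm : b ≤ m) :
    T * (S * ((2 * m + 1) ^ (3 * k) * 2 ^ (m - b))) < 2 ^ (m - 3 * k) := by
  have hLL : L ≤ L * L := Nat.le_mul_of_pos_left _ hL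
  have hkm : 3 * k ≤ m := by omega
  have h1 : T * S * (2 * m + 1) ^ (3 * k) * 2 ^ (3 * k) < 2 ^ b := by
    have a1 : S ≤ 2 ^ L := hS.trans hn.le
    have a2 : (2 * m + 1) ^ (3 * k) ≤ 2 ^ ((L + 1) * (3 * k)) := by
      rw [pow_mul 2 (L + 1) (3 * k)]
      apply Nat.pow_le_pow_left
      rw [pow_succ]
      omega
    calc T * S * (2 * m + 1) ^ (3 * k) * 2 ^ (3 * k)
        ≤ 2 ^ (L * L) * 2 ^ L * 2 ^ ((L + 1) * (3 * k)) * 2 ^ (3 * k) :=
          Nat.mul_le_mul_right _ (Nat.mul_le_mul (Nat.mul_le_mul hT a1) a2)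
      _ = 2 ^ (L * L + L + (L + 1) * (3 * k) + 3 * k) := by
          rw [← pow_add, ← pow_add, ← pow_add]
      _ < 2 ^ b := by
          apply Nat.pow_lt_pow_right (by norm_num)
          have g1 : (L + 1) * (3 * k) ≤ (L + 1) * L := Nat.mul_le_mul_left _ hk
          have g2 : (L + 1) * L = L * L + L := by ring
          rw [hb]
          omega
  have h2 : 2 ^ m = 2 ^ (m - b) * 2 ^ b := by
    rw [← pow_add, Nat.sub_add_cancel hbm]
  have h3 : 2 ^ m = 2 ^ (m - 3 * k) * 2 ^ (3 * k) := by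
    rw [← pow_add, Nat.sub_add_cancel hkm]
  have h4 := Nat.mul_lt_mul_of_pos_left h1 (Nat.two_pow_pos (m - b))
  rw [← h2, h3] at h4
  refine lt_of_mul_lt_mul_right (a := 2 ^ (3 * k)) ?_ (Nat.zero_le _)
  refine lt_of_eq_of_lt ?_ h4
  ring

theorem main_case {n S d T : ℕ} {s t : Fin n} (hst : s ≠ t) (M : Mach n S) (out : Fin S)
    (hM : Decides M out T (2 ^ d) s t) (hSn : S * 2 ^ d ≤ n) {L : ℕ} (hLn : n < 2 ^ L)
    (hL : L ^ 100 ≤ 2 ^ d) (hd : 1000 ≤ d) {V : ℕ} (hV1 : 1 ≤ V) (hVd : 1000 * V ≤ d * d)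
    (hT : T ≤ 2 ^ V) : False := by
  have hS1 : 1 ≤ S := out.pos
  have hdn : 2 ^ d ≤ n := by
    calc 2 ^ d = 1 * 2 ^ d := (one_mul _).symm
      _ ≤ S * 2 ^ d := Nat.mul_le_mul_right _ hS1
      _ ≤ n := hSn
  have hdL : d < L := (Nat.pow_lt_pow_iff_right (by norm_num)).1 (hdn.trans_lt hLn)
  have hL1 : 1 ≤ L := by omega
  obtain ⟨q, hq⟩ : ∃ q, q = d / 20 := ⟨_, rfl⟩
  obtain ⟨k, hk⟩ : ∃ k, k = d / 40 := ⟨_, rfl⟩
  have hq1 : 20 * q ≤ d := by omega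
  have hq2 : d < 20 * (q + 1) := by omega
  have hk1 : 40 * k ≤ d := by omega
  have hk2 : d < 40 * (k + 1) := by omega
  have hL5 : L ^ 5 ≤ 2 ^ (q + 1) := by
    have h1 : (L ^ 5) ^ 20 < (2 ^ (q + 1)) ^ 20 := by
      rw [← pow_mul, ← pow_mul]
      refine lt_of_le_of_lt hL ?_
      apply Nat.pow_lt_pow_right (by norm_num)
      omega
    exact (lt_of_pow_lt_pow_left₀ 20 (Nat.zero_le _) h1).le
  -- the parameters
  obtain ⟨N, hN⟩ : ∃ N, N = (n - 2) / 2 ^ k := ⟨_, rfl⟩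
  have hNS : S * 2 ^ (d - k - 2) ≤ N := by
    rw [hN, Nat.le_div_iff_mul_le (Nat.two_pow_pos k)]
    have h1 : 2 ^ (d - k - 2) * 2 ^ k = 2 ^ (d - 2) := by
      rw [← pow_add]
      congr 1
      omega
    rw [mul_assoc, h1]
    have h2 : 2 ^ d = 4 * 2 ^ (d - 2) := by
      have h3 : d = (d - 2) + 2 := by omega
      conv_lhs => rw [h3, pow_add]
      ring
    have h3 : 2 ^ 1 ≤ 2 ^ (d - 2) := Nat.pow_le_pow_right (by norm_num) (by omega)
    rw [h2] at hSn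
    have h4 : 1 * 2 ^ (d - 2) ≤ S * 2 ^ (d - 2) := Nat.mul_le_mul_right _ hS1
    have h5 : S * (4 * 2 ^ (d - 2)) = 4 * (S * 2 ^ (d - 2)) := by ring
    omega
  have hrN : 2 ^ k * N ≤ n - 2 := by
    rw [hN]
    exact Nat.mul_div_le _ _
  have hn2 : 2 ≤ n := by
    have h3 : 2 ^ 1 ≤ 2 ^ d := Nat.pow_le_pow_right (by norm_num) (by omega)
    omega
  have hrN2 : 2 ^ k * N + 2 ≤ n := by omega
  have hbig : 2 ^ (d - 2) ≤ 2 ^ k * N := by
    calc 2 ^ (d - 2) = 2 ^ k * (1 * 2 ^ (d - k - 2)) := by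
          rw [one_mul, ← pow_add]
          congr 1
          omega
      _ ≤ 2 ^ k * (S * 2 ^ (d - k - 2)) := by gcongr
      _ ≤ 2 ^ k * N := Nat.mul_le_mul_left _ hNS
  obtain ⟨b, hb⟩ : ∃ b, b = 10 * (L * L) := ⟨_, rfl⟩
  have hLL5 : L * L ≤ L ^ 5 := by
    calc L * L = L ^ 2 := by ring
      _ ≤ L ^ 5 := Nat.pow_le_pow_right hL1 (by norm_num)
  have hbm : b ≤ 2 ^ k * N := by
    refine le_trans ?_ hbig
    calc b ≤ 2 ^ 4 * L ^ 5 := by omega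
      _ ≤ 2 ^ 4 * 2 ^ (q + 1) := Nat.mul_le_mul_left _ hL5
      _ = 2 ^ (4 + (q + 1)) := (pow_add _ _ _).symm
      _ ≤ 2 ^ (d - 2) := Nat.pow_le_pow_right (by norm_num) (by omega)
  obtain ⟨K, hK⟩ : ∃ K, K = b * 2 ^ (3 * k) := ⟨_, rfl⟩
  obtain ⟨A, hA⟩ : ∃ A, A = 2 * (3 * k) * K := ⟨_, rfl⟩
  -- bound of `A`
  have hA1 : A = 60 * (k * (L * L)) * 2 ^ (3 * k) := by
    rw [hA, hK, hb]
    ring
  have hkL : k ≤ L := by omega
  have hkLL : k * (L * L) ≤ L ^ 5 := by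
    calc k * (L * L) ≤ L * (L * L) := Nat.mul_le_mul_right _ hkL
      _ = L ^ 3 := by ring
      _ ≤ L ^ 5 := Nat.pow_le_pow_right hL1 (by norm_num)
  have hA2 : A ≤ 2 ^ (q + 3 * k + 7) := by
    calc A = 60 * (k * (L * L)) * 2 ^ (3 * k) := hA1
      _ ≤ 2 ^ 6 * 2 ^ (q + 1) * 2 ^ (3 * k) := by
          apply Nat.mul_le_mul_right
          exact Nat.mul_le_mul (by norm_num) (hkLL.trans hL5)
      _ = 2 ^ (6 + (q + 1) + 3 * k) := by rw [pow_add 2 (6 + (q + 1)), pow_add 2 6 (q + 1)]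
      _ = 2 ^ (q + 3 * k + 7) := by
          congr 1
          omega
  obtain ⟨Q, hQ⟩ : ∃ Q, Q = 2 * S * 2 ^ (3 * k) * A := ⟨_, rfl⟩
  have hQ1 : Q ≤ S * 2 ^ (q + 6 * k + 8) := by
    calc Q = 2 * S * 2 ^ (3 * k) * A := hQ
      _ ≤ 2 * S * 2 ^ (3 * k) * 2 ^ (q + 3 * k + 7) := Nat.mul_le_mul_left _ hA2
      _ = S * (2 ^ 1 * 2 ^ (3 * k) * 2 ^ (q + 3 * k + 7)) := by ring
      _ = S * 2 ^ (q + 6 * k + 8) := by
          rw [← pow_add, ← pow_add]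
          congr 2
          omega
  obtain ⟨e, he⟩ : ∃ e, d - k - 2 = q + 6 * k + 8 + e := ⟨d - k - 2 - (q + 6 * k + 8), by omega⟩
  have he2 : d ≤ 2 * e := by omega
  have hQe : Q * 2 ^ e ≤ N := by
    calc Q * 2 ^ e ≤ S * 2 ^ (q + 6 * k + 8) * 2 ^ e := Nat.mul_le_mul_right _ hQ1
      _ = S * 2 ^ (d - k - 2) := by rw [he, pow_add _ _ e, mul_assoc]
      _ ≤ N := hNS
  have hQN : Q ≤ N := by
    refine le_trans ?_ hQe
    exact Nat.le_mul_of_pos_right _ (Nat.two_pow_pos e)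
  have hVL : V ≤ L * L := by
    have h1 : d * d ≤ L * L := Nat.mul_le_mul hdL.le hdL.le
    omega
  -- the bad paths
  have hVe : V + 1 ≤ e * (3 * k - 1) := by
    have h1 : k ≤ 3 * k - 1 := by omega
    have h2 : e * k ≤ e * (3 * k - 1) := Nat.mul_le_mul_left _ h1
    have h3 : d ≤ 80 * k := by omega
    have h4 : d * d ≤ (2 * e) * (80 * k) := Nat.mul_le_mul he2 h3
    have h5 : (2 * e) * (80 * k) = 160 * (e * k) := by ring
    omega
  have hbad : 2 * T * Q ^ (3 * k - 1) ≤ N ^ (3 * k - 1) := by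
    calc 2 * T * Q ^ (3 * k - 1) ≤ 2 ^ (e * (3 * k - 1)) * Q ^ (3 * k - 1) := by
          apply Nat.mul_le_mul_right
          calc 2 * T ≤ 2 * 2 ^ V := Nat.mul_le_mul_left _ hT
            _ = 2 ^ (V + 1) := by rw [pow_succ, mul_comm]
            _ ≤ _ := Nat.pow_le_pow_right (by norm_num) hVe
      _ = (Q * 2 ^ e) ^ (3 * k - 1) := by rw [mul_pow, pow_mul, mul_comm]
      _ ≤ N ^ (3 * k - 1) := Nat.pow_le_pow_left hQe _
  have hθ : T * (S * ((2 * (2 ^ k * N) + 1) ^ (3 * k) * 2 ^ (2 ^ k * N - b))) <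
      2 ^ (2 ^ k * N - 3 * k) := by
    refine theta_bound hL1 hLn hrN2 ?_ (hT.trans (Nat.pow_le_pow_right (by norm_num) hVL))
      (by omega) hb hbm
    calc S = S * 1 := (mul_one S).symm
      _ ≤ S * 2 ^ d := Nat.mul_le_mul_left _ Nat.one_le_two_pow
      _ ≤ n := hSn
  have hKK : (2 ^ (3 * k) - 1) ^ K * 2 ^ (2 ^ k * N) ≤
      2 ^ (2 ^ k * N - b) * (2 ^ (3 * k)) ^ K := by
    have hM : 2 ^ (3 * k) - 1 + 1 = 2 ^ (3 * k) := Nat.sub_add_cancel Nat.one_le_two_pow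
    have h1 := two_mul_pow_le (2 ^ (3 * k) - 1)
    rw [hM] at h1
    have h2 := Nat.pow_le_pow_left h1 b
    rw [mul_pow, ← pow_mul, ← pow_mul, mul_comm (2 ^ (3 * k)) b, ← hK] at h2
    have h3 : 2 ^ (2 ^ k * N) = 2 ^ (2 ^ k * N - b) * 2 ^ b := by
      rw [← pow_add, Nat.sub_add_cancel hbm]
    rw [h3]
    calc (2 ^ (3 * k) - 1) ^ K * (2 ^ (2 ^ k * N - b) * 2 ^ b)
        = 2 ^ (2 ^ k * N - b) * (2 ^ b * (2 ^ (3 * k) - 1) ^ K) := by ring
      _ ≤ _ := Nat.mul_le_mul_left _ h2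
  have hM' : Decides M out T (2 ^ k + 1) s t := by
    intro G
    refine ⟨fun h => (hM G).1 ?_, (hM G).2⟩
    obtain ⟨l, hl, hw⟩ := h
    refine ⟨l, hl.trans ?_, hw⟩
    calc 2 ^ k + 1 ≤ 2 ^ k + 2 ^ k := Nat.add_le_add_left Nat.one_le_two_pow _
      _ = 2 ^ (k + 1) := by rw [pow_succ]; ring
      _ ≤ 2 ^ d := Nat.pow_le_pow_right (by norm_num) (by omega)
  have hb1 : 1 ≤ b := by
    have : 1 ≤ L * L := Nat.mul_pos hL1 hL1
    omega
  have hfin := explicit (w := 3 * k) (k := k) (K := K) (θ := 2 ^ (2 ^ k * N - b)) (V := V)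
    hrN2 hst M out hM' (by omega) (by omega)
    (by rw [hK]; exact Nat.mul_pos hb1 (Nat.two_pow_pos _))
    (by rw [← hA, ← hQ]; exact hQN) hθ hKK (by rw [← hA, ← hQ]; exact hbad) (le_refl _) hV1 hT
  rw [← hA] at hfin
  -- the contradiction
  obtain ⟨X, hX⟩ : ∃ X, X = 8 * V * 2 ^ k * A * S := ⟨_, rfl⟩
  rw [← hX] at hfin
  have hk0 : 0 < k := by omega
  have hX0 : 0 < X := by
    rw [hX, hA1]
    positivity
  have hX1 : X ≤ S * 2 ^ (q + 4 * k + 10) := by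
    have h1 : k * (L * L) * V ≤ 2 ^ (q + 1) := by
      refine le_trans ?_ hL5
      calc k * (L * L) * V ≤ L * (L * L) * (L * L) :=
            Nat.mul_le_mul (Nat.mul_le_mul_right _ hkL) hVL
        _ = L ^ 5 := by ring
    calc X = 480 * (k * (L * L) * V) * (2 ^ k * 2 ^ (3 * k)) * S := by
          rw [hX, hA1]
          ring
      _ ≤ 2 ^ 9 * 2 ^ (q + 1) * (2 ^ k * 2 ^ (3 * k)) * S := by
          apply Nat.mul_le_mul_right
          apply Nat.mul_le_mul_right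
          exact Nat.mul_le_mul (by norm_num) h1
      _ = S * (2 ^ 9 * 2 ^ (q + 1) * (2 ^ k * 2 ^ (3 * k))) := by ring
      _ = S * 2 ^ (q + 4 * k + 10) := by
          rw [← pow_add, ← pow_add, ← pow_add]
          congr 2
          omega
  obtain ⟨f, hf⟩ : ∃ f, d - k - 2 = q + 4 * k + 10 + f := ⟨d - k - 2 - (q + 4 * k + 10), by omega⟩
  have hf2 : d ≤ 2 * f := by omega
  have hXf : X * 2 ^ f ≤ N := by
    calc X * 2 ^ f ≤ S * 2 ^ (q + 4 * k + 10) * 2 ^ f := Nat.mul_le_mul_right _ hX1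
      _ = S * 2 ^ (d - k - 2) := by rw [hf, pow_add _ _ f, mul_assoc]
      _ ≤ N := hNS
  have h1 : X ^ k * 2 ^ (f * k) ≤ X ^ k * 2 ^ (V + 1) := by
    calc X ^ k * 2 ^ (f * k) = (X * 2 ^ f) ^ k := by rw [mul_pow, pow_mul]
      _ ≤ N ^ k := Nat.pow_le_pow_left hXf _
      _ ≤ 2 * (2 ^ V * X ^ k) := hfin
      _ = X ^ k * 2 ^ (V + 1) := by rw [pow_succ]; ring
  have h2 : 2 ^ (f * k) ≤ 2 ^ (V + 1) := Nat.le_of_mul_le_mul_left h1 (Nat.pow_pos hX0)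
  have h3 : f * k ≤ V + 1 := (Nat.pow_le_pow_iff_right (by norm_num)).1 h2
  have h4 : d ≤ 80 * k := by omega
  have h5 : d * d ≤ (2 * f) * (80 * k) := Nat.mul_le_mul hf2 h4
  have h6 : (2 * f) * (80 * k) = 160 * (f * k) := by ring
  have h7 : 1000 * 1000 ≤ d * d := Nat.mul_le_mul hd hd
  omega

end ArithAux

open ArithAux

/-- `K = b 2 ^ w` disjoint sets suffice for the error `θ = 2 ^ (m - b)` -/
theorem pow_le_of_b {w m b : ℕ} (hb : b ≤ m) :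
    (2 ^ w - 1) ^ (b * 2 ^ w) * 2 ^ m ≤ 2 ^ (m - b) * (2 ^ w) ^ (b * 2 ^ w) := by
  have hM : 2 ^ w - 1 + 1 = 2 ^ w := Nat.sub_add_cancel Nat.one_le_two_pow
  have h1 := two_mul_pow_le (2 ^ w - 1)
  rw [hM] at h1
  have h2 := Nat.pow_le_pow_left h1 b
  rw [mul_pow, ← pow_mul, ← pow_mul, mul_comm (2 ^ w) b] at h2
  have h3 : 2 ^ m = 2 ^ (m - b) * 2 ^ b := by
    rw [← pow_add, Nat.sub_add_cancel hb]
  rw [h3]
  calc (2 ^ w - 1) ^ (b * 2 ^ w) * (2 ^ (m - b) * 2 ^ b)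
      = 2 ^ (m - b) * (2 ^ b * (2 ^ w - 1) ^ (b * 2 ^ w)) := by ring
    _ ≤ _ := Nat.mul_le_mul_left _ h2

/-- Lower bound.  (`k = d / 40`, trivial if `k < 4`; `r = 2 ^ k`, `N = (n - 2) / r`, `w = 3 k`,
`b = 10 (log n + 1) ^ 2`, `θ = 2 ^ (r N - b)`, `K = b 2 ^ w`, `V = d ^ 2 / C + 1`.) -/
theorem lower : ∃ C : ℕ, 1 ≤ C ∧ ∀ (n S d T : ℕ) (s t : Fin n), s ≠ t →
    ∀ (M : Mach n S) (out : Fin S), Decides M out T (2 ^ d) s t →
      S * 2 ^ d ≤ n → (Nat.log 2 n + 1) ^ C ≤ 2 ^ d → 2 ^ (d ^ 2 / C) ≤ T := by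
  obtain ⟨C, hC⟩ : ∃ C : ℕ, C = 1000000 := ⟨_, rfl⟩
  refine ⟨C, by omega, fun n S d T s t hst M out hM hSn hL => ?_⟩
  by_contra hcon
  have hcon := not_le.1 hcon
  have hT1 := T_pos hst M out Nat.one_le_two_pow hM
  by_cases hd : d < 1000
  · have h1 : d ^ 2 / C = 0 := by
      apply Nat.div_eq_of_lt
      rw [hC]
      nlinarith
    rw [h1, pow_zero] at hcon
    omega
  · have hd1 : 1000 ≤ d := not_lt.1 hd
    have h1 : 1 ≤ Nat.log 2 n + 1 := Nat.le_add_left _ _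
    have hL100 : (Nat.log 2 n + 1) ^ 100 ≤ 2 ^ d :=
      (Nat.pow_le_pow_right h1 (by omega : 100 ≤ C)).trans hL
    have h2 : n < 2 ^ (Nat.log 2 n + 1) := Nat.lt_pow_succ_log_self (by norm_num) n
    refine main_case hst M out hM hSn h2 hL100 hd1 (V := d ^ 2 / C + 1) (Nat.le_add_left _ _) ?_ ?_
    · have h3 : d ^ 2 = d * d := sq d
      have h4 : C * (d * d / C) ≤ d * d := Nat.mul_div_le _ _
      have h5 : 1000 * 1000 ≤ d * d := Nat.mul_le_mul hd1 hd1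
      rw [h3]
      rw [hC] at h4 ⊢
      omega
    · exact hcon.le.trans (Nat.pow_le_pow_right (by norm_num) (Nat.le_succ _))

end MTB
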