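import Pool.Agent.Lib.MTB.Cond
import Pool.Agent.Lib.MTB.AMach

/-!
# MTB.BadL (MP_e46137_lc): few paths are bad
-/

namespace MTB

open Classical Finset MTS

variable {r N : ℕ}

/-- the union of two compatible partial colourings -/
noncomputable def jn (X W : PC r N) : PC r N := fun j => if X j = none then W j else X j

theorem size_jn (X W : PC r N) : size (jn X W) = size X + newsize X W := by
  unfold size newsize
  rw [← card_union_of_disjoint]
  · congr 1
    ext j
    simp only [jn, mem_filter, mem_univ, true_and, mem_union]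
    by_cases h : X j = none <;> simp [h]
  · rw [Finset.disjoint_left]
    intro j h1 h2
    simp only [mem_filter, mem_univ, true_and] at h1 h2
    exact h1 h2.1

theorem sub_jn {X W V : PC r N} (h1 : Sub X V) (h2 : Sub W V) : Sub (jn X W) V := by
  intro j x hx
  unfold jn at hx
  by_cases h : X j = none
  · rw [if_pos h] at hx
    exact h2 j x hx
  · rw [if_neg h] at hx
    exact h1 j x hx

theorem size_jn_jn (X W U : PC r N) : size (jn X U) ≤ size (jn (jn X W) U) := by
  unfold size
  apply card_le_card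
  intro j
  simp only [jn, mem_filter, mem_univ, true_and]
  by_cases h : X j = none
  · by_cases h' : W j = none
    · simp [h, h']
    · simp [h, h']
  · simp [h]

/-- the bad paths above `X` -/
noncomputable def BX (b : ℕ) (M : Finset (PC r N)) (X : PC r N) : Finset (Pth r N) :=
  univ.filter (fun P => ∃ q ≤ r, Sub X (UP P q) ∧ b ≤ size (jn X (un M (UP P q))))

/-- the paths through the coloured vertices of `Y` -/
noncomputable def thr (Y : PC r N) : Finset (Pth r N) :=
  univ.filter (fun P => ∀ j x, Y j = some x → P j = x.1)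

theorem mem_thr_of_sub {Y : PC r N} {P : Pth r N} {q : ℕ} (h : Sub Y (UP P q)) : P ∈ thr Y := by
  unfold thr
  simp only [mem_filter, mem_univ, true_and]
  intro j x hx
  have h1 := h j x hx
  unfold UP at h1
  have h2 := Option.some.inj h1
  rw [← h2]

theorem thr_card (hN : 0 < N) (Y : PC r N) : (thr Y).card * N ^ size Y = N ^ r := by
  have h := card_fix (univ.filter (fun j => Y j ≠ none))
    (fun j : Fin r => ((Y j).map Prod.fst).getD ⟨0, hN⟩)
  have h2 : thr Y = univ.filter (fun P : Pth r N => ∀ j ∈ univ.filter (fun j => Y j ≠ none),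
      P j = ((Y j).map Prod.fst).getD ⟨0, hN⟩) := by
    unfold thr
    ext P
    simp only [mem_filter, mem_univ, true_and]
    constructor
    · intro hP j hj
      obtain ⟨x, hx⟩ := Option.ne_none_iff_exists'.mp hj
      rw [hP j x hx, hx]
      rfl
    · intro hP j x hx
      have := hP j (by rw [hx]; simp)
      rw [this, hx]
      rfl
  rw [h2]
  exact h

theorem thr_card_real (hN : 0 < N) (Y : PC r N) :
    ((thr Y).card : ℝ) = (N : ℝ) ^ r / (N : ℝ) ^ size Y := by
  have h := thr_card hN Y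
  have h' : ((thr Y).card : ℝ) * (N : ℝ) ^ size Y = (N : ℝ) ^ r := by exact_mod_cast h
  have hN' : (0 : ℝ) < (N : ℝ) ^ size Y := by positivity
  rw [eq_div_iff hN'.ne']
  exact h'

theorem half_sum (r : ℕ) : ∑ a ∈ Icc 1 r, ((1 : ℝ) / 2) ^ a ≤ 1 := by
  have h : ∑ a ∈ Icc 1 r, ((1 : ℝ) / 2) ^ a = 1 - (1 / 2) ^ r := by
    induction r with
    | zero => simp
    | succ n ih =>
      rw [sum_Icc_succ_top (by omega), ih, pow_succ]
      ring
  rw [h]
  have : (0 : ℝ) ≤ (1 / 2) ^ r := by positivity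
  linarith

theorem BX_card {b K Q : ℕ} (M : Finset (PC r N)) (hK : 1 ≤ K) (hQ : 1 ≤ Q)
    (hM : ∀ (D : PC r N) (a : ℕ),
      (M.filter (fun W => Sub D W ∧ size W = size D + a)).card ≤ K * Q ^ a)
    (hN : 2 * K * 2 ^ b * Q ≤ N) :
    ∀ (m : ℕ) (X : PC r N), size X + m = b →
      ((BX b M X).card : ℝ) ≤ (N : ℝ) ^ r / (N : ℝ) ^ b * (2 * (K * 2 ^ b * Q : ℝ)) ^ m := by
  have hN0 : 0 < N := by
    have : 0 < 2 * K * 2 ^ b * Q := by positivity
    omega
  have hNr : (0 : ℝ) < N := by exact_mod_cast hN0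
  have hNr' : 2 * ((K : ℝ) * 2 ^ b * Q) ≤ N := by
    have : ((2 * K * 2 ^ b * Q : ℕ) : ℝ) ≤ (N : ℝ) := by exact_mod_cast hN
    push_cast at this
    nlinarith [this]
  have hKr : (1 : ℝ) ≤ K := by exact_mod_cast hK
  have hQr : (1 : ℝ) ≤ Q := by exact_mod_cast hQ
  intro m
  induction m using Nat.strong_induction_on with
  | _ m ih =>
  intro X hX
  set κ : ℝ := (K : ℝ) * 2 ^ b * Q with hκ
  have hκ0 : 0 < κ := by positivity
  rcases Nat.eq_zero_or_pos m with hm | hm
  · subst hm
    have hsub : BX b M X ⊆ thr X := by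
      intro P hP
      unfold BX at hP
      simp only [mem_filter, mem_univ, true_and] at hP
      obtain ⟨q, hq, h1, h2⟩ := hP
      exact mem_thr_of_sub h1
    have h1 : ((BX b M X).card : ℝ) ≤ ((thr X).card : ℝ) := by
      exact_mod_cast card_le_card hsub
    rw [thr_card_real hN0] at h1
    have h2 : size X = b := by omega
    rw [h2] at h1
    simpa using h1
  · have key := sum_bound M hM X (BX b M X)
      (fun W => if newsize X W ≤ m then BX b M (jn X W) else thr (jn X W))
      (fun a => if a ≤ m then (N : ℝ) ^ r / (N : ℝ) ^ b * (2 * κ) ^ (m - a)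
        else (N : ℝ) ^ r / (N : ℝ) ^ (size X + a))
      (by
        intro a
        split_ifs <;> positivity)
      (by
        intro P hP
        unfold BX at hP
        simp only [mem_filter, mem_univ, true_and] at hP
        obtain ⟨q, hq, h1, h2⟩ := hP
        rw [size_jn] at h2
        have h3 : 0 < newsize X (un M (UP P q)) := by omega
        unfold newsize at h3
        obtain ⟨j, hj⟩ := card_pos.mp h3
        simp only [mem_filter, mem_univ, true_and] at hj
        obtain ⟨hj1, hj2⟩ := hj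
        unfold un at hj2
        split_ifs at hj2 with hc
        · obtain ⟨W, hW, hWV, hWj⟩ := hc
          refine ⟨W, hW, ?_, ?_, ?_⟩
          · intro i x y hx hy
            have e1 := h1 i x hx
            have e2 := hWV i y hy
            rw [e1] at e2
            exact Option.some.inj e2
          · unfold newsize
            exact (card_pos.mpr ⟨j, by simp [hj1, hWj]⟩).ne'
          · split_ifs with hs
            · unfold BX
              simp only [mem_filter, mem_univ, true_and]
              refine ⟨q, hq, sub_jn h1 hWV, ?_⟩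
              refine le_trans ?_ (size_jn_jn X W (un M (UP P q)))
              rw [size_jn]
              exact h2
            · exact mem_thr_of_sub (sub_jn h1 hWV)
        · exact absurd rfl hj2)
      (by
        intro W hW hc hn
        split_ifs with hs
        · apply ih (m - newsize X W) (by omega) (jn X W)
          rw [size_jn]
          omega
        · rw [thr_card_real hN0, size_jn])
    refine key.trans ?_
    rw [mul_sum]
    have hterm : ∀ a ∈ Icc 1 r, (2 : ℝ) ^ size X * K * ((Q : ℝ) ^ a *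
        (if a ≤ m then (N : ℝ) ^ r / (N : ℝ) ^ b * (2 * κ) ^ (m - a)
        else (N : ℝ) ^ r / (N : ℝ) ^ (size X + a))) ≤
        (N : ℝ) ^ r / (N : ℝ) ^ b * (2 * κ) ^ m * (1 / 2) ^ a := by
      intro a ha
      rw [mem_Icc] at ha
      have h1 : (2 : ℝ) ^ size X * K * (Q : ℝ) ^ a ≤ κ ^ a := by
        rw [hκ, mul_pow, mul_pow]
        have e1 : (2 : ℝ) ^ size X ≤ (2 ^ b) ^ a := by
          rw [← pow_mul]
          apply pow_le_pow_right₀ (by norm_num)
          nlinarith [ha.1, hX]
        have e2 : (K : ℝ) ≤ (K : ℝ) ^ a := le_self_pow₀ hKr (by omega)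
        have e3 : (0 : ℝ) ≤ (Q : ℝ) ^ a := by positivity
        calc (2 : ℝ) ^ size X * K * (Q : ℝ) ^ a
            ≤ (2 ^ b) ^ a * (K : ℝ) ^ a * (Q : ℝ) ^ a := by gcongr
          _ = (K : ℝ) ^ a * (2 ^ b) ^ a * (Q : ℝ) ^ a := by ring
      split_ifs with hs
      · obtain ⟨d, rfl⟩ := Nat.exists_eq_add_of_le hs
        have e : a + d - a = d := by omega
        rw [e]
        calc (2 : ℝ) ^ size X * K * ((Q : ℝ) ^ a * ((N : ℝ) ^ r / (N : ℝ) ^ b * (2 * κ) ^ d))
            = ((2 : ℝ) ^ size X * K * (Q : ℝ) ^ a) * ((N : ℝ) ^ r / (N : ℝ) ^ b * (2 * κ) ^ d) := by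
              ring
          _ ≤ κ ^ a * ((N : ℝ) ^ r / (N : ℝ) ^ b * (2 * κ) ^ d) := by gcongr
          _ = (N : ℝ) ^ r / (N : ℝ) ^ b * (2 * κ) ^ (a + d) * (1 / 2) ^ a := by
              rw [pow_add, mul_pow 2 κ a, div_pow, one_pow]
              field_simp
      · obtain ⟨d, rfl⟩ := Nat.exists_eq_add_of_le (Nat.le_of_not_le hs)
        have e : size X + (m + d) = b + d := by omega
        rw [e]
        have e4 : κ ^ d ≤ ((N : ℝ) / 2) ^ d := by
          apply pow_le_pow_left₀ hκ0.le
          linarith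
        calc (2 : ℝ) ^ size X * K * ((Q : ℝ) ^ (m + d) * ((N : ℝ) ^ r / (N : ℝ) ^ (b + d)))
            = ((2 : ℝ) ^ size X * K * (Q : ℝ) ^ (m + d)) * ((N : ℝ) ^ r / (N : ℝ) ^ (b + d)) := by
              ring
          _ ≤ κ ^ (m + d) * ((N : ℝ) ^ r / (N : ℝ) ^ (b + d)) := by gcongr
          _ = κ ^ m * κ ^ d * ((N : ℝ) ^ r / (N : ℝ) ^ (b + d)) := by rw [pow_add]
          _ ≤ κ ^ m * ((N : ℝ) / 2) ^ d * ((N : ℝ) ^ r / (N : ℝ) ^ (b + d)) := by gcongr
          _ = (N : ℝ) ^ r / (N : ℝ) ^ b * (2 * κ) ^ m * (1 / 2) ^ (m + d) := by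
              rw [pow_add (N : ℝ) b d, pow_add (1 / 2 : ℝ) m d, mul_pow 2 κ m, div_pow, div_pow,
                div_pow, one_pow, one_pow]
              have hNd : (N : ℝ) ^ d ≠ 0 := by positivity
              have hNb : (N : ℝ) ^ b ≠ 0 := by positivity
              field_simp
    refine (sum_le_sum hterm).trans ?_
    rw [← mul_sum]
    have hC : (0 : ℝ) ≤ (N : ℝ) ^ r / (N : ℝ) ^ b * (2 * κ) ^ m := by positivity
    calc (N : ℝ) ^ r / (N : ℝ) ^ b * (2 * κ) ^ m * ∑ a ∈ Icc 1 r, ((1 : ℝ) / 2) ^ a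
        ≤ (N : ℝ) ^ r / (N : ℝ) ^ b * (2 * κ) ^ m * 1 :=
          mul_le_mul_of_nonneg_left (half_sum r) hC
      _ = _ := by ring

/-- Proof.  For a partial colouring `X` with `size X ≤ b` let `B X` = the paths `P` such that, for
some `q ≤ r`, `X` lies below `UP P q` and the union of `X` and `un M (UP P q)` has size `≥ b`.
Claim: `(B X).card * N ^ b ≤ N ^ r * (2 * κ) ^ (b - size X)`, `κ = K * 2 ^ b * Q`.  Induction on
`b - size X`.  If it is `0`: the paths through `X`.  Otherwise some `W ∈ M` below `UP P q` has a new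
vertex (`W` is compatible with `X`), let `a` = number of new vertices; if `a ≤ b - size X` then `P`
lies in `B (X ∪ W)`, otherwise `P` passes through the `size X + a > b` vertices of `X ∪ W`.
`sum_bound` with `c a = N ^ r / N ^ b * (2 κ) ^ (b - size X - a)`, resp. `N ^ r / N ^ (size X + a)`;
`∑ κ ^ a (2 κ) ^ (m - a) ≤ κ ^ m (2 ^ m - 1)` and the rest is at most `κ ^ m` since `2 κ ≤ N`. -/
theorem bad_card {b K Q : ℕ} (M : Finset (PC r N)) (hK : 1 ≤ K) (hQ : 1 ≤ Q)
    (hM : ∀ (D : PC r N) (a : ℕ),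
      (M.filter (fun W => Sub D W ∧ size W = size D + a)).card ≤ K * Q ^ a)
    (hN : 2 * K * 2 ^ b * Q ≤ N) :
    (bad b M).card * N ^ b ≤ N ^ r * (2 * K * 2 ^ b * Q) ^ b := by
  have hN0 : 0 < N := by
    have : 0 < 2 * K * 2 ^ b * Q := by positivity
    omega
  have hNr : (0 : ℝ) < N := by exact_mod_cast hN0
  have hs : size (fun _ => none : PC r N) = 0 := by simp [size]
  have h := BX_card M hK hQ hM hN b (fun _ => none) (by rw [hs]; omega)
  have hsub : bad b M ⊆ BX b M (fun _ => none) := by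
    intro P hP
    unfold bad at hP
    simp only [mem_filter, mem_univ, true_and] at hP
    obtain ⟨q, hq, h1⟩ := hP
    unfold BX
    simp only [mem_filter, mem_univ, true_and]
    refine ⟨q, hq, ?_, ?_⟩
    · intro j x hx
      exact absurd hx (by simp)
    · have : jn (fun _ => none : PC r N) (un M (UP P q)) = un M (UP P q) := by
        funext j
        simp [jn]
      rw [this]
      exact h1
  have h1 : ((bad b M).card : ℝ) ≤ (N : ℝ) ^ r / (N : ℝ) ^ b * (2 * (K * 2 ^ b * Q : ℝ)) ^ b := by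
    refine le_trans ?_ h
    exact_mod_cast card_le_card hsub
  have hNb : (0 : ℝ) < (N : ℝ) ^ b := by positivity
  have h2 : ((bad b M).card : ℝ) * (N : ℝ) ^ b ≤ (N : ℝ) ^ r * (2 * K * 2 ^ b * Q : ℝ) ^ b := by
    calc ((bad b M).card : ℝ) * (N : ℝ) ^ b
        ≤ (N : ℝ) ^ r / (N : ℝ) ^ b * (2 * (K * 2 ^ b * Q : ℝ)) ^ b * (N : ℝ) ^ b := by gcongr
      _ = (N : ℝ) ^ r * (2 * (K * 2 ^ b * Q : ℝ)) ^ b := by field_simp
      _ = (N : ℝ) ^ r * (2 * K * 2 ^ b * Q : ℝ) ^ b := by ring_nf
  exact_mod_cast h2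

end MTB
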