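import Pool.Agent.Lib.MTB.Clos
import Pool.Agent.Lib.MTS.ClosB2

/-!
# MTB.Branch (MP_e46137_lc): closed families have few minimal members
-/

namespace MTB

open Classical Finset MTS

variable {r N : ℕ}

namespace BranchAux

open MTS.ClosB1Aux

/-- overwriting is at most `2 ^ w` to one -/
theorem card_le {w : ℕ} (U W : PC r N) (hW : size W ≤ w) (A B : Finset (Col r N))
    (h : ∀ χ ∈ A, ov U W χ ∈ B) : A.card ≤ 2 ^ w * B.card := by
  have h1 : A.card ≤ 2 ^ w * (A.image (ov U W)).card := by
    apply Finset.card_le_mul_card_image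
    intro ψ _
    have h2 : (A.filter (fun χ => ov U W χ = ψ)).card ≤
        (univ : Finset ({j : Fin r // W j ≠ none} → Bool)).card := by
      apply Finset.card_le_card_of_injOn (fun χ j => vals W χ j.1)
      · intro χ _
        exact Finset.mem_coe.2 (Finset.mem_univ _)
      · intro χ hχ χ' hχ' hv
        have e1 := (Finset.mem_filter.1 (Finset.mem_coe.1 hχ)).2
        have e2 := (Finset.mem_filter.1 (Finset.mem_coe.1 hχ')).2
        apply eq_of_vals (e1.trans e2.symm)
        funext j
        by_cases hj : W j = none
        · unfold vals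
          rw [hj]
        · exact congrFun hv ⟨j, hj⟩
    have h3 : (univ : Finset ({j : Fin r // W j ≠ none} → Bool)).card = 2 ^ size W := by
      rw [Finset.card_univ]
      simp only [Fintype.card_pi, Fintype.card_bool, Finset.prod_const, Finset.card_univ]
      congr 1
      rw [Fintype.card_subtype]
      rfl
    rw [h3] at h2
    exact h2.trans (Nat.pow_le_pow_right (by norm_num) hW)
  refine h1.trans (Nat.mul_le_mul_left _ (Finset.card_le_card ?_))
  intro ψ hψ
  obtain ⟨χ, hχ, rfl⟩ := Finset.mem_image.1 hψ
  exact h χ hχ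

theorem card_new {w : ℕ} (W : PC r N) (hW : size W ≤ w) :
    (univ.biUnion (fun j => MTS.newV W j)).card ≤ w * 2 := by
  have h1 : univ.biUnion (fun j => MTS.newV W j) ⊆
      (univ.filter (fun j => W j ≠ none)).biUnion (fun j => MTS.newV W j) := by
    intro x hx
    obtain ⟨j, _, hj⟩ := mem_biUnion.1 hx
    rw [mem_biUnion]
    refine ⟨j, ?_, hj⟩
    rw [mem_filter]
    refine ⟨mem_univ _, ?_⟩
    intro h0
    unfold MTS.newV at hj
    rw [h0] at hj
    exact absurd hj (Finset.notMem_empty _)
  refine (card_le_card h1).trans ?_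
  refine (Finset.card_biUnion_le_card_mul _ _ 2 (fun j _ => MTS.card_newV W j)).trans ?_
  exact Nat.mul_le_mul_right _ hW

theorem card_allV {w : ℕ} (l : List (PC r N)) (hl : ∀ W ∈ l, size W ≤ w) :
    (MTS.allV l).card ≤ 2 * w * l.length := by
  unfold MTS.allV
  calc _ ≤ ∑ W ∈ l.toFinset, (univ.biUnion (fun j => MTS.newV W j)).card := card_biUnion_le
    _ ≤ ∑ _W ∈ l.toFinset, w * 2 := by
        apply sum_le_sum
        intro W hW
        exact card_new W (hl W (List.mem_toFinset.1 hW))
    _ = l.toFinset.card * (w * 2) := by simp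
    _ ≤ l.length * (w * 2) := Nat.mul_le_mul_right _ (List.toFinset_card_le l)
    _ = 2 * w * l.length := by ring

theorem supp_sub {D W : PC r N} (h : Sub D W) :
    univ.filter (fun j => D j ≠ none) ⊆ univ.filter (fun j => W j ≠ none) := by
  intro j hj
  rw [mem_filter] at hj ⊢
  refine ⟨mem_univ _, ?_⟩
  obtain ⟨x, hx⟩ := Option.ne_none_iff_exists'.1 hj.2
  rw [h j x hx]
  exact Option.some_ne_none x

theorem size_le {D W : PC r N} (h : Sub D W) : size D ≤ size W :=
  card_le_card (supp_sub h)

theorem eq_of_size {D W : PC r N} (h : Sub D W) (hs : size W = size D) : W = D := by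
  have h1 := Finset.eq_of_subset_of_card_le (supp_sub h) (le_of_eq hs)
  funext j
  cases hD : D j with
  | some x => exact h j x hD
  | none =>
    by_contra hW
    have h2 : j ∈ univ.filter (fun j => W j ≠ none) := by
      rw [mem_filter]
      exact ⟨mem_univ _, hW⟩
    rw [← h1, mem_filter] at h2
    exact h2.2 hD

theorem size_update {D : PC r N} {j : Fin r} (hj : D j = none) (x : Fin N × Bool) :
    size (Function.update D j (some x)) = size D + 1 := by
  unfold size
  have h1 : univ.filter (fun i => Function.update D j (some x) i ≠ none) =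
      insert j (univ.filter (fun i => D i ≠ none)) := by
    ext i
    by_cases hi : i = j
    · subst hi
      simp
    · simp [Function.update_of_ne hi, hi]
  rw [h1, Finset.card_insert_of_notMem]
  rw [mem_filter]
  intro h2
  exact h2.2 hj

end BranchAux

open BranchAux MTS.ClosB1Aux in
/-- A list of extensions of `U` with at most `w` coloured vertices and pairwise disjoint new
vertices: few colourings extend `U` and none of them.  (Induction over the list: overwriting `χ` by
the new vertices of the head of the list maps the colourings which avoid the tail to those which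
moreover extend the head, at most `2 ^ w` to one.) -/
theorem avoid_card {w : ℕ} (U : PC r N) (l : List (PC r N)) (hl : ∀ W ∈ l, Sub U W)
    (hw : ∀ W ∈ l, size W ≤ w)
    (hd : l.Pairwise (fun W W' => ∀ j, U j = none → ∀ x x', W j = some x → W' j = some x' →
      x.1 ≠ x'.1)) :
    (univ.filter (fun χ : Col r N => Agree U χ ∧ ∀ W ∈ l, ¬ Agree W χ)).card * (2 ^ w) ^ l.length ≤
      (2 ^ w - 1) ^ l.length * 2 ^ (r * N) := by
  induction l with
  | nil =>
    simp only [List.length_nil, pow_zero, mul_one, one_mul]
    have h1 : (univ : Finset (Col r N)).card = 2 ^ (r * N) := by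
      rw [Finset.card_univ]
      simp only [Col, Fintype.card_pi, Fintype.card_bool, Finset.prod_const, Finset.card_univ,
        Fintype.card_fin]
      rw [← pow_mul, mul_comm]
    rw [← h1]
    exact Finset.card_le_card (Finset.filter_subset _ _)
  | cons W l ih =>
    have ih' := ih (fun W' hW' => hl W' (List.mem_cons_of_mem _ hW'))
      (fun W' hW' => hw W' (List.mem_cons_of_mem _ hW')) (List.pairwise_cons.1 hd).2
    have hW := hl W List.mem_cons_self
    have hdW := (List.pairwise_cons.1 hd).1
    generalize hA : (univ.filter (fun χ : Col r N => Agree U χ ∧ ∀ W ∈ l, ¬ Agree W χ)) = A at ih'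
    have hB : (univ.filter (fun χ : Col r N => Agree U χ ∧ ∀ W' ∈ W :: l, ¬ Agree W' χ)) =
        A.filter (fun χ => ¬ Agree W χ) := by
      rw [← hA]
      ext χ
      simp only [Finset.mem_filter, Finset.mem_univ, true_and, List.forall_mem_cons]
      tauto
    have h1 : A.card ≤ 2 ^ w * (A.filter (fun χ => Agree W χ)).card := by
      apply card_le U W (hw W List.mem_cons_self)
      intro χ hχ
      rw [← hA, Finset.mem_filter] at hχ
      obtain ⟨_, hU, hav⟩ := hχ
      rw [Finset.mem_filter, ← hA, Finset.mem_filter]
      refine ⟨⟨Finset.mem_univ _, ov_agree_left hU, fun W' hW' ha => ?_⟩, ov_agree hU hW⟩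
      exact hav W' hW' (agree_of_ov hU (hl W' (List.mem_cons_of_mem _ hW')) (hdW W' hW') ha)
    have h2 := Finset.card_filter_add_card_filter_not (s := A) (fun χ => Agree W χ)
    have h3 : 1 ≤ 2 ^ w := Nat.one_le_two_pow
    have h4 : (A.filter (fun χ => ¬ Agree W χ)).card * 2 ^ w ≤ (2 ^ w - 1) * A.card := by
      obtain ⟨m, hm⟩ : ∃ m, 2 ^ w = m + 1 := ⟨2 ^ w - 1, by omega⟩
      rw [hm] at h1 ⊢
      rw [Nat.add_sub_cancel]
      generalize (A.filter (fun χ => ¬ Agree W χ)).card = b at *
      generalize (A.filter (fun χ => Agree W χ)).card = a at *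
      rw [← h2] at h1 ⊢
      nlinarith
    rw [hB, List.length_cons, pow_succ, pow_succ]
    calc (A.filter (fun χ => ¬ Agree W χ)).card * ((2 ^ w) ^ l.length * 2 ^ w)
        = ((A.filter (fun χ => ¬ Agree W χ)).card * 2 ^ w) * (2 ^ w) ^ l.length := by ring
      _ ≤ ((2 ^ w - 1) * A.card) * (2 ^ w) ^ l.length := Nat.mul_le_mul_right _ h4
      _ = (2 ^ w - 1) * (A.card * (2 ^ w) ^ l.length) := by ring
      _ ≤ (2 ^ w - 1) * ((2 ^ w - 1) ^ l.length * 2 ^ (r * N)) := Nat.mul_le_mul_left _ ih'
      _ = (2 ^ w - 1) ^ l.length * (2 ^ w - 1) * 2 ^ (r * N) := by ring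

/-- The new vertices of the extensions of `U` in `F` meet a small set (union of the new vertices,
with both colours, of a list of members of `F` extending `U` with pairwise disjoint new vertices
and maximal length; this length is less than `K`). -/
theorem exists_cover {w θ K : ℕ} {F : Finset (PC r N)} (hF : ClosedW w θ F)
    (hK : (2 ^ w - 1) ^ K * 2 ^ (r * N) ≤ θ * (2 ^ w) ^ K) {U : PC r N} (hw : size U ≤ w)
    (hU : U ∉ F) :
    ∃ H : Finset (Fin r × Fin N × Bool), H.card ≤ 2 * w * K ∧ ∀ W ∈ F, Sub U W →
      ∃ x ∈ H, U x.1 = none ∧ W x.1 = some x.2 := by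
  by_contra hno
  push Not at hno
  have key : ∀ n, n ≤ K → ∃ l : List (PC r N), l.length = n ∧ (∀ W ∈ l, W ∈ F ∧ Sub U W) ∧
      l.Pairwise (fun W W' => ∀ j, U j = none → ∀ x x', W j = some x → W' j = some x' →
        x.1 ≠ x'.1) := by
    intro n
    induction n with
    | zero =>
      intro _
      exact ⟨[], rfl, by simp, List.Pairwise.nil⟩
    | succ n ih =>
      intro hn
      obtain ⟨l, hl, hlF, hlP⟩ := ih (by omega)
      have hcard : (MTS.allV l).card ≤ 2 * w * K := by
        refine (BranchAux.card_allV l (fun W hW => hF.1 W (hlF W hW).1)).trans ?_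
        rw [hl]
        exact Nat.mul_le_mul_left _ (by omega)
      obtain ⟨W, hW, hUW, hWx⟩ := hno (MTS.allV l) hcard
      refine ⟨W :: l, by simp [hl], ?_, ?_⟩
      · intro V hV
        rcases List.mem_cons.1 hV with rfl | hV
        · exact ⟨hW, hUW⟩
        · exact hlF V hV
      · refine List.Pairwise.cons ?_ hlP
        intro W' hW' j hj x x' hx hx' he
        have hmem : (j, x.1, x.2) ∈ MTS.allV l := by
          unfold MTS.allV
          rw [mem_biUnion]
          refine ⟨W', List.mem_toFinset.2 hW', ?_⟩
          rw [mem_biUnion]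
          refine ⟨j, mem_univ _, ?_⟩
          rw [he]
          exact MTS.mem_newV hx' x.2
        exact hWx _ hmem hj hx
  obtain ⟨l, hl, hlF, hlP⟩ := key K le_rfl
  have h1 := avoid_card (w := w) U l (fun W hW => (hlF W hW).2)
    (fun W hW => hF.1 W (hlF W hW).1) hlP
  rw [hl] at h1
  have h2 : (univ.filter (fun χ : Col r N => Agree U χ ∧ ∀ W ∈ l, ¬ Agree W χ)).card ≤ θ := by
    have hpos : 0 < (2 ^ w) ^ K := by positivity
    exact Nat.le_of_mul_le_mul_right (h1.trans hK) hpos
  apply hU
  apply hF.2 U hw
  refine (card_le_card ?_).trans h2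
  intro χ hχ
  rw [mem_filter] at hχ ⊢
  refine ⟨mem_univ _, hχ.2.1, ?_⟩
  intro W hW hA
  exact hχ.2.2 ⟨W, (hlF W hW).1, hA⟩

/-- At most `(2 w K) ^ a` minimal members extend `D` by `a` new vertices.  (Induction on `a`: if
`D ∈ F` then `W = D`; otherwise `W` contains a member of the cover of `D`, add it to `D`.) -/
theorem ext_card {w θ K : ℕ} {F : Finset (PC r N)} (hF : ClosedW w θ F)
    (hK : (2 ^ w - 1) ^ K * 2 ^ (r * N) ≤ θ * (2 ^ w) ^ K) (D : PC r N) (a : ℕ) :
    (univ.filter (fun W : PC r N => IsMin F W ∧ Sub D W ∧ size W = size D + a)).card ≤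
      (2 * w * K) ^ a := by
  induction a generalizing D with
  | zero =>
    rw [pow_zero, Finset.card_le_one]
    have key : ∀ W ∈ univ.filter (fun W : PC r N => IsMin F W ∧ Sub D W ∧ size W = size D + 0),
        W = D := by
      intro W hW
      rw [mem_filter] at hW
      exact BranchAux.eq_of_size hW.2.2.1 hW.2.2.2
    intro a ha b hb
    rw [key a ha, key b hb]
  | succ a ih =>
    by_cases hsz : size D ≤ w
    · by_cases hDF : D ∈ F
      · have h0 : univ.filter (fun W : PC r N => IsMin F W ∧ Sub D W ∧
            size W = size D + (a + 1)) = ∅ := by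
          rw [Finset.filter_eq_empty_iff]
          intro W _ hW
          have h1 := hW.1.2 D hDF hW.2.1
          have h2 := hW.2.2
          rw [h1] at h2
          omega
        rw [h0]
        simp
      · obtain ⟨H, hH, hcov⟩ := exists_cover hF hK hsz hDF
        have hsub : univ.filter (fun W : PC r N => IsMin F W ∧ Sub D W ∧
              size W = size D + (a + 1)) ⊆
            (H.filter (fun x => D x.1 = none)).biUnion (fun x =>
              univ.filter (fun W : PC r N => IsMin F W ∧
                Sub (Function.update D x.1 (some x.2)) W ∧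
                size W = size (Function.update D x.1 (some x.2)) + a)) := by
          intro W hW
          rw [mem_filter] at hW
          obtain ⟨x, hx, hx1, hx2⟩ := hcov W hW.2.1.1 hW.2.2.1
          rw [mem_biUnion]
          refine ⟨x, ?_, ?_⟩
          · rw [mem_filter]; exact ⟨hx, hx1⟩
          · rw [mem_filter]
            refine ⟨mem_univ _, hW.2.1, ?_, ?_⟩
            · intro j y hy
              by_cases hj : j = x.1
              · subst hj
                rw [Function.update_self] at hy
                rw [hx2, hy]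
              · rw [Function.update_of_ne hj] at hy
                exact hW.2.2.1 j y hy
            · rw [BranchAux.size_update hx1, hW.2.2.2]
              omega
        have h1 : (univ.filter (fun W : PC r N => IsMin F W ∧ Sub D W ∧
              size W = size D + (a + 1))).card ≤
            (H.filter (fun x => D x.1 = none)).card * (2 * w * K) ^ a := by
          refine (Finset.card_le_card hsub).trans ?_
          refine Finset.card_biUnion_le_card_mul _ _ _ ?_
          intro x _
          exact ih _
        have h2 : (H.filter (fun x => D x.1 = none)).card ≤ 2 * w * K :=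
          (Finset.card_filter_le _ _).trans hH
        calc _ ≤ (H.filter (fun x => D x.1 = none)).card * (2 * w * K) ^ a := h1
          _ ≤ (2 * w * K) * (2 * w * K) ^ a := Nat.mul_le_mul_right _ h2
          _ = (2 * w * K) ^ (a + 1) := by rw [pow_succ]; ring
    · have h0 : univ.filter (fun W : PC r N => IsMin F W ∧ Sub D W ∧
          size W = size D + (a + 1)) = ∅ := by
        rw [Finset.filter_eq_empty_iff]
        intro W _ hW
        have h1 := hF.1 W hW.1.1
        have h2 := hW.2.2
        omega
      rw [h0]
      simp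

/-- The number of all minimal members. -/
theorem min_card {w θ K : ℕ} {F : Finset (PC r N)} (hF : ClosedW w θ F)
    (hK : (2 ^ w - 1) ^ K * 2 ^ (r * N) ≤ θ * (2 ^ w) ^ K) (hwK : 1 ≤ 2 * w * K) :
    (univ.filter (fun W : PC r N => IsMin F W)).card ≤ (w + 1) * (2 * w * K) ^ w := by
  have hsub : univ.filter (fun W : PC r N => IsMin F W) ⊆
      (Finset.range (w + 1)).biUnion (fun a => univ.filter (fun W : PC r N =>
        IsMin F W ∧ Sub (fun _ => none) W ∧ size W = size (fun _ => none : PC r N) + a)) := by
    intro W hW
    rw [mem_filter] at hW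
    rw [mem_biUnion]
    have h0 : size (fun _ => none : PC r N) = 0 := by simp [size]
    refine ⟨size W, ?_, ?_⟩
    · rw [Finset.mem_range]
      have := hF.1 W hW.2.1
      omega
    · rw [mem_filter]
      refine ⟨mem_univ _, hW.2, ?_, ?_⟩
      · intro j x hx
        exact absurd hx (by simp)
      · rw [h0, Nat.zero_add]
  refine (Finset.card_le_card hsub).trans ?_
  have h1 := Finset.card_biUnion_le_card_mul (Finset.range (w + 1)) (fun a =>
    univ.filter (fun W : PC r N => IsMin F W ∧ Sub (fun _ => none) W ∧
      size W = size (fun _ => none : PC r N) + a)) ((2 * w * K) ^ w) (by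
    intro a ha
    refine (ext_card hF hK _ a).trans ?_
    exact Nat.pow_le_pow_right hwK (by have := Finset.mem_range.1 ha; omega))
  rw [Finset.card_range] at h1
  exact h1

end MTB
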