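import Pool.Agent.Lib.MTS.Basic

/-!
# MTB.Clos (MP_e46137_lc): closed families of partial colourings with at most `w` coloured vertices
-/

namespace MTB

open Classical Finset MTS

variable {r N : ℕ}

/-- number of coloured vertices -/
noncomputable def size (U : PC r N) : ℕ := (univ.filter (fun j => U j ≠ none)).card

/-- Closed families of partial colourings of size at most `w`: if at most `θ` colourings extend `U`
(of size at most `w`) and no member of `F`, then `U ∈ F`. -/
def ClosedW (w θ : ℕ) (F : Finset (PC r N)) : Prop :=
  (∀ U ∈ F, size U ≤ w) ∧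
  ∀ U, size U ≤ w →
    (univ.filter (fun χ : Col r N => Agree U χ ∧ ¬ Hits F χ)).card ≤ θ → U ∈ F

namespace ClosAux

theorem size_update (U : PC r N) (j : Fin r) (hj : U j ≠ none) :
    size (Function.update U j none) + 1 = size U := by
  unfold size
  have h1 : (univ.filter (fun i => Function.update U j none i ≠ none)) =
      (univ.filter (fun i => U i ≠ none)).erase j := by
    ext i
    rw [mem_erase, mem_filter, mem_filter]
    by_cases hi : i = j
    · subst hi
      simp
    · rw [Function.update_of_ne hi]
      simp [hi]
  have h2 : j ∈ univ.filter (fun i => U i ≠ none) := mem_filter.2 ⟨mem_univ _, hj⟩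
  rw [h1, card_erase_of_mem h2]
  have := card_pos.2 ⟨j, h2⟩
  omega

/-- colour one vertex or do nothing -/
noncomputable def put (o : Option (Fin r × (Fin N × Bool))) (U : PC r N) : PC r N :=
  match o with
  | none => U
  | some p => Function.update U p.1 (some p.2)

end ClosAux

open ClosAux

/-- There are at most `(2 r N + 1) ^ w` partial colourings of size at most `w`. -/
theorem card_small (w : ℕ) :
    (univ.filter (fun U : PC r N => size U ≤ w)).card ≤ (2 * (r * N) + 1) ^ w := by
  induction w with
  | zero =>
    rw [pow_zero, card_le_one]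
    intro U hU V hV
    have key : ∀ W : PC r N, W ∈ univ.filter (fun U : PC r N => size U ≤ 0) → ∀ j, W j = none := by
      intro W hW j
      by_contra hj
      have h1 := (mem_filter.1 hW).2
      have h2 := size_update W j hj
      omega
    funext j
    rw [key U hU j, key V hV j]
  | succ w ih =>
    have h1 : (univ.filter (fun U : PC r N => size U ≤ w + 1)) ⊆
        ((univ : Finset (Option (Fin r × (Fin N × Bool)))) ×ˢ
          (univ.filter (fun U : PC r N => size U ≤ w))).image (fun q => put q.1 q.2) := by
      intro U hU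
      have hU' := (mem_filter.1 hU).2
      rw [mem_image]
      by_cases h0 : size U ≤ w
      · exact ⟨(none, U), mem_product.2 ⟨mem_univ _, mem_filter.2 ⟨mem_univ _, h0⟩⟩, rfl⟩
      · have h2 : ∃ j, U j ≠ none := by
          by_contra hno
          push Not at hno
          apply h0
          have h3 : (univ.filter (fun j => U j ≠ none)) = ∅ := by
            rw [filter_eq_empty_iff]
            intro j _
            simp [hno j]
          have h4 : size U = 0 := by
            unfold size
            rw [h3, card_empty]
          omega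
        obtain ⟨j, hj⟩ := h2
        obtain ⟨x, hx⟩ := Option.ne_none_iff_exists'.1 hj
        refine ⟨(some (j, x), Function.update U j none), mem_product.2 ⟨mem_univ _,
          mem_filter.2 ⟨mem_univ _, ?_⟩⟩, ?_⟩
        · have := size_update U j hj
          show size (Function.update U j none) ≤ w
          omega
        · show Function.update (Function.update U j none) j (some x) = U
          rw [Function.update_idem, ← hx, Function.update_eq_self]
    have h2 := (card_le_card h1).trans card_image_le
    rw [card_product] at h2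
    have h3 : (univ : Finset (Option (Fin r × (Fin N × Bool)))).card = 2 * (r * N) + 1 := by
      rw [card_univ, Fintype.card_option, Fintype.card_prod, Fintype.card_prod, Fintype.card_fin,
        Fintype.card_fin, Fintype.card_bool]
      ring
    rw [h3] at h2
    rw [pow_succ, mul_comm]
    exact h2.trans (Nat.mul_le_mul_left _ ih)

/-- Hint: among all families `F'` of partial colourings of size `≤ w` which contain `F` and satisfy
`#{χ | Hits F' χ ∧ ¬ Hits F χ} + F.card * θ ≤ F'.card * θ` take one with the largest number of
members; a partial colouring which violates closedness could be added. -/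
theorem exists_closedW (w θ : ℕ) (F : Finset (PC r N)) (hF : ∀ U ∈ F, size U ≤ w) :
    ∃ F', F ⊆ F' ∧ ClosedW w θ F' ∧
    (univ.filter (fun χ : Col r N => Hits F' χ ∧ ¬ Hits F χ)).card ≤
      (2 * (r * N) + 1) ^ w * θ := by
  have hF0 : F ∈ (univ : Finset (Finset (PC r N))).filter (fun F' => F ⊆ F' ∧
      (∀ U ∈ F', size U ≤ w) ∧
      (univ.filter (fun χ : Col r N => Hits F' χ ∧ ¬ Hits F χ)).card + F.card * θ
        ≤ F'.card * θ) := by
    rw [mem_filter]
    refine ⟨mem_univ _, Subset.refl _, hF, ?_⟩
    have h0 : (univ.filter (fun χ : Col r N => Hits F χ ∧ ¬ Hits F χ)) = ∅ := by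
      rw [filter_eq_empty_iff]
      intro χ _ h
      exact h.2 h.1
    rw [h0, card_empty, zero_add]
  obtain ⟨F', hF', hmax⟩ := exists_max_image _ (fun F' : Finset (PC r N) => F'.card) ⟨F, hF0⟩
  rw [mem_filter] at hF'
  obtain ⟨-, hsub, hsz, hcard⟩ := hF'
  refine ⟨F', hsub, ⟨hsz, ?_⟩, ?_⟩
  · intro U hUw hU
    by_contra hUF
    have hins : insert U F' ∈ (univ : Finset (Finset (PC r N))).filter (fun F' => F ⊆ F' ∧
        (∀ U ∈ F', size U ≤ w) ∧
        (univ.filter (fun χ : Col r N => Hits F' χ ∧ ¬ Hits F χ)).card + F.card * θ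
          ≤ F'.card * θ) := by
      rw [mem_filter]
      refine ⟨mem_univ _, hsub.trans (subset_insert _ _), ?_, ?_⟩
      · intro W hW
        rcases mem_insert.1 hW with rfl | hW
        · exact hUw
        · exact hsz W hW
      have h1 : (univ.filter (fun χ : Col r N => Hits (insert U F') χ ∧ ¬ Hits F χ)) ⊆
          (univ.filter (fun χ : Col r N => Hits F' χ ∧ ¬ Hits F χ)) ∪
          (univ.filter (fun χ : Col r N => Agree U χ ∧ ¬ Hits F' χ)) := by
        intro χ hχ
        rw [mem_filter] at hχ
        rw [mem_union, mem_filter, mem_filter]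
        by_cases hh : Hits F' χ
        · exact Or.inl ⟨mem_univ _, hh, hχ.2.2⟩
        · refine Or.inr ⟨mem_univ _, ?_, hh⟩
          obtain ⟨W, hW, hWχ⟩ := hχ.2.1
          rcases mem_insert.1 hW with rfl | hW
          · exact hWχ
          · exact absurd ⟨W, hW, hWχ⟩ hh
      have h2 := (card_le_card h1).trans (card_union_le _ _)
      rw [card_insert_of_notMem hUF, add_mul, one_mul]
      omega
    have h3 := hmax _ hins
    rw [card_insert_of_notMem hUF] at h3
    omega
  · have h4 : F'.card ≤ (2 * (r * N) + 1) ^ w := by
      refine le_trans (card_le_card ?_) (card_small (r := r) (N := N) w)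
      intro U hU
      exact mem_filter.2 ⟨mem_univ _, hsz U hU⟩
    calc _ ≤ F'.card * θ := (Nat.le_add_right _ _).trans hcard
      _ ≤ _ := Nat.mul_le_mul_right _ h4

theorem ClosedW.up {w θ : ℕ} {F : Finset (PC r N)} (hF : ClosedW w θ F) {U W : PC r N}
    (hU : U ∈ F) (h : Sub U W) (hW : size W ≤ w) : W ∈ F := by
  refine hF.2 W hW ?_
  have h0 : (univ.filter (fun χ : Col r N => Agree W χ ∧ ¬ Hits F χ)) = ∅ := by
    rw [filter_eq_empty_iff]
    rintro χ - ⟨h1, h2⟩
    exact h2 ⟨U, hU, fun j x hx => h1 j x (h j x hx)⟩
  rw [h0, card_empty]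
  exact Nat.zero_le _

theorem exists_min {F : Finset (PC r N)} {U : PC r N} (hU : U ∈ F) :
    ∃ W, IsMin F W ∧ Sub W U := by
  obtain ⟨W, hW, hmin⟩ := exists_min_image (F.filter fun W => Sub W U)
    (fun W => (univ.filter (fun j => (W j).isSome)).card)
    ⟨U, mem_filter.2 ⟨hU, fun _ _ h => h⟩⟩
  rw [mem_filter] at hW
  refine ⟨W, ⟨hW.1, fun V hV hVW => ?_⟩, hW.2⟩
  have h1 := hmin V (mem_filter.2 ⟨hV, fun j x hx => hW.2 j x (hVW j x hx)⟩)
  have hsub : (univ.filter (fun j => (V j).isSome)) ⊆
      (univ.filter (fun j => (W j).isSome)) := by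
    intro j hj
    rw [mem_filter] at hj ⊢
    obtain ⟨x, hx⟩ := Option.isSome_iff_exists.1 hj.2
    exact ⟨mem_univ _, Option.isSome_iff_exists.2 ⟨x, hVW j x hx⟩⟩
  have heq := eq_of_subset_of_card_le hsub h1
  funext j
  rcases hj : V j with _ | x
  · by_contra hne
    have hW1 : (W j).isSome := Option.isSome_iff_ne_none.2 fun h => hne h.symm
    have hmem : j ∈ (univ.filter (fun j => (V j).isSome)) := by
      rw [heq, mem_filter]
      exact ⟨mem_univ _, hW1⟩
    rw [mem_filter, hj] at hmem
    exact absurd hmem.2 (by simp)
  · exact (hVW j x hj).symm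

theorem agree_card {w : ℕ} (U : PC r N) (hU : size U ≤ w) :
    2 ^ (r * N - w) ≤ (univ.filter (fun χ : Col r N => Agree U χ)).card := by
  have h1 : (univ.filter (fun χ : Col r N => Agree U χ)) =
      Fintype.piFinset (fun j => univ.filter (fun row : Fin N → Bool =>
        ∀ x, U j = some x → row x.1 = x.2)) := by
    ext χ
    rw [mem_filter, Fintype.mem_piFinset]
    constructor
    · intro h j
      rw [mem_filter]
      exact ⟨mem_univ _, h.2 j⟩
    · intro h
      refine ⟨mem_univ _, fun j => ?_⟩
      exact (mem_filter.1 (h j)).2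
  have h2 : ∀ j, 2 ^ (N - (if U j ≠ none then 1 else 0)) ≤ (univ.filter (fun row : Fin N → Bool =>
      ∀ x, U j = some x → row x.1 = x.2)).card := by
    intro j
    rcases hj : U j with _ | x
    · have h3 : (univ.filter (fun row : Fin N → Bool =>
          ∀ x, (none : Option (Fin N × Bool)) = some x → row x.1 = x.2)) = univ := by
        rw [filter_true_of_mem]
        intro row _ x hx
        exact absurd hx (by simp)
      rw [h3, card_univ]
      simp only [Fintype.card_pi, Fintype.card_bool, prod_const, card_univ, Fintype.card_fin]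
      exact Nat.pow_le_pow_right (by norm_num) (Nat.sub_le _ _)
    · have h3 : (univ.filter (fun row : Fin N → Bool =>
          ∀ y, (some x : Option (Fin N × Bool)) = some y → row y.1 = y.2)) =
          Fintype.piFinset (fun i => if i = x.1 then {x.2} else univ) := by
        ext row
        rw [mem_filter, Fintype.mem_piFinset]
        constructor
        · rintro ⟨-, h⟩ i
          by_cases hi : i = x.1
          · rw [if_pos hi, mem_singleton, hi]
            exact h x rfl
          · rw [if_neg hi]
            exact mem_univ _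
        · intro h
          refine ⟨mem_univ _, fun y hy => ?_⟩
          have h4 := h x.1
          rw [if_pos rfl, mem_singleton] at h4
          have h5 : x = y := by simpa using hy
          rw [← h5]
          exact h4
      rw [h3, Fintype.card_piFinset]
      have h6 : ∀ i : Fin N, (if i = x.1 then ({x.2} : Finset Bool) else univ).card =
          if i = x.1 then 1 else 2 := by
        intro i
        split_ifs <;> simp
      rw [prod_congr rfl fun i _ => h6 i, prod_ite, prod_const_one, one_mul, prod_const]
      have h7 : (univ.filter (fun i : Fin N => ¬ i = x.1)) = univ.erase x.1 := by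
        ext i
        simp
      rw [h7, card_erase_of_mem (mem_univ _), card_univ, Fintype.card_fin]
      simp
  have h8 : r * N - w ≤ ∑ j : Fin r, (N - (if U j ≠ none then 1 else 0)) := by
    have h9 : ∑ j : Fin r, (if U j ≠ none then 1 else 0) = size U := by
      unfold size
      rw [card_filter]
    have h10 : ∑ _j : Fin r, N = r * N := by
      rw [sum_const, card_univ, Fintype.card_fin, smul_eq_mul]
    have h11 : ∑ _j : Fin r, N ≤ ∑ j : Fin r, (N - (if U j ≠ none then 1 else 0)) +
        ∑ j : Fin r, (if U j ≠ none then 1 else 0) := by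
      rw [← sum_add_distrib]
      exact sum_le_sum fun j _ => by omega
    rw [h9, h10] at h11
    omega
  rw [h1, Fintype.card_piFinset]
  calc 2 ^ (r * N - w) ≤ 2 ^ ∑ j : Fin r, (N - (if U j ≠ none then 1 else 0)) :=
        Nat.pow_le_pow_right (by norm_num) h8
    _ = ∏ j : Fin r, 2 ^ (N - (if U j ≠ none then 1 else 0)) := by
        rw [prod_pow_eq_pow_sum]
    _ ≤ _ := prod_le_prod' fun j _ => h2 j

theorem closedW_empty {w θ : ℕ} (h : θ < 2 ^ (r * N - w)) :
    ClosedW w θ (∅ : Finset (PC r N)) := by
  refine ⟨fun U hU => absurd hU (notMem_empty _), fun U hUw hU => ?_⟩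
  exfalso
  have h1 : (univ.filter (fun χ : Col r N => Agree U χ ∧ ¬ Hits (∅ : Finset (PC r N)) χ)) =
      univ.filter (fun χ : Col r N => Agree U χ) := by
    refine filter_congr fun χ _ => ?_
    constructor
    · exact fun h => h.1
    · intro h
      refine ⟨h, ?_⟩
      rintro ⟨W, hW, -⟩
      exact absurd hW (notMem_empty _)
  rw [h1] at hU
  have h2 := agree_card U hUw
  omega

/-- The common upper bound of two partial colourings contained in `V`. -/
theorem exists_union {U W V : PC r N} (h1 : Sub U V) (h2 : Sub W V) :
    ∃ X : PC r N, Sub U X ∧ Sub W X ∧ Sub X V ∧ size X ≤ size U + size W ∧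
      ∀ Y : PC r N, Sub U Y → Sub W Y → Sub X Y := by
  have hX : ∀ j, (U j ≠ none ∧ (if U j ≠ none then U j else W j) = U j) ∨
      (U j = none ∧ (if U j ≠ none then U j else W j) = W j) := by
    intro j
    by_cases h : U j = none
    · exact Or.inr ⟨h, if_neg (by simp [h])⟩
    · exact Or.inl ⟨h, if_pos h⟩
  refine ⟨fun j => if U j ≠ none then U j else W j, ?_, ?_, ?_, ?_, ?_⟩
  · intro j x hx
    show (if U j ≠ none then U j else W j) = some x
    rcases hX j with ⟨_, h4⟩ | ⟨h3, _⟩
    · rw [h4, hx]
    · rw [h3] at hx
      exact absurd hx (by simp)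
  · intro j x hx
    show (if U j ≠ none then U j else W j) = some x
    rcases hX j with ⟨h3, h4⟩ | ⟨_, h4⟩
    · obtain ⟨y, hy⟩ := Option.ne_none_iff_exists'.1 h3
      rw [h4, hy, ← h1 j y hy, h2 j x hx]
    · rw [h4, hx]
  · intro j x hx
    have hx' : (if U j ≠ none then U j else W j) = some x := hx
    rcases hX j with ⟨_, h4⟩ | ⟨_, h4⟩
    · rw [h4] at hx'
      exact h1 j x hx'
    · rw [h4] at hx'
      exact h2 j x hx'
  · unfold size
    refine (card_le_card ?_).trans (card_union_le _ _)
    intro j hj
    have hj' : (if U j ≠ none then U j else W j) ≠ none := (mem_filter.1 hj).2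
    rw [mem_union, mem_filter, mem_filter]
    rcases hX j with ⟨h3, _⟩ | ⟨_, h4⟩
    · exact Or.inl ⟨mem_univ _, h3⟩
    · rw [h4] at hj'
      exact Or.inr ⟨mem_univ _, hj'⟩
  · intro Y hU hW j x hx
    have hx' : (if U j ≠ none then U j else W j) = some x := hx
    rcases hX j with ⟨_, h4⟩ | ⟨_, h4⟩
    · rw [h4] at hx'
      exact hU j x hx'
    · rw [h4] at hx'
      exact hW j x hx'

end MTB
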