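import Pool.Agent.Lib.MTB.Clos

/-!
# MTB.Cond (MP_e46137_lc): union bound over the minimal members, relative to a set of fixed vertices
-/

namespace MTB

open Classical Finset MTS

variable {r N : ℕ}

/-- no position with two different values -/
def Compat (X W : PC r N) : Prop := ∀ j x y, X j = some x → W j = some y → x = y

/-- number of positions of `W` outside `X` -/
noncomputable def newsize (X W : PC r N) : ℕ :=
  (univ.filter (fun j => X j = none ∧ W j ≠ none)).card

namespace CondAux

/-- the restriction of `X` to the positions in `S` -/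
noncomputable def restr (X : PC r N) (S : Finset (Fin r)) : PC r N :=
  fun j => if j ∈ S then X j else none

/-- positions of `X` coloured by `W` -/
noncomputable def comm (X W : PC r N) : Finset (Fin r) :=
  univ.filter (fun j => X j ≠ none ∧ W j ≠ none)

theorem comm_sub (X W : PC r N) : comm X W ⊆ univ.filter (fun j => X j ≠ none) := by
  intro j hj
  exact mem_filter.2 ⟨mem_univ _, (mem_filter.1 hj).2.1⟩

theorem restr_sub (X W : PC r N) (h : Compat X W) : Sub (restr X (comm X W)) W := by
  intro j x hx
  unfold restr at hx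
  split_ifs at hx with hj
  have h1 := (mem_filter.1 hj).2
  obtain ⟨y, hy⟩ := Option.ne_none_iff_exists'.1 h1.2
  rw [hy, h j x y hx hy]

theorem size_eq (X W : PC r N) : size W = size (restr X (comm X W)) + newsize X W := by
  unfold size newsize
  rw [← card_union_of_disjoint]
  · congr 1
    ext j
    simp only [mem_filter, mem_univ, true_and, mem_union, restr, comm]
    by_cases h1 : X j = none
    · simp [h1]
    · by_cases h2 : W j = none
      · simp [h2]
      · simp [h1, h2]
  · rw [Finset.disjoint_left]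
    intro j h1 h2
    have h3 := (mem_filter.1 h1).2
    have h4 := (mem_filter.1 h2).2.1
    unfold restr at h3
    split_ifs at h3
    · exact h3 h4
    · exact h3 rfl

end CondAux

open CondAux

/-- If at most `K Q ^ a` members of `M` extend `D` by `a` vertices, for all `D`, then at most
`2 ^ |X| K Q ^ a` members of `M` are compatible with `X` and have `a` new vertices (`D` = the part
of `W` on the positions of `X` is one of the `2 ^ |X|` restrictions of `X`). -/
theorem card_new {K Q : ℕ} (M : Finset (PC r N))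
    (hM : ∀ (D : PC r N) (a : ℕ),
      (M.filter (fun W => Sub D W ∧ size W = size D + a)).card ≤ K * Q ^ a)
    (X : PC r N) (a : ℕ) :
    (M.filter (fun W => Compat X W ∧ newsize X W = a)).card ≤ 2 ^ size X * (K * Q ^ a) := by
  have h1 : (M.filter (fun W => Compat X W ∧ newsize X W = a)) ⊆
      ((univ.filter (fun j => X j ≠ none)).powerset).biUnion (fun S =>
        M.filter (fun W => Sub (restr X S) W ∧ size W = size (restr X S) + a)) := by
    intro W hW
    obtain ⟨hWM, hc, hn⟩ := mem_filter.1 hW
    rw [mem_biUnion]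
    refine ⟨comm X W, mem_powerset.2 (comm_sub X W), mem_filter.2 ⟨hWM, restr_sub X W hc, ?_⟩⟩
    rw [← hn]
    exact size_eq X W
  calc (M.filter (fun W => Compat X W ∧ newsize X W = a)).card
      ≤ _ := card_le_card h1
    _ ≤ ((univ.filter (fun j => X j ≠ none)).powerset).card * (K * Q ^ a) :=
        card_biUnion_le_card_mul _ _ _ (fun S _ => hM _ _)
    _ = 2 ^ size X * (K * Q ^ a) := by rw [card_powerset]; rfl

/-- the paths with given vertices on the positions `J` -/
theorem card_fix (J : Finset (Fin r)) (X : Pth r N) :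
    (univ.filter (fun P : Pth r N => ∀ j ∈ J, P j = X j)).card * N ^ J.card = N ^ r := by
  have h1 : (univ.filter (fun P : Pth r N => ∀ j ∈ J, P j = X j)) =
      Fintype.piFinset (fun j => if j ∈ J then ({X j} : Finset (Fin N)) else univ) := by
    ext P
    simp only [mem_filter, mem_univ, true_and, Fintype.mem_piFinset]
    constructor
    · intro h j
      split_ifs with hj
      · exact mem_singleton.2 (h j hj)
      · exact mem_univ _
    · intro h j hj
      have := h j
      rw [if_pos hj] at this
      exact mem_singleton.1 this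
  rw [h1, Fintype.card_piFinset]
  have h2 : (∏ j : Fin r, (if j ∈ J then ({X j} : Finset (Fin N)) else univ).card) =
      N ^ (univ.filter (fun j => j ∉ J)).card := by
    rw [← prod_const, prod_filter]
    apply prod_congr rfl
    intro j _
    by_cases hj : j ∈ J
    · simp [hj]
    · simp [hj]
  rw [h2, ← pow_add]
  congr 1
  have h3 := card_filter_add_card_filter_not (s := (univ : Finset (Fin r))) (fun j => j ∈ J)
  rw [card_univ, Fintype.card_fin] at h3
  have h4 : (univ.filter (fun j => j ∈ J)) = J := by
    ext j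
    simp
  rw [h4] at h3
  omega

/-- The union bound: every path in `E` lies in `EW W` for some compatible `W ∈ M` with new
vertices, and `EW W` has at most `c a` paths if `W` has `a` new vertices. -/
theorem sum_bound {K Q : ℕ} (M : Finset (PC r N))
    (hM : ∀ (D : PC r N) (a : ℕ),
      (M.filter (fun W => Sub D W ∧ size W = size D + a)).card ≤ K * Q ^ a)
    (X : PC r N) (E : Finset (Pth r N)) (EW : PC r N → Finset (Pth r N)) (c : ℕ → ℝ)
    (hc : ∀ a, 0 ≤ c a)
    (hE : ∀ P ∈ E, ∃ W ∈ M, Compat X W ∧ newsize X W ≠ 0 ∧ P ∈ EW W)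
    (hEW : ∀ W ∈ M, Compat X W → newsize X W ≠ 0 → ((EW W).card : ℝ) ≤ c (newsize X W)) :
    (E.card : ℝ) ≤ 2 ^ size X * K * ∑ a ∈ Icc 1 r, (Q : ℝ) ^ a * c a := by
  set T := M.filter (fun W => Compat X W ∧ newsize X W ≠ 0) with hT
  have h1 : E ⊆ T.biUnion EW := by
    intro P hP
    obtain ⟨W, hW, h2, h3, h4⟩ := hE P hP
    exact mem_biUnion.2 ⟨W, mem_filter.2 ⟨hW, h2, h3⟩, h4⟩
  have h2 : (E.card : ℝ) ≤ ∑ W ∈ T, ((EW W).card : ℝ) := by
    have := (card_le_card h1).trans card_biUnion_le
    exact_mod_cast this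
  have h3 : ∑ W ∈ T, ((EW W).card : ℝ) ≤ ∑ W ∈ T, c (newsize X W) := by
    apply sum_le_sum
    intro W hW
    obtain ⟨hW1, hW2, hW3⟩ := mem_filter.1 hW
    exact hEW W hW1 hW2 hW3
  have h4 : ∀ W ∈ T, newsize X W ∈ Icc 1 r := by
    intro W hW
    obtain ⟨hW1, hW2, hW3⟩ := mem_filter.1 hW
    rw [mem_Icc]
    refine ⟨Nat.one_le_iff_ne_zero.2 hW3, ?_⟩
    unfold newsize
    refine (card_le_univ _).trans ?_
    rw [Fintype.card_fin]
  have h5 : ∑ W ∈ T, c (newsize X W) =
      ∑ a ∈ Icc 1 r, ∑ W ∈ T.filter (fun W => newsize X W = a), c (newsize X W) :=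
    (sum_fiberwise_of_maps_to h4 _).symm
  have h6 : ∀ a ∈ Icc 1 r, ∑ W ∈ T.filter (fun W => newsize X W = a), c (newsize X W) ≤
      2 ^ size X * K * ((Q : ℝ) ^ a * c a) := by
    intro a _
    have h7 : ∑ W ∈ T.filter (fun W => newsize X W = a), c (newsize X W) =
        ((T.filter (fun W => newsize X W = a)).card : ℝ) * c a := by
      rw [← nsmul_eq_mul, ← sum_const]
      apply sum_congr rfl
      intro W hW
      rw [(mem_filter.1 hW).2]
    have h8 : (T.filter (fun W => newsize X W = a)).card ≤ 2 ^ size X * (K * Q ^ a) := by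
      refine le_trans (card_le_card ?_) (card_new M hM X a)
      intro W hW
      obtain ⟨hW1, hW2⟩ := mem_filter.1 hW
      obtain ⟨hW3, hW4, hW5⟩ := mem_filter.1 hW1
      exact mem_filter.2 ⟨hW3, hW4, hW2⟩
    have h9 : ((T.filter (fun W => newsize X W = a)).card : ℝ) ≤
        2 ^ size X * (K * (Q : ℝ) ^ a) := by
      exact_mod_cast h8
    rw [h7]
    calc _ ≤ 2 ^ size X * (K * (Q : ℝ) ^ a) * c a := mul_le_mul_of_nonneg_right h9 (hc a)
      _ = _ := by ring
  calc (E.card : ℝ) ≤ _ := h2
    _ ≤ _ := h3
    _ = _ := h5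
    _ ≤ ∑ a ∈ Icc 1 r, 2 ^ size X * K * ((Q : ℝ) ^ a * c a) := sum_le_sum h6
    _ = _ := by rw [mul_sum]

end MTB
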