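import Pool.Agent.Lib.MTB.Model

/-!
# MTB.Conv (MP_e46137_lc): renaming of registers; programs as machines
-/

namespace MTB

open Classical

theorem apply_map_conv {A ρ ρ' : Type} [DecidableEq ρ] [DecidableEq ρ'] (f : ρ → ρ') (U : Set ρ)
    (hf : Set.InjOn f U) (g : A → Bool) (I : Instr A ρ) (hI : I.Uses U)
    (σ : ρ' → Bool) (i : ρ) (hi : i ∈ U) :
    (I.map f).apply g σ (f i) = I.apply g (fun j => σ (f j)) i := by
  have key : ∀ k ∈ U, ∀ b : Bool,
      Function.update σ (f k) b (f i) = Function.update (fun j => σ (f j)) k b i := by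
    intro k hk b
    by_cases h : i = k
    · subst h
      simp
    · have h2 : f i ≠ f k := fun h3 => h (hf hi hk h3)
      rw [Function.update_of_ne h2, Function.update_of_ne h]
  cases I with
  | const k b => exact key k hI b
  | input k a => exact key k hI (g a)
  | and k j l => exact key k hI.1 _
  | or k j l => exact key k hI.1 _

theorem apply_congr_conv {A ρ : Type} [DecidableEq ρ] (U : Set ρ) (g : A → Bool) (I : Instr A ρ)
    (hI : I.Uses U) (σ τ : ρ → Bool) (h : ∀ i ∈ U, σ i = τ i) (i : ρ) (hi : i ∈ U) :
    I.apply g σ i = I.apply g τ i := by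
  have key : ∀ (k : ρ) (b : Bool), Function.update σ k b i = Function.update τ k b i := by
    intro k b
    by_cases h2 : i = k
    · subst h2
      simp
    · rw [Function.update_of_ne h2, Function.update_of_ne h2, h i hi]
  cases I with
  | const k b => exact key k b
  | input k a => exact key k (g a)
  | and k j l =>
    change Function.update σ k (σ j && σ l) i = Function.update τ k (τ j && τ l) i
    rw [h j hI.2.1, h l hI.2.2]
    exact key k _
  | or k j l =>
    change Function.update σ k (σ j || σ l) i = Function.update τ k (τ j || τ l) i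
    rw [h j hI.2.1, h l hI.2.2]
    exact key k _

theorem exec_congr_conv {A ρ : Type} [DecidableEq ρ] (U : Set ρ) (g : A → Bool) :
    ∀ (p : List (Instr A ρ)), (∀ I ∈ p, I.Uses U) → ∀ (σ τ : ρ → Bool), (∀ i ∈ U, σ i = τ i) →
      ∀ i ∈ U, exec g p σ i = exec g p τ i := by
  intro p
  induction p with
  | nil =>
    intro _ σ τ h i hi
    exact h i hi
  | cons I p ih =>
    intro hp σ τ h i hi
    change exec g p (I.apply g σ) i = exec g p (I.apply g τ) i
    exact ih (fun J hJ => hp J (List.mem_cons_of_mem _ hJ)) _ _
      (fun j hj => apply_congr_conv U g I (hp I List.mem_cons_self) σ τ h j hj) i hi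

theorem exec_map {A ρ ρ' : Type} [DecidableEq ρ] [DecidableEq ρ'] (f : ρ → ρ') (U : Set ρ)
    (hf : Set.InjOn f U) (g : A → Bool) (p : List (Instr A ρ)) (hp : ∀ I ∈ p, I.Uses U)
    (σ : ρ' → Bool) (i : ρ) (hi : i ∈ U) :
    exec g (p.map (Instr.map f)) σ (f i) = exec g p (fun j => σ (f j)) i := by
  induction p generalizing σ with
  | nil => rfl
  | cons I p ih =>
    change exec g (p.map (Instr.map f)) ((I.map f).apply g σ) (f i) =
      exec g p (I.apply g (fun j => σ (f j))) i
    have hp2 : ∀ J ∈ p, J.Uses U := fun J hJ => hp J (List.mem_cons_of_mem _ hJ)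
    rw [ih hp2]
    exact exec_congr_conv U g p hp2 _ _
      (fun j hj => apply_map_conv f U hf g I (hp I List.mem_cons_self) σ j hj) i hi

/-- the vertex read by an instruction -/
def convV {n S : ℕ} (v0 : Fin n) : Instr (Fin n × Fin n) (Fin S) → Fin n
  | .const _ _ => v0
  | .input _ a => a.1
  | .and _ _ _ => v0
  | .or _ _ _ => v0

theorem update_le_conv {S : ℕ} (σ σ' : Fin S → Bool) (h : σ ≤ σ') (i : Fin S) (b b' : Bool)
    (hb : b ≤ b') : Function.update σ i b ≤ Function.update σ' i b' := by
  intro j
  by_cases hj : j = i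
  · subst hj
    simpa using hb
  · rw [Function.update_of_ne hj, Function.update_of_ne hj]
    exact h j

theorem and_le_conv : ∀ a b a' b' : Bool, a ≤ a' → b ≤ b' → (a && b) ≤ (a' && b') := by decide

theorem or_le_conv : ∀ a b a' b' : Bool, a ≤ a' → b ≤ b' → (a || b) ≤ (a' || b') := by decide

/-- A straight line program is a simple monotone machine. -/
theorem exists_mach {n S : ℕ} (hn : 0 < n) (p : List (Instr (Fin n × Fin n) (Fin S)))
    (hS : 0 < S) : ∃ M : Mach n S, M.Simple ∧ ∀ G, M.run G p.length =
      exec (fun e : Fin n × Fin n => G e.1 e.2) p (fun _ => false) := by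
  let d : Instr (Fin n × Fin n) (Fin S) := .const ⟨0, hS⟩ false
  let M : Mach n S :=
    { init := fun _ => false
      v := fun t => convV ⟨0, hn⟩ (p.getD t d)
      next := fun t σ G => (p.getD t d).apply (fun e : Fin n × Fin n => G e.1 e.2) σ
      mono := by
        intro t σ σ' G G' h hG
        generalize p.getD t d = I at hG ⊢
        cases I with
        | const k b => exact update_le_conv σ σ' h k b b le_rfl
        | input k a => exact update_le_conv σ σ' h k _ _ (hG a.2).1
        | and k j l =>
          exact update_le_conv σ σ' h k _ _ (and_le_conv _ _ _ _ (h j) (h l))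
        | or k j l =>
          exact update_le_conv σ σ' h k _ _ (or_le_conv _ _ _ _ (h j) (h l)) }
  refine ⟨M, ?_, ?_⟩
  · intro t
    change ∃ i : Fin S,
      (∃ b, ∀ σ (G : Fin n → Fin n → Bool),
        (p.getD t d).apply (fun e : Fin n × Fin n => G e.1 e.2) σ = Function.update σ i b) ∨
      (∃ u, ∀ σ (G : Fin n → Fin n → Bool),
        (p.getD t d).apply (fun e : Fin n × Fin n => G e.1 e.2) σ =
          Function.update σ i (G (convV ⟨0, hn⟩ (p.getD t d)) u)) ∨
      (∃ j l, ∀ σ (G : Fin n → Fin n → Bool),
        (p.getD t d).apply (fun e : Fin n × Fin n => G e.1 e.2) σ =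
          Function.update σ i (σ j && σ l)) ∨
      (∃ j l, ∀ σ (G : Fin n → Fin n → Bool),
        (p.getD t d).apply (fun e : Fin n × Fin n => G e.1 e.2) σ =
          Function.update σ i (σ j || σ l))
    generalize p.getD t d = I
    cases I with
    | const k b => exact ⟨k, Or.inl ⟨b, fun _ _ => rfl⟩⟩
    | input k a => exact ⟨k, Or.inr (Or.inl ⟨a.2, fun _ _ => rfl⟩)⟩
    | and k j l => exact ⟨k, Or.inr (Or.inr (Or.inl ⟨j, l, fun _ _ => rfl⟩))⟩
    | or k j l => exact ⟨k, Or.inr (Or.inr (Or.inr ⟨j, l, fun _ _ => rfl⟩))⟩
  · intro G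
    have key : ∀ t ≤ p.length, M.run G t =
        exec (fun e : Fin n × Fin n => G e.1 e.2) (p.take t) (fun _ => false) := by
      intro t
      induction t with
      | zero => intro _; rfl
      | succ t ih =>
        intro ht
        have h1 : p.take (t + 1) = p.take t ++ [p.getD t d] := by
          rw [List.take_add_one, List.getElem?_eq_getElem (by omega), Option.toList_some,
            List.getD_eq_getElem _ _ (by omega)]
        rw [h1]
        unfold exec
        rw [List.foldl_append]
        change (p.getD t d).apply (fun e : Fin n × Fin n => G e.1 e.2) (M.run G t) = _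
        rw [ih (by omega)]
        rfl
    have h := key p.length le_rfl
    rw [List.take_length] at h
    exact h

end MTB
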