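import Pool.Agent.Lib.MTB.Cond

/-!
# MTB.Count (MP_e46137_lc): the recursion over time windows, with a conditioned set of vertices
-/

namespace MTB

open Classical Finset MTS

variable {r N : ℕ}

/-- the paths through the vertices `X|J` for which none of the arcs `x, …, y` is passed at time
`t₁` and all of them are passed at time `t₂` -/
noncomputable def EJ (good : Finset (Pth r N)) (Z : ℕ → Pth r N → Set ℕ) (J : Finset (Fin r))
    (X : Pth r N) (x y t₁ t₂ : ℕ) : Finset (Pth r N) :=
  good.filter (fun P => (∀ j ∈ J, P j = X j) ∧ (∀ q, x ≤ q → q ≤ y → q ∉ Z t₁ P) ∧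
    ∀ q, x ≤ q → q ≤ y → q ∈ Z t₂ P)

/-- cutting an interval at the positions `A` -/
theorem exists_cut (A : Finset (Fin r)) : ∀ (h x y : ℕ), A.card ≤ h → x + 2 ^ h < y + 1 →
    ∃ x' y', x ≤ x' ∧ y' ≤ y ∧ x' + 2 ^ (h - A.card) < y' + 1 ∧
      ∀ j ∈ A, ¬ (x' ≤ (j : ℕ) ∧ (j : ℕ) < y') := by
  induction A using Finset.induction_on with
  | empty =>
    intro h x y _ hxy
    exact ⟨x, y, le_rfl, le_rfl, by simpa using hxy, by simp⟩
  | insert a A ha ih =>
    intro h x y hc hxy
    rw [Finset.card_insert_of_notMem ha] at hc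
    obtain ⟨x', y', h1, h2, h3, h4⟩ := ih h x y (by omega) hxy
    rw [Finset.card_insert_of_notMem ha]
    have hpow : 2 ^ (h - A.card) = 2 * 2 ^ (h - (A.card + 1)) := by
      rw [← pow_succ']
      congr 1
      omega
    by_cases hin : x' ≤ (a : ℕ) ∧ (a : ℕ) < y'
    · by_cases hl : x' + 2 ^ (h - (A.card + 1)) < (a : ℕ) + 1
      · refine ⟨x', a, h1, by omega, hl, ?_⟩
        intro j hj
        rcases Finset.mem_insert.1 hj with rfl | hj
        · omega
        · have := h4 j hj
          omega
      · refine ⟨a + 1, y', by omega, h2, by omega, ?_⟩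
        intro j hj
        rcases Finset.mem_insert.1 hj with rfl | hj
        · omega
        · have := h4 j hj
          omega
    · refine ⟨x', y', h1, h2, ?_, ?_⟩
      · have : 0 < 2 ^ (h - (A.card + 1)) := by positivity
        omega
      · intro j hj
        rcases Finset.mem_insert.1 hj with rfl | hj
        · exact hin
        · exact h4 j hj

/-- the bound of the recursion -/
noncomputable def beta (μ : ℝ) (V : ℕ) (h v : ℕ) : ℝ :=
  if h = 0 then 1 else 2 ^ v * μ ^ h * (v / V)

theorem beta_zero (μ : ℝ) (V v : ℕ) : beta μ V 0 v = 1 := by simp [beta]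

theorem beta_nonneg {μ : ℝ} (hμ : 0 ≤ μ) (V h v : ℕ) : 0 ≤ beta μ V h v := by
  unfold beta
  split_ifs
  · exact zero_le_one
  · positivity

/-- the numerical estimate -/
theorem beta_sum {lam : ℝ} (hl0 : 0 ≤ lam) (hl : lam ≤ 1 / 2) {V : ℕ} (hV : 1 ≤ V) {h v : ℕ}
    (hh : 1 ≤ h) (hv : v ≤ V) (R : ℕ) :
    ∑ a ∈ Icc 1 R, lam ^ a * beta (8 * V * lam) V (h - a) v ≤
      2 ^ v * (8 * V * lam) ^ h * (1 / (4 * V)) := by
  have hV' : (1 : ℝ) ≤ V := by exact_mod_cast hV
  have hVp : (0 : ℝ) < V := by linarith
  set μ : ℝ := 8 * V * lam with hμ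
  have hμ0 : 0 ≤ μ := by positivity
  have hterm : ∀ a ∈ Icc 1 R, lam ^ a * beta μ V (h - a) v ≤
      2 ^ v * μ ^ h * (1 / (8 * V)) * (1 / 2) ^ (a - 1) := by
    intro a ha
    obtain ⟨ha1, -⟩ := Finset.mem_Icc.1 ha
    have hlam : lam = μ * (1 / (8 * V)) := by
      rw [hμ]; field_simp
    have h8 : (1 : ℝ) / (8 * V) ≤ 1 / 2 := by
      apply one_div_le_one_div_of_le <;> linarith
    have h80 : (0 : ℝ) ≤ 1 / (8 * V) := by positivity
    by_cases hah : a < h
    · have hne : h - a ≠ 0 := by omega
      have hb : beta μ V (h - a) v ≤ 2 ^ v * μ ^ (h - a) := by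
        unfold beta
        rw [if_neg hne]
        have : (v : ℝ) / V ≤ 1 := by
          rw [div_le_one hVp]; exact_mod_cast hv
        calc 2 ^ v * μ ^ (h - a) * ((v : ℝ) / V) ≤ 2 ^ v * μ ^ (h - a) * 1 := by
              apply mul_le_mul_of_nonneg_left this; positivity
          _ = _ := by ring
      calc lam ^ a * beta μ V (h - a) v ≤ lam ^ a * (2 ^ v * μ ^ (h - a)) :=
            mul_le_mul_of_nonneg_left hb (by positivity)
        _ = 2 ^ v * (μ ^ a * μ ^ (h - a)) * (1 / (8 * V)) ^ a := by
            rw [hlam, mul_pow]; ring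
        _ = 2 ^ v * μ ^ h * ((1 / (8 * V)) * (1 / (8 * V)) ^ (a - 1)) := by
            rw [← pow_add, ← pow_succ']
            congr 3
            · omega
            · omega
        _ ≤ 2 ^ v * μ ^ h * ((1 / (8 * V)) * (1 / 2) ^ (a - 1)) := by
            apply mul_le_mul_of_nonneg_left _ (by positivity)
            apply mul_le_mul_of_nonneg_left _ h80
            exact pow_le_pow_left₀ h80 h8 _
        _ = _ := by ring
    · have h0 : h - a = 0 := by omega
      rw [h0, beta_zero, mul_one]
      have e1 : a = h + (a - h) := by omega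
      have e2 : h = 1 + (h - 1) := by omega
      calc lam ^ a = lam ^ h * lam ^ (a - h) := by rw [← pow_add, ← e1]
        _ ≤ lam ^ h * (1 / 2) ^ (a - h) := by
            apply mul_le_mul_of_nonneg_left _ (by positivity)
            exact pow_le_pow_left₀ hl0 hl _
        _ = μ ^ h * (1 / (8 * V)) ^ h * (1 / 2) ^ (a - h) := by
            rw [hlam, mul_pow]
        _ = μ ^ h * ((1 / (8 * V)) * (1 / (8 * V)) ^ (h - 1)) * (1 / 2) ^ (a - h) := by
            rw [← pow_succ']
            congr 3
            omega
        _ ≤ μ ^ h * ((1 / (8 * V)) * (1 / 2) ^ (h - 1)) * (1 / 2) ^ (a - h) := by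
            apply mul_le_mul_of_nonneg_right _ (by positivity)
            apply mul_le_mul_of_nonneg_left _ (by positivity)
            apply mul_le_mul_of_nonneg_left _ h80
            exact pow_le_pow_left₀ h80 h8 _
        _ = 1 * (μ ^ h * (1 / (8 * V)) * (1 / 2) ^ (a - 1)) := by
            have : (1 / 2 : ℝ) ^ (a - 1) = (1 / 2) ^ (h - 1) * (1 / 2) ^ (a - h) := by
              rw [← pow_add]; congr 1; omega
            rw [this]; ring
        _ ≤ 2 ^ v * (μ ^ h * (1 / (8 * V)) * (1 / 2) ^ (a - 1)) := by
            apply mul_le_mul_of_nonneg_right _ (by positivity)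
            exact one_le_pow₀ (by norm_num)
        _ = _ := by ring
  have hgeo' : ∀ R : ℕ, ∑ a ∈ Icc 1 R, (1 / 2 : ℝ) ^ (a - 1) = 2 - 2 * (1 / 2) ^ R := by
    intro R
    induction R with
    | zero => simp
    | succ R ih =>
      rw [Finset.sum_Icc_succ_top (by omega), ih, Nat.add_sub_cancel, pow_succ]
      ring
  have hgeo : ∑ a ∈ Icc 1 R, (1 / 2 : ℝ) ^ (a - 1) ≤ 2 := by
    rw [hgeo' R]
    have : (0 : ℝ) ≤ 2 * (1 / 2) ^ R := by positivity
    linarith
  calc ∑ a ∈ Icc 1 R, lam ^ a * beta μ V (h - a) v
      ≤ ∑ a ∈ Icc 1 R, 2 ^ v * μ ^ h * (1 / (8 * V)) * (1 / 2) ^ (a - 1) := Finset.sum_le_sum hterm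
    _ = 2 ^ v * μ ^ h * (1 / (8 * V)) * ∑ a ∈ Icc 1 R, (1 / 2 : ℝ) ^ (a - 1) := by
        rw [Finset.mul_sum]
    _ ≤ 2 ^ v * μ ^ h * (1 / (8 * V)) * 2 := by
        apply mul_le_mul_of_nonneg_left hgeo; positivity
    _ = _ := by
        field_simp
        ring

/-- the coloured fixed vertices -/
noncomputable def colr (J : Finset (Fin r)) (X : Pth r N) (x : ℕ) : PC r N :=
  fun j => if j ∈ J then some (X j, decide ((j : ℕ) < x)) else none

theorem size_colr (J : Finset (Fin r)) (X : Pth r N) (x : ℕ) : size (colr J X x) = J.card := by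
  unfold size colr
  congr 1
  ext j
  simp

/-- the new vertices of `W` -/
noncomputable def newp (X W : PC r N) : Finset (Fin r) :=
  univ.filter (fun j => X j = none ∧ W j ≠ none)

theorem card_newp (X W : PC r N) : (newp X W).card = newsize X W := rfl

/-- `X` completed by the vertices of `W` on the positions `A` -/
noncomputable def comp (A : Finset (Fin r)) (X : Pth r N) (W : PC r N) : Pth r N :=
  fun j => if j ∈ A then ((W j).map Prod.fst).getD (X j) else X j

theorem window {T k K Q V : ℕ} (good : Finset (Pth r N))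
    (Z : ℕ → Pth r N → Set ℕ) (M : ℕ → Finset (PC r N))
    (hK : 1 ≤ K) (hQ : 1 ≤ Q) (hN : 2 * K * 2 ^ k * Q ≤ N) (hV1 : 1 ≤ V)
    (hstep : ∀ t < T, ∀ P ∈ good, ∃ q₀, ∀ q ≤ r, q ∈ Z (t + 1) P →
      q ∈ Z t P ∨ q = q₀ ∨ q = q₀ + 1)
    (hmix : ∀ t < T, ∀ P ∈ good, ∀ q : Fin r, ((q : ℕ) ∈ Z t P ↔ (q : ℕ) + 1 ∉ Z t P) →
      ∃ q', (q' = (q : ℕ) ∨ q' = (q : ℕ) + 1) ∧ ∃ W ∈ M t, Sub W (UP P q') ∧ W q ≠ none)
    (hM : ∀ t < T, ∀ (D : PC r N) (a : ℕ),
      ((M t).filter (fun W => Sub D W ∧ size W = size D + a)).card ≤ K * Q ^ a) :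
    ∀ (h v : ℕ) (J : Finset (Fin r)) (X : Pth r N) (x y t₁ τ : ℕ), τ ≤ 2 ^ v → v ≤ V →
      t₁ + τ ≤ T → y ≤ r → x + 2 ^ h < y + 1 →
      (∀ j ∈ J, ¬ (x ≤ (j : ℕ) ∧ (j : ℕ) < y)) → J.card + h ≤ k →
      ((EJ good Z J X x y t₁ (t₁ + τ)).card : ℝ) * (N : ℝ) ^ J.card ≤
        (N : ℝ) ^ r * beta (8 * V * (K * 2 ^ k * Q / N)) V h v := by
  have hNpos : 0 < N := by
    have : 0 < 2 * K * 2 ^ k * Q := by positivity
    omega
  have hNr : (0 : ℝ) < N := by exact_mod_cast hNpos
  set lam : ℝ := K * 2 ^ k * Q / N with hlam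
  have hl0 : 0 ≤ lam := by positivity
  have hl : lam ≤ 1 / 2 := by
    rw [hlam, div_le_div_iff₀ hNr (by norm_num)]
    have : ((2 * K * 2 ^ k * Q : ℕ) : ℝ) ≤ N := by exact_mod_cast hN
    push_cast at this
    linarith
  have hmu : (0 : ℝ) ≤ 8 * V * lam := by positivity
  intro h
  induction h using Nat.strong_induction_on with
  | _ h IH =>
  rcases Nat.eq_zero_or_pos h with rfl | hpos
  · -- level 0
    intro v J X x y t₁ τ _ _ _ _ _ _ _
    rw [beta_zero, mul_one]
    have h1 : (EJ good Z J X x y t₁ (t₁ + τ)).card ≤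
        (univ.filter (fun P : Pth r N => ∀ j ∈ J, P j = X j)).card := by
      apply Finset.card_le_card
      intro P hP
      simp only [EJ, Finset.mem_filter] at hP
      simp only [Finset.mem_filter, Finset.mem_univ, true_and]
      exact hP.2.1
    have h2 := card_fix J X
    calc ((EJ good Z J X x y t₁ (t₁ + τ)).card : ℝ) * (N : ℝ) ^ J.card
        ≤ ((univ.filter (fun P : Pth r N => ∀ j ∈ J, P j = X j)).card : ℝ) * (N : ℝ) ^ J.card := by
          apply mul_le_mul_of_nonneg_right _ (by positivity)
          exact_mod_cast h1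
      _ = (N : ℝ) ^ r := by exact_mod_cast h2
  intro v
  induction v with
  | zero =>
    intro J X x y t₁ τ hτ _ hT hy hxy _ _
    have hempty : EJ good Z J X x y t₁ (t₁ + τ) = ∅ := by
      rw [Finset.eq_empty_iff_forall_notMem]
      intro P hP
      simp only [EJ, Finset.mem_filter] at hP
      obtain ⟨hg, _, h1, h2⟩ := hP
      have hp : 2 ≤ 2 ^ h := by
        calc 2 = 2 ^ 1 := rfl
          _ ≤ 2 ^ h := Nat.pow_le_pow_right (by norm_num) hpos
      rcases Nat.lt_or_ge τ 1 with h0 | h0
      · have : τ = 0 := by omega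
        subst this
        exact h1 x le_rfl (by omega) (h2 x le_rfl (by omega))
      · have : τ = 1 := by simp at hτ; omega
        subst this
        obtain ⟨q₀, hq₀⟩ := hstep t₁ (by omega) P hg
        have a0 := hq₀ x (by omega) (h2 x le_rfl (by omega))
        have a1 := hq₀ (x + 1) (by omega) (h2 (x + 1) (by omega) (by omega))
        have a2 := hq₀ (x + 2) (by omega) (h2 (x + 2) (by omega) (by omega))
        have b0 := h1 x le_rfl (by omega)
        have b1 := h1 (x + 1) (by omega) (by omega)
        have b2 := h1 (x + 2) (by omega) (by omega)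
        rcases a0 with a0 | a0
        · exact b0 a0
        rcases a1 with a1 | a1
        · exact b1 a1
        rcases a2 with a2 | a2
        · exact b2 a2
        omega
    rw [hempty]
    simp only [Finset.card_empty, Nat.cast_zero, zero_mul]
    apply mul_nonneg (by positivity) (beta_nonneg hmu _ _ _)
  | succ v ihv =>
    intro J X x y t₁ τ hτ hvV hT hy hxy hJ hJk
    rcases Nat.lt_or_ge τ 2 with hτ2 | hτ2
    · -- short windows: use the bound for `v`
      have h1 : τ ≤ 2 ^ v := by
        have : 1 ≤ 2 ^ v := Nat.one_le_two_pow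
        omega
      refine (ihv J X x y t₁ τ h1 (by omega) hT hy hxy hJ hJk).trans ?_
      apply mul_le_mul_of_nonneg_left _ (by positivity)
      unfold beta
      rw [if_neg (by omega), if_neg (by omega)]
      have : (2 : ℝ) ^ v * ((v : ℝ) / V) ≤ 2 ^ (v + 1) * (((v + 1 : ℕ) : ℝ) / V) := by
        have hVp : (0 : ℝ) < V := by exact_mod_cast hV1
        rw [pow_succ]
        push_cast
        have h2 : (v : ℝ) / V ≤ ((v : ℝ) + 1) / V := by
          apply div_le_div_of_nonneg_right _ hVp.le
          linarith
        have h3 : (0 : ℝ) < 2 ^ v := by positivity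
        have h4 : (0 : ℝ) ≤ ((v : ℝ) + 1) / V := by positivity
        nlinarith
      calc 2 ^ v * (8 * ↑V * lam) ^ h * ((v : ℝ) / V)
          = (2 ^ v * ((v : ℝ) / V)) * (8 * ↑V * lam) ^ h := by ring
        _ ≤ (2 ^ (v + 1) * (((v + 1 : ℕ) : ℝ) / V)) * (8 * ↑V * lam) ^ h := by
            apply mul_le_mul_of_nonneg_right this (by positivity)
        _ = _ := by ring
    · -- the middle time
      obtain ⟨c, hc⟩ : ∃ c, c = t₁ + τ / 2 := ⟨_, rfl⟩
      have hcT : c < T := by omega
      have h2v : 2 ^ (v + 1) = 2 * 2 ^ v := pow_succ' 2 v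
      set E := EJ good Z J X x y t₁ (t₁ + τ) with hE
      set Mx := E.filter (fun P => ∃ q : Fin r, x ≤ (q : ℕ) ∧ (q : ℕ) < y ∧
        ((q : ℕ) ∈ Z c P ↔ (q : ℕ) + 1 ∉ Z c P)) with hMx
      have hsplit : E ⊆ EJ good Z J X x y t₁ (t₁ + τ / 2) ∪
          (EJ good Z J X x y (t₁ + τ / 2) (t₁ + τ / 2 + (τ - τ / 2)) ∪ Mx) := by
        intro P hP
        have hP' := hP
        simp only [hE, EJ, Finset.mem_filter] at hP'
        obtain ⟨hg, hPJ, hP1, hP2⟩ := hP'
        by_cases hm : ∃ q : Fin r, x ≤ (q : ℕ) ∧ (q : ℕ) < y ∧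
            ((q : ℕ) ∈ Z c P ↔ (q : ℕ) + 1 ∉ Z c P)
        · apply Finset.mem_union_right
          apply Finset.mem_union_right
          rw [hMx, Finset.mem_filter]
          exact ⟨hP, hm⟩
        · have hconst : ∀ d, x + d ≤ y → (x + d ∈ Z c P ↔ x ∈ Z c P) := by
            intro d
            induction d with
            | zero => intro _; simp
            | succ d ihd =>
              intro hd
              rw [← ihd (by omega)]
              by_contra hne
              apply hm
              refine ⟨⟨x + d, by omega⟩, by simp, by simp; omega, ?_⟩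
              simp only
              rw [← add_assoc] at hne
              tauto
          by_cases hx : x ∈ Z c P
          · apply Finset.mem_union_left
            simp only [EJ, Finset.mem_filter]
            refine ⟨hg, hPJ, hP1, ?_⟩
            intro q hq1 hq2
            have := hconst (q - x) (by omega)
            rw [show x + (q - x) = q by omega, hc] at this
            rw [hc] at hx
            exact this.2 hx
          · apply Finset.mem_union_right
            apply Finset.mem_union_left
            simp only [EJ, Finset.mem_filter]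
            refine ⟨hg, hPJ, ?_, ?_⟩
            · intro q hq1 hq2
              have := hconst (q - x) (by omega)
              rw [show x + (q - x) = q by omega, hc] at this
              rw [hc] at hx
              exact fun hq => hx (this.1 hq)
            · rw [show t₁ + τ / 2 + (τ - τ / 2) = t₁ + τ by omega]
              exact hP2
      have hcard : (E.card : ℝ) ≤ (EJ good Z J X x y t₁ (t₁ + τ / 2)).card +
          ((EJ good Z J X x y (t₁ + τ / 2) (t₁ + τ / 2 + (τ - τ / 2))).card + Mx.card) := by
        have := (Finset.card_le_card hsplit).trans (Finset.card_union_le _ _)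
        have h2 := Finset.card_union_le
          (EJ good Z J X x y (t₁ + τ / 2) (t₁ + τ / 2 + (τ - τ / 2))) Mx
        exact_mod_cast this.trans (by omega)
      have hA := ihv J X x y t₁ (τ / 2) (by omega) (by omega) (by omega) hy hxy hJ hJk
      have hB := ihv J X x y (t₁ + τ / 2) (τ - τ / 2) (by omega) (by omega) (by omega) hy hxy hJ hJk
      -- the mixed paths
      have hC : (Mx.card : ℝ) * (N : ℝ) ^ J.card ≤
          (N : ℝ) ^ r * (2 ^ (v + 1) * (8 * V * lam) ^ h * (1 / (4 * V))) := by
        have hsum := sum_bound (M c) (hM c hcT) (colr J X x) Mx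
          (fun W => E.filter (fun P => ∀ j z, W j = some z → P j = z.1))
          (fun a => (N : ℝ) ^ r / (N : ℝ) ^ (J.card + a) * beta (8 * V * lam) V (h - a) (v + 1))
          (fun a => mul_nonneg (by positivity) (beta_nonneg hmu _ _ _)) ?_ ?_
        · rw [size_colr] at hsum
          have hK2 : ∀ a ∈ Icc 1 r, (2 : ℝ) ^ J.card * K * ((Q : ℝ) ^ a *
              ((N : ℝ) ^ r / (N : ℝ) ^ (J.card + a) * beta (8 * V * lam) V (h - a) (v + 1))) *
              (N : ℝ) ^ J.card ≤
              (N : ℝ) ^ r * (lam ^ a * beta (8 * V * lam) V (h - a) (v + 1)) := by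
            intro a ha
            obtain ⟨ha1, _⟩ := Finset.mem_Icc.1 ha
            have hk1 : (2 : ℝ) ^ J.card * K * (Q : ℝ) ^ a ≤ (K * 2 ^ k * Q) ^ a := by
              have e1 : (2 : ℝ) ^ J.card ≤ 2 ^ k := pow_le_pow_right₀ (by norm_num) (by omega)
              have e2 : (1 : ℝ) ≤ K * 2 ^ k := by
                have : (1 : ℝ) ≤ K := by exact_mod_cast hK
                have h2k : (1 : ℝ) ≤ 2 ^ k := one_le_pow₀ (by norm_num)
                nlinarith
              have e3 : (K : ℝ) * 2 ^ k ≤ (K * 2 ^ k) ^ a := le_self_pow₀ e2 (by omega)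
              calc (2 : ℝ) ^ J.card * K * (Q : ℝ) ^ a ≤ 2 ^ k * K * (Q : ℝ) ^ a := by
                    apply mul_le_mul_of_nonneg_right _ (by positivity)
                    apply mul_le_mul_of_nonneg_right e1 (by positivity)
                _ = (K * 2 ^ k) * (Q : ℝ) ^ a := by ring
                _ ≤ (K * 2 ^ k) ^ a * (Q : ℝ) ^ a := by
                    apply mul_le_mul_of_nonneg_right e3 (by positivity)
                _ = _ := by rw [← mul_pow]
            have hb := beta_nonneg hmu V (h - a) (v + 1)
            calc (2 : ℝ) ^ J.card * K * ((Q : ℝ) ^ a *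
                ((N : ℝ) ^ r / (N : ℝ) ^ (J.card + a) * beta (8 * V * lam) V (h - a) (v + 1))) *
                (N : ℝ) ^ J.card
                = (N : ℝ) ^ r * ((2 ^ J.card * K * (Q : ℝ) ^ a) / (N : ℝ) ^ a *
                  beta (8 * V * lam) V (h - a) (v + 1)) := by
                  rw [pow_add]
                  field_simp
              _ ≤ (N : ℝ) ^ r * ((K * 2 ^ k * Q) ^ a / (N : ℝ) ^ a *
                  beta (8 * V * lam) V (h - a) (v + 1)) := by
                  apply mul_le_mul_of_nonneg_left _ (by positivity)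
                  apply mul_le_mul_of_nonneg_right _ hb
                  exact div_le_div_of_nonneg_right hk1 (by positivity)
              _ = _ := by rw [hlam, div_pow]
          calc (Mx.card : ℝ) * (N : ℝ) ^ J.card
              ≤ (2 ^ J.card * K * ∑ a ∈ Icc 1 r, (Q : ℝ) ^ a * ((N : ℝ) ^ r /
                (N : ℝ) ^ (J.card + a) * beta (8 * V * lam) V (h - a) (v + 1))) *
                (N : ℝ) ^ J.card := by
                apply mul_le_mul_of_nonneg_right hsum (by positivity)
            _ = ∑ a ∈ Icc 1 r, 2 ^ J.card * K * ((Q : ℝ) ^ a * ((N : ℝ) ^ r /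
                (N : ℝ) ^ (J.card + a) * beta (8 * V * lam) V (h - a) (v + 1))) *
                (N : ℝ) ^ J.card := by
                rw [Finset.mul_sum, Finset.sum_mul]
            _ ≤ ∑ a ∈ Icc 1 r, (N : ℝ) ^ r * (lam ^ a * beta (8 * V * lam) V (h - a) (v + 1)) :=
                Finset.sum_le_sum hK2
            _ = (N : ℝ) ^ r * ∑ a ∈ Icc 1 r, lam ^ a * beta (8 * V * lam) V (h - a) (v + 1) := by
                rw [Finset.mul_sum]
            _ ≤ _ := by
                apply mul_le_mul_of_nonneg_left _ (by positivity)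
                exact beta_sum hl0 hl hV1 hpos hvV r
        · -- every mixed path is covered
          intro P hP
          rw [hMx, Finset.mem_filter] at hP
          obtain ⟨hPE, q, hq1, hq2, hq3⟩ := hP
          have hPE' := hPE
          simp only [hE, EJ, Finset.mem_filter] at hPE'
          obtain ⟨hg, hPJ, _, _⟩ := hPE'
          obtain ⟨q', hq', W, hW, hWs, hWq⟩ := hmix c hcT P hg q hq3
          refine ⟨W, hW, ?_, ?_, ?_⟩
          · intro j z z' hz hz'
            unfold colr at hz
            split_ifs at hz with hjJ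
            have hz2 := hWs j z' hz'
            unfold UP at hz2
            have hz := Option.some.inj hz
            have hz2 := Option.some.inj hz2
            rw [← hz, ← hz2, hPJ j hjJ]
            have hj := hJ j hjJ
            congr 1
            rw [decide_eq_decide]
            omega
          · unfold newsize
            rw [Finset.card_ne_zero]
            refine ⟨q, ?_⟩
            simp only [Finset.mem_filter, Finset.mem_univ, true_and]
            refine ⟨?_, hWq⟩
            unfold colr
            rw [if_neg]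
            intro hqJ
            exact hJ q hqJ ⟨hq1, hq2⟩
          · rw [Finset.mem_filter]
            refine ⟨hPE, ?_⟩
            intro j z hz
            have hz2 := hWs j z hz
            unfold UP at hz2
            have hz2 := Option.some.inj hz2
            rw [← hz2]
        · -- the paths through `W`
          intro W hW hcomp hnew
          set X' := colr J X x with hX'
          set a := newsize X' W with ha
          set A := newp X' W with hA'
          have hAJ : Disjoint J A := by
            rw [Finset.disjoint_left]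
            intro j hj hjA
            rw [hA'] at hjA
            simp only [newp, Finset.mem_filter, Finset.mem_univ, true_and] at hjA
            rw [hX'] at hjA
            unfold colr at hjA
            rw [if_pos hj] at hjA
            exact absurd hjA.1 (by simp)
          have hAcard : A.card = a := card_newp X' W
          have hJA : (J ∪ A).card = J.card + a := by
            rw [Finset.card_union_of_disjoint hAJ, hAcard]
          have hmem : ∀ P ∈ E.filter (fun P => ∀ j z, W j = some z → P j = z.1),
              ∀ j ∈ J ∪ A, P j = comp A X W j := by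
            intro P hP j hj
            rw [Finset.mem_filter] at hP
            obtain ⟨hPE, hPW⟩ := hP
            simp only [hE, EJ, Finset.mem_filter] at hPE
            unfold comp
            by_cases hjA : j ∈ A
            · rw [if_pos hjA]
              have hjA' := hjA
              rw [hA'] at hjA'
              simp only [newp, Finset.mem_filter, Finset.mem_univ, true_and] at hjA'
              obtain ⟨z, hz⟩ := Option.ne_none_iff_exists'.1 hjA'.2
              rw [hz]
              simpa using hPW j z hz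
            · rw [if_neg hjA]
              apply hPE.2.1
              rcases Finset.mem_union.1 hj with hj | hj
              · exact hj
              · exact absurd hj hjA
          by_cases hah : a ≤ h
          · obtain ⟨x', y', hx', hy', hxy', hAcut⟩ := exists_cut A h x y (by omega) hxy
            have hsub : E.filter (fun P => ∀ j z, W j = some z → P j = z.1) ⊆
                EJ good Z (J ∪ A) (comp A X W) x' y' t₁ (t₁ + τ) := by
              intro P hP
              have h1 := hmem P hP
              rw [Finset.mem_filter] at hP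
              obtain ⟨hPE, hPW⟩ := hP
              simp only [hE, EJ, Finset.mem_filter] at hPE
              simp only [EJ, Finset.mem_filter]
              refine ⟨hPE.1, h1, ?_, ?_⟩
              · intro q h1 h2
                exact hPE.2.2.1 q (by omega) (by omega)
              · intro q h1 h2
                exact hPE.2.2.2 q (by omega) (by omega)
            have hIH := IH (h - a) (by omega) (v + 1) (J ∪ A) (comp A X W) x' y' t₁ τ hτ hvV hT
              (by omega) (by rw [← hAcard]; exact hxy') ?_ (by omega)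
            · rw [hJA] at hIH
              have hpow : (0 : ℝ) < (N : ℝ) ^ (J.card + a) := by positivity
              rw [div_mul_eq_mul_div, le_div_iff₀ hpow]
              refine le_trans ?_ hIH
              apply mul_le_mul_of_nonneg_right _ hpow.le
              exact_mod_cast Finset.card_le_card hsub
            · intro j hj
              rcases Finset.mem_union.1 hj with hj | hj
              · have := hJ j hj
                omega
              · exact hAcut j hj
          · rw [show h - a = 0 by omega, beta_zero, mul_one]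
            have hpow : (0 : ℝ) < (N : ℝ) ^ (J.card + a) := by positivity
            rw [le_div_iff₀ hpow]
            have h1 : (E.filter (fun P => ∀ j z, W j = some z → P j = z.1)).card ≤
                (univ.filter (fun P : Pth r N => ∀ j ∈ J ∪ A, P j = comp A X W j)).card := by
              apply Finset.card_le_card
              intro P hP
              simp only [Finset.mem_filter, Finset.mem_univ, true_and]
              exact hmem P hP
            have h2 := card_fix (J ∪ A) (comp A X W)
            rw [hJA] at h2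
            calc ((E.filter (fun P => ∀ j z, W j = some z → P j = z.1)).card : ℝ) *
                (N : ℝ) ^ (J.card + a)
                ≤ ((univ.filter (fun P : Pth r N => ∀ j ∈ J ∪ A, P j = comp A X W j)).card : ℝ) *
                  (N : ℝ) ^ (J.card + a) := by
                  apply mul_le_mul_of_nonneg_right _ hpow.le
                  exact_mod_cast h1
              _ = (N : ℝ) ^ r := by exact_mod_cast h2
      -- the sum
      have hVp : (0 : ℝ) < V := by exact_mod_cast hV1
      have hbv : beta (8 * V * lam) V h v = 2 ^ v * (8 * V * lam) ^ h * (v / V) := by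
        unfold beta; rw [if_neg (by omega)]
      have hbv1 : beta (8 * V * lam) V h (v + 1) =
          2 ^ (v + 1) * (8 * V * lam) ^ h * (((v + 1 : ℕ) : ℝ) / V) := by
        unfold beta; rw [if_neg (by omega)]
      rw [hbv] at hA hB
      rw [hbv1]
      have hfin : (N : ℝ) ^ r * (2 ^ v * (8 * V * lam) ^ h * (v / V)) +
          ((N : ℝ) ^ r * (2 ^ v * (8 * V * lam) ^ h * (v / V)) +
          (N : ℝ) ^ r * (2 ^ (v + 1) * (8 * V * lam) ^ h * (1 / (4 * V)))) ≤
          (N : ℝ) ^ r * (2 ^ (v + 1) * (8 * V * lam) ^ h * (((v + 1 : ℕ) : ℝ) / V)) := by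
        have h1 : (N : ℝ) ^ r * (2 ^ v * (8 * V * lam) ^ h * (v / V)) +
          ((N : ℝ) ^ r * (2 ^ v * (8 * V * lam) ^ h * (v / V)) +
          (N : ℝ) ^ r * (2 ^ (v + 1) * (8 * V * lam) ^ h * (1 / (4 * V)))) =
          (N : ℝ) ^ r * (2 ^ (v + 1) * (8 * V * lam) ^ h) * ((v + 1 / 4) / V) := by
          rw [pow_succ]
          field_simp
          ring
        rw [h1, mul_assoc ((N : ℝ) ^ r)]
        apply mul_le_mul_of_nonneg_left _ (by positivity)
        apply mul_le_mul_of_nonneg_left _ (by positivity)
        apply div_le_div_of_nonneg_right _ hVp.le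
        push_cast
        linarith
      refine le_trans ?_ hfin
      calc (E.card : ℝ) * (N : ℝ) ^ J.card ≤ ((EJ good Z J X x y t₁ (t₁ + τ / 2)).card +
          ((EJ good Z J X x y (t₁ + τ / 2) (t₁ + τ / 2 + (τ - τ / 2))).card + Mx.card)) *
          (N : ℝ) ^ J.card := mul_le_mul_of_nonneg_right hcard (by positivity)
        _ = (EJ good Z J X x y t₁ (t₁ + τ / 2)).card * (N : ℝ) ^ J.card +
          ((EJ good Z J X x y (t₁ + τ / 2) (t₁ + τ / 2 + (τ - τ / 2))).card * (N : ℝ) ^ J.card +
            Mx.card * (N : ℝ) ^ J.card) := by ring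
        _ ≤ _ := add_le_add hA (add_le_add hB hC)

/-- Abstract counting lemma.  `Z t P` = the arcs of the path `P` which are passed at time `t`,
`M t` = the (minimal) partial colourings of time `t`.  The arc `q` of a path joins its vertices in
the layers `q - 1` and `q`. -/
theorem count_lemma {r N T k K Q V : ℕ} (good : Finset (Pth r N))
    (Z : ℕ → Pth r N → Set ℕ) (M : ℕ → Finset (PC r N))
    (hK : 1 ≤ K) (hQ : 1 ≤ Q) (hN : 2 * K * 2 ^ k * Q ≤ N) (hV1 : 1 ≤ V) (hV : T ≤ 2 ^ V)
    (hk : 2 ^ k ≤ r)
    (h0 : ∀ P ∈ good, ∀ q ≤ r, q ∉ Z 0 P) (hT : ∀ P ∈ good, ∀ q ≤ r, q ∈ Z T P)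
    (hstep : ∀ t < T, ∀ P ∈ good, ∃ q₀, ∀ q ≤ r, q ∈ Z (t + 1) P →
      q ∈ Z t P ∨ q = q₀ ∨ q = q₀ + 1)
    (hmix : ∀ t < T, ∀ P ∈ good, ∀ q : Fin r, ((q : ℕ) ∈ Z t P ↔ (q : ℕ) + 1 ∉ Z t P) →
      ∃ q', (q' = (q : ℕ) ∨ q' = (q : ℕ) + 1) ∧ ∃ W ∈ M t, Sub W (UP P q') ∧ W q ≠ none)
    (hM : ∀ t < T, ∀ (D : PC r N) (a : ℕ),
      ((M t).filter (fun W => Sub D W ∧ size W = size D + a)).card ≤ K * Q ^ a) :
    good.card * N ^ k ≤ N ^ r * (2 ^ V * (8 * V * 2 ^ k * Q * K) ^ k) := by
  have hNpos : 0 < N := by
    have : 0 < 2 * K * 2 ^ k * Q := by positivity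
    omega
  have hNr : (0 : ℝ) < N := by exact_mod_cast hNpos
  have hVp : (0 : ℝ) < V := by exact_mod_cast hV1
  have hw := window good Z M hK hQ hN hV1 hstep hmix hM k V ∅ (fun _ => ⟨0, hNpos⟩) 0 r 0 T hV le_rfl
    (by omega) le_rfl (by omega) (by simp) (by simp)
  have hgood : EJ good Z ∅ (fun _ => ⟨0, hNpos⟩) 0 r 0 (0 + T) = good := by
    unfold EJ
    rw [Finset.filter_true_of_mem]
    intro P hP
    refine ⟨by simp, fun q _ hq => h0 P hP q hq, fun q _ hq => ?_⟩
    rw [zero_add]
    exact hT P hP q hq
  rw [hgood, Finset.card_empty, pow_zero, mul_one] at hw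
  have hbeta : beta (8 * V * (K * 2 ^ k * Q / N)) V k V * (N : ℝ) ^ k ≤
      2 ^ V * (8 * V * 2 ^ k * Q * K) ^ k := by
    unfold beta
    split_ifs with hk0
    · subst hk0
      simp only [pow_zero, mul_one]
      exact one_le_pow₀ (by norm_num)
    · rw [div_self hVp.ne', mul_one, mul_assoc, ← mul_pow]
      apply le_of_eq
      congr 2
      field_simp
  have hfin : (good.card : ℝ) * (N : ℝ) ^ k ≤
      (N : ℝ) ^ r * (2 ^ V * (8 * V * 2 ^ k * Q * K) ^ k) := by
    calc (good.card : ℝ) * (N : ℝ) ^ k
        ≤ (N : ℝ) ^ r * beta (8 * V * (K * 2 ^ k * Q / N)) V k V * (N : ℝ) ^ k :=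
          mul_le_mul_of_nonneg_right hw (by positivity)
      _ = (N : ℝ) ^ r * (beta (8 * V * (K * 2 ^ k * Q / N)) V k V * (N : ℝ) ^ k) := by ring
      _ ≤ _ := mul_le_mul_of_nonneg_left hbeta (by positivity)
  exact_mod_cast hfin

end MTB
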