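import Pool.Agent.Lib.MTB.AMach

/-!
# MTB.Passed (MP_e46137_lc): the passed arcs
-/

namespace MTB

open Classical Finset MTS

variable {A : Type} {r N S : ℕ}

/-- At time `0` nothing is passed. -/
theorem passed_zero {w : ℕ} (M : AMach A S) (yes : Pth r N → A → Bool)
    (F : ℕ → Fin S → Finset (PC r N))
    (h0 : ∀ i, M.init i = true → ∀ U : PC r N, size U ≤ w → U ∈ F 0 i) (P : Pth r N) (q : ℕ) :
    q ∉ passed M yes F 0 P := by
  rintro ⟨i, hi, hU⟩
  refine hU (fun _ => none) (h0 i hi _ ?_) ?_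
  · simp [size]
  · intro j x hx
    exact absurd hx (by simp)

/-- One step: outside the bad paths only the arcs which are read can be passed.  (Let `V` be the
union of `un (mins (F t)) (UP P q)`, of size `≤ w - 2`, and of the at most two literals of `hX`
which force the arcs `q₀`, `q₀ + 1`; `V` lies below `UP P q`, has size `≤ w`, belongs to `F t j`
whenever `run (yes P) t j = true`, and forces all arcs of the path which are read.) -/
theorem passed_step {w θ : ℕ} (hw : 2 ≤ w) (M : AMach A S) (F : ℕ → Fin S → Finset (PC r N))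
    (yes : Pth r N → A → Bool) (no : Col r N → A → Bool) (ep : Pth r N → ℕ → A)
    (hF : ∀ t i, ClosedW w θ (F t i))
    (hnext : ∀ t i (U : PC r N), size U ≤ w →
        M.next t (fun j => decide (U ∈ F t j)) (fun a => decide (U ∈ force w no a)) i = true →
        U ∈ F (t + 1) i)
    (hyes : ∀ P a, yes P a = true → ∃ q ≤ r, a = ep P q)
    (hX : ∀ P, ∀ q ≤ r, ∀ q' ≤ r, q ≠ q' → ∃ j : Fin r, ∀ χ : Col r N,
      χ j (P j) = decide ((j : ℕ) < q) → no χ (ep P q') = true)
    (t : ℕ) (P : Pth r N) (q₀ : ℕ) (hrd : ∀ q ≤ r, ep P q ∈ M.rd t → q = q₀ ∨ q = q₀ + 1)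
    (hP : P ∉ bad (w - 1) (mins (F t))) (q : ℕ) (hq : q ≤ r)
    (h : q ∈ passed M yes F (t + 1) P) :
    q ∈ passed M yes F t P ∨ ep P q ∈ M.rd t := by
  by_contra hcon
  push Not at hcon
  obtain ⟨hnp, hnr⟩ := hcon
  obtain ⟨i, hi, hiU⟩ := h
  -- the size of the union
  have hsz : size (un (mins (F t)) (UP P q)) ≤ w - 2 := by
    by_contra hc
    push Not at hc
    refine hP ?_
    rw [bad, mem_filter]
    exact ⟨mem_univ _, q, hq, by omega⟩
  -- a finset of at most one position which forces the arc `q'`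
  have hlit : ∀ q', ∃ s : Finset (Fin r), s.card ≤ 1 ∧ (q' ≤ r → q ≠ q' → ∀ χ : Col r N,
      (∀ j ∈ s, χ j (P j) = decide ((j : ℕ) < q)) → no χ (ep P q') = true) := by
    intro q'
    by_cases h1 : q' ≤ r ∧ q ≠ q'
    · obtain ⟨j, hj⟩ := hX P q hq q' h1.1 h1.2
      exact ⟨{j}, by simp, fun _ _ χ hχ => hj χ (hχ j (by simp))⟩
    · exact ⟨∅, by simp, fun h2 h3 => absurd ⟨h2, h3⟩ h1⟩
  obtain ⟨s1, hs1, hf1⟩ := hlit q₀
  obtain ⟨s2, hs2, hf2⟩ := hlit (q₀ + 1)
  set V : PC r N := fun j => if un (mins (F t)) (UP P q) j ≠ none ∨ j ∈ s1 ∪ s2 then UP P q j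
    else none with hV
  have hVsub : Sub V (UP P q) := by
    intro j x hx
    rw [hV] at hx
    simp only at hx
    split_ifs at hx with h1
    exact hx
  have hVsize : size V ≤ w := by
    have h1 : (univ.filter (fun j => V j ≠ none)) ⊆
        (univ.filter (fun j => un (mins (F t)) (UP P q) j ≠ none)) ∪ (s1 ∪ s2) := by
      intro j hj
      rw [mem_filter] at hj
      rw [mem_union, mem_filter]
      by_contra hc
      refine hj.2 ?_
      rw [hV]
      simp only
      rw [if_neg]
      rintro (h2 | h2)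
      · exact hc (Or.inl ⟨mem_univ _, h2⟩)
      · exact hc (Or.inr h2)
    have h2 := (card_le_card h1).trans (card_union_le _ _)
    have h3 := card_union_le s1 s2
    have h4 : (univ.filter (fun j => un (mins (F t)) (UP P q) j ≠ none)).card ≤ w - 2 := hsz
    unfold size
    omega
  have hVF : ∀ k, M.run (yes P) t k = true → V ∈ F t k := by
    intro k hk
    have h1 : ∃ U ∈ F t k, Sub U (UP P q) := by
      by_contra hc
      push Not at hc
      exact hnp ⟨k, hk, hc⟩
    obtain ⟨U, hU, hUs⟩ := h1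
    obtain ⟨W, hW, hWU⟩ := exists_min hU
    have hWs : Sub W (UP P q) := fun j x hx => hUs j x (hWU j x hx)
    have hWV : Sub W V := by
      intro j x hx
      have hne : un (mins (F t)) (UP P q) j ≠ none := by
        unfold un
        rw [if_pos ⟨W, by rw [mins, mem_filter]; exact ⟨mem_univ _, k, hW⟩, hWs, by rw [hx]; simp⟩]
        rw [hWs j x hx]
        simp
      rw [hV]
      simp only
      rw [if_pos (Or.inl hne)]
      exact hWs j x hx
    exact ClosedW.up (hF t k) hW.1 hWV hVsize
  have hVforce : ∀ a ∈ M.rd t, yes P a = true → V ∈ force w no a := by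
    intro a ha hya
    obtain ⟨q', hq', rfl⟩ := hyes P a hya
    have hne : q ≠ q' := by
      rintro rfl
      exact hnr ha
    rw [force, mem_filter]
    refine ⟨mem_univ _, hVsize, fun χ hχ => ?_⟩
    have hpos : ∀ j ∈ s1 ∪ s2, χ j (P j) = decide ((j : ℕ) < q) := by
      intro j hj
      refine hχ j (P j, decide ((j : ℕ) < q)) ?_
      rw [hV]
      simp only
      rw [if_pos (Or.inr hj)]
      rfl
    rcases hrd q' hq' ha with h1 | h1
    · subst h1
      exact hf1 hq' hne χ fun j hj => hpos j (mem_union_left _ hj)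
    · subst h1
      exact hf2 hq' hne χ fun j hj => hpos j (mem_union_right _ hj)
  have hmono := M.mono t (M.run (yes P) t) (fun j => decide (V ∈ F t j)) (yes P)
    (fun a => decide (V ∈ force w no a)) (by
      intro k
      cases hk : M.run (yes P) t k with
      | false => exact Bool.false_le _
      | true =>
        show true ≤ decide (V ∈ F t k)
        rw [decide_eq_true (hVF k hk)]) (by
      intro a ha
      cases hk : yes P a with
      | false => exact Bool.false_le _
      | true =>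
        show true ≤ decide (V ∈ force w no a)
        rw [decide_eq_true (hVforce a ha hk)])
  have hrun : M.next t (M.run (yes P) t) (yes P) i = true := hi
  have h5 := hmono i
  rw [hrun] at h5
  have h6 : M.next t (fun j => decide (V ∈ F t j)) (fun a => decide (V ∈ force w no a)) i = true :=
    Bool.eq_true_of_true_le h5
  exact hiU V (hnext t i V hVsize h6) hVsub

/-- Two neighbouring arcs, one passed and the other not: a minimal member contains the vertex
between them. -/
theorem passed_mix {w θ : ℕ} (M : AMach A S) (F : ℕ → Fin S → Finset (PC r N))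
    (yes : Pth r N → A → Bool) (hF : ∀ t i, ClosedW w θ (F t i)) (t : ℕ) (P : Pth r N)
    (q : Fin r) (h : (q : ℕ) ∈ passed M yes F t P ↔ (q : ℕ) + 1 ∉ passed M yes F t P) :
    ∃ q', (q' = (q : ℕ) ∨ q' = (q : ℕ) + 1) ∧ ∃ W ∈ mins (F t), Sub W (UP P q') ∧ W q ≠ none := by
  have key : ∀ q1 q2 : ℕ, (∀ j : Fin r, j ≠ q → (((j : ℕ) < q1) ↔ ((j : ℕ) < q2))) →
      q1 ∈ passed M yes F t P → q2 ∉ passed M yes F t P →
      ∃ W ∈ mins (F t), Sub W (UP P q2) ∧ W q ≠ none := by
    rintro q1 q2 hj ⟨i, hi, hU⟩ hn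
    have h1 : ∃ U ∈ F t i, Sub U (UP P q2) := by
      by_contra hc
      push Not at hc
      exact hn ⟨i, hi, hc⟩
    obtain ⟨U, hUF, hUs⟩ := h1
    obtain ⟨W, hW, hWU⟩ := exists_min hUF
    have hWs : Sub W (UP P q2) := fun j x hx => hUs j x (hWU j x hx)
    refine ⟨W, by rw [mins, mem_filter]; exact ⟨mem_univ _, i, hW⟩, hWs, fun hnone => ?_⟩
    refine hU W hW.1 fun j x hx => ?_
    have hjq : j ≠ q := by
      rintro rfl
      rw [hnone] at hx
      exact absurd hx (by simp)
    have h2 := hWs j x hx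
    have h3 : UP P q1 j = UP P q2 j := by
      unfold UP
      rw [decide_eq_decide.2 (hj j hjq)]
    rw [h3]
    exact h2
  by_cases h1 : (q : ℕ) ∈ passed M yes F t P
  · refine ⟨(q : ℕ) + 1, Or.inr rfl, key q (q + 1) (fun j hj => ?_) h1 (h.1 h1)⟩
    have : (j : ℕ) ≠ (q : ℕ) := fun h' => hj (Fin.ext h')
    omega
  · have h2 : (q : ℕ) + 1 ∈ passed M yes F t P := by
      by_contra hc
      exact h1 (h.2 hc)
    refine ⟨(q : ℕ), Or.inl rfl, key (q + 1) q (fun j hj => ?_) h2 h1⟩
    have : (j : ℕ) ≠ (q : ℕ) := fun h' => hj (Fin.ext h')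
    omega

/-- At the end everything is passed. -/
theorem passed_end {w θ E T : ℕ} (M : AMach A S) (F : ℕ → Fin S → Finset (PC r N))
    (yes : Pth r N → A → Bool) (no : Col r N → A → Bool) (hF : ∀ t i, ClosedW w θ (F t i))
    (out : Fin S) (hE : (univ.filter (fun χ : Col r N =>
        ∃ i, Hits (F T i) χ ∧ M.run (no χ) T i = false)).card ≤ E) (hE2 : E < 2 ^ (r * N - w))
    (hy : ∀ P, M.run (yes P) T out = true) (hn : ∀ χ, M.run (no χ) T out = false)
    (P : Pth r N) (q : ℕ) : q ∈ passed M yes F T P := by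
  refine ⟨out, hy P, fun U hU _ => ?_⟩
  have h1 := agree_card U ((hF T out).1 U hU)
  have h2 : (univ.filter (fun χ : Col r N => Agree U χ)).card ≤
      (univ.filter (fun χ : Col r N => ∃ i, Hits (F T i) χ ∧ M.run (no χ) T i = false)).card := by
    refine card_le_card fun χ hχ => ?_
    rw [mem_filter] at hχ ⊢
    exact ⟨mem_univ _, out, ⟨U, hU, hχ.2⟩, hn χ⟩
  omega

end MTB
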