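import Pool.Agent.Lib.MTB.Approx
import Pool.Agent.Lib.MTB.Passed
import Pool.Agent.Lib.MTB.Branch
import Pool.Agent.Lib.MTB.Count
import Pool.Agent.Lib.MTB.BadL

/-!
# MTB.Core (MP_e46137_lc): lower bound for abstract monotone machines
-/

namespace MTB

open Classical Finset MTS

variable {A : Type} {r N S : ℕ}

/-- the number of minimal members of all families of one time -/
theorem mins_card {w θ K : ℕ} (F : Fin S → Finset (PC r N)) (hF : ∀ i, ClosedW w θ (F i))
    (hK : (2 ^ w - 1) ^ K * 2 ^ (r * N) ≤ θ * (2 ^ w) ^ K) (D : PC r N) (a : ℕ) :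
    ((mins F).filter (fun W => Sub D W ∧ size W = size D + a)).card ≤
      S * (2 * w * K) ^ a := by
  have h1 : (mins F).filter (fun W => Sub D W ∧ size W = size D + a) ⊆
      univ.biUnion (fun i : Fin S =>
        univ.filter (fun W : PC r N => IsMin (F i) W ∧ Sub D W ∧ size W = size D + a)) := by
    intro W hW
    rw [mem_filter] at hW
    obtain ⟨hW1, hW2⟩ := hW
    unfold mins at hW1
    rw [mem_filter] at hW1
    obtain ⟨_, i, hi⟩ := hW1
    rw [mem_biUnion]
    refine ⟨i, mem_univ _, ?_⟩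
    rw [mem_filter]
    exact ⟨mem_univ _, hi, hW2⟩
  calc _ ≤ (univ.biUnion (fun i : Fin S =>
        univ.filter (fun W : PC r N => IsMin (F i) W ∧ Sub D W ∧ size W = size D + a))).card :=
        card_le_card h1
    _ ≤ ∑ i : Fin S,
        (univ.filter (fun W : PC r N => IsMin (F i) W ∧ Sub D W ∧ size W = size D + a)).card :=
        card_biUnion_le
    _ ≤ ∑ _i : Fin S, (2 * w * K) ^ a := sum_le_sum (fun i _ => ext_card (hF i) hK D a)
    _ = S * (2 * w * K) ^ a := by simp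

/-- `good` = the paths which are bad at no time `t < T`. -/
theorem core {w k θ K V T : ℕ} (M : AMach A S) (out : Fin S)
    (yes : Pth r N → A → Bool) (no : Col r N → A → Bool) (ep : Pth r N → ℕ → A)
    (hyes : ∀ P a, yes P a = true → ∃ q ≤ r, a = ep P q)
    (hX : ∀ P, ∀ q ≤ r, ∀ q' ≤ r, q ≠ q' → ∃ j : Fin r, ∀ χ : Col r N,
      χ j (P j) = decide ((j : ℕ) < q) → no χ (ep P q') = true)
    (hrd : ∀ t P, ∃ q₀, ∀ q ≤ r, ep P q ∈ M.rd t → q = q₀ ∨ q = q₀ + 1)
    (hy : ∀ P, M.run (yes P) T out = true) (hn : ∀ χ, M.run (no χ) T out = false)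
    (hw : 2 ≤ w) (hkw : k ≤ w) (hK1 : 1 ≤ K) (hN : 2 * S * 2 ^ w * (2 * w * K) ≤ N)
    (hθ : T * (S * ((2 * (r * N) + 1) ^ w * θ)) < 2 ^ (r * N - w))
    (hK : (2 ^ w - 1) ^ K * 2 ^ (r * N) ≤ θ * (2 ^ w) ^ K)
    (hbad : 2 * T * (2 * S * 2 ^ w * (2 * w * K)) ^ (w - 1) ≤ N ^ (w - 1))
    (hk : 2 ^ k ≤ r) (hV1 : 1 ≤ V) (hV : T ≤ 2 ^ V) :
    N ^ k ≤ 2 * (2 ^ V * (8 * V * 2 ^ k * (2 * w * K) * S) ^ k) := by
  have hS : 1 ≤ S := by
    have := out.isLt
    omega
  have hQ : 1 ≤ 2 * w * K := Nat.mul_pos (by omega) hK1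
  have hNpos : 1 ≤ N := by
    refine le_trans ?_ hN
    exact Nat.mul_pos (Nat.mul_pos (by omega) (by positivity)) hQ
  have hT1 : 1 ≤ T := by
    by_contra h0
    have hT0 : T = 0 := by omega
    subst hT0
    have h1 := hy (fun _ => ⟨0, hNpos⟩)
    have h2 := hn (fun _ _ => true)
    unfold AMach.run at h1 h2
    rw [h1] at h2
    exact absurd h2 (by simp)
  have hθ' : θ < 2 ^ (r * N - w) := by
    refine lt_of_le_of_lt ?_ hθ
    calc θ = 1 * (1 * (1 * θ)) := by ring
      _ ≤ T * (S * ((2 * (r * N) + 1) ^ w * θ)) :=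
        Nat.mul_le_mul hT1 (Nat.mul_le_mul hS (Nat.mul_le_mul_right _
          (Nat.one_le_pow _ _ (by omega))))
  obtain ⟨F, hF, h0, hnext, hErr⟩ := exists_approx M w θ hθ' no
  have hM : ∀ t, ∀ (D : PC r N) (a : ℕ),
      ((mins (F t)).filter (fun W => Sub D W ∧ size W = size D + a)).card ≤
        S * (2 * w * K) ^ a := fun t => mins_card (F t) (hF t) hK
  obtain ⟨good, hgood⟩ : ∃ good : Finset (Pth r N), good = univ.filter (fun P =>
    ∀ t < T, P ∉ bad (w - 1) (mins (F t))) := ⟨_, rfl⟩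
  have h2w : 2 ^ (w - 1) ≤ 2 ^ w := Nat.pow_le_pow_right (by norm_num) (Nat.sub_le _ _)
  have hb : ∀ t, (bad (w - 1) (mins (F t))).card * N ^ (w - 1) ≤
      N ^ r * (2 * S * 2 ^ w * (2 * w * K)) ^ (w - 1) := by
    intro t
    have h1 : 2 * S * 2 ^ (w - 1) * (2 * w * K) ≤ 2 * S * 2 ^ w * (2 * w * K) :=
      Nat.mul_le_mul_right _ (Nat.mul_le_mul_left _ h2w)
    refine (bad_card (mins (F t)) hS hQ (hM t) (h1.trans hN)).trans ?_
    exact Nat.mul_le_mul_left _ (Nat.pow_le_pow_left h1 _)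
  have hcompl : (univ.filter (fun P : Pth r N => ¬ ∀ t < T, P ∉ bad (w - 1) (mins (F t)))).card ≤
      ∑ t ∈ range T, (bad (w - 1) (mins (F t))).card := by
    refine le_trans (card_le_card ?_) card_biUnion_le
    intro P hP
    rw [mem_filter] at hP
    have h2 := hP.2
    push Not at h2
    obtain ⟨t, ht, ht2⟩ := h2
    rw [mem_biUnion]
    exact ⟨t, mem_range.2 ht, ht2⟩
  have hsum : 2 * (∑ t ∈ range T, (bad (w - 1) (mins (F t))).card) ≤ N ^ r := by
    have hpos : 0 < N ^ (w - 1) := Nat.pow_pos hNpos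
    apply Nat.le_of_mul_le_mul_right _ hpos
    calc 2 * (∑ t ∈ range T, (bad (w - 1) (mins (F t))).card) * N ^ (w - 1)
        = 2 * ∑ t ∈ range T, (bad (w - 1) (mins (F t))).card * N ^ (w - 1) := by
          rw [mul_assoc, Finset.sum_mul]
      _ ≤ 2 * ∑ _t ∈ range T, N ^ r * (2 * S * 2 ^ w * (2 * w * K)) ^ (w - 1) :=
          Nat.mul_le_mul_left _ (sum_le_sum (fun t _ => hb t))
      _ = N ^ r * (2 * T * (2 * S * 2 ^ w * (2 * w * K)) ^ (w - 1)) := by
          rw [sum_const, card_range, smul_eq_mul]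
          ring
      _ ≤ N ^ r * N ^ (w - 1) := Nat.mul_le_mul_left _ hbad
  have hgc : N ^ r ≤ 2 * good.card := by
    have h1 := card_filter_add_card_filter_not (s := (univ : Finset (Pth r N)))
      (fun P => ∀ t < T, P ∉ bad (w - 1) (mins (F t)))
    rw [← hgood] at h1
    have h2 : (univ : Finset (Pth r N)).card = N ^ r := by
      rw [card_univ, Fintype.card_fun, Fintype.card_fin, Fintype.card_fin]
    omega
  have hcount := count_lemma (T := T) (k := k) (K := S) (Q := 2 * w * K) (V := V) good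
    (fun t P => passed M yes F t P) (fun t => mins (F t)) hS hQ
    (le_trans (Nat.mul_le_mul_right _ (Nat.mul_le_mul_left _
      (Nat.pow_le_pow_right (by norm_num) hkw))) hN) hV1 hV hk
    (fun P _ q _ => passed_zero M yes F h0 P q)
    (fun P _ q _ => passed_end M F yes no hF out (hErr T) hθ hy hn P q)
    (by
      intro t ht P hP
      obtain ⟨q₀, hq₀⟩ := hrd t P
      refine ⟨q₀, ?_⟩
      intro q hq hq2
      rw [hgood, mem_filter] at hP
      rcases passed_step hw M F yes no ep hF hnext hyes hX t P q₀ hq₀ (hP.2 t ht) q hq hq2 with h | h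
      · exact Or.inl h
      · exact Or.inr (hq₀ q hq h))
    (fun t _ P _ q hq => passed_mix M F yes hF t P q hq)
    (fun t _ => hM t)
  have hNr : 0 < N ^ r := Nat.pow_pos hNpos
  apply Nat.le_of_mul_le_mul_left _ hNr
  calc N ^ r * N ^ k ≤ 2 * good.card * N ^ k := Nat.mul_le_mul_right _ hgc
    _ = 2 * (good.card * N ^ k) := by ring
    _ ≤ 2 * (N ^ r * (2 ^ V * (8 * V * 2 ^ k * (2 * w * K) * S) ^ k)) :=
        Nat.mul_le_mul_left _ hcount
    _ = N ^ r * (2 * (2 ^ V * (8 * V * 2 ^ k * (2 * w * K) * S) ^ k)) := by ring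

end MTB
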