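import Mathlib

/-!
# MTB.Model (MP_e46137_lc): monotone machines with `S` bits of memory; monotone straight line programs
-/

namespace MTB

/-- A monotone machine for digraphs on `Fin n` with `S` bits of memory.  Step `t` reads all arcs
incident to the vertex `v t` and applies an arbitrary monotone map to the memory and these arcs. -/
structure Mach (n S : ℕ) where
  init : Fin S → Bool
  v : ℕ → Fin n
  next : ℕ → (Fin S → Bool) → (Fin n → Fin n → Bool) → (Fin S → Bool)
  mono : ∀ t (σ σ' : Fin S → Bool) (G G' : Fin n → Fin n → Bool), σ ≤ σ' →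
    (∀ u, G (v t) u ≤ G' (v t) u ∧ G u (v t) ≤ G' u (v t)) → next t σ G ≤ next t σ' G'

/-- the memory after `t` steps on the digraph `G` -/
def Mach.run {n S : ℕ} (M : Mach n S) (G : Fin n → Fin n → Bool) : ℕ → Fin S → Bool
  | 0 => M.init
  | t + 1 => M.next t (M.run G t) G

/-- `G` has a walk with exactly `l` arcs from `u` to `v` -/
def HasWalk {V : Type} (G : V → V → Bool) : ℕ → V → V → Prop
  | 0, u, v => u = v
  | l + 1, u, v => ∃ w, HasWalk G l u w ∧ G w v = true

/-- `v` is reachable from `u` in the digraph `G` -/
def Reach {V : Type} (G : V → V → Bool) (u v : V) : Prop :=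
  Relation.ReflTransGen (fun a b => G a b = true) u v

/-- After `T` steps the output bit is `true` on the digraphs with a walk of at most `l` arcs from
`s` to `t` and `false` on the digraphs in which `t` is not reachable from `s`. -/
def Decides {n S : ℕ} (M : Mach n S) (out : Fin S) (T l : ℕ) (s t : Fin n) : Prop :=
  ∀ G : Fin n → Fin n → Bool,
    ((∃ l' ≤ l, HasWalk G l' s t) → M.run G T out = true) ∧
    (¬ Reach G s t → M.run G T out = false)

/-- The same for undirected graphs (symmetric `G`) only. -/
def DecidesSym {n S : ℕ} (M : Mach n S) (out : Fin S) (T l : ℕ) (s t : Fin n) : Prop :=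
  ∀ G : Fin n → Fin n → Bool, (∀ u v, G u v = G v u) →
    ((∃ l' ≤ l, HasWalk G l' s t) → M.run G T out = true) ∧
    (¬ Reach G s t → M.run G T out = false)

/-- A machine all of whose steps are the simplest monotone instructions: a constant, one input bit,
an `and` or an `or` of two memory bits is written to one memory bit (straight line program =
monotone circuit of width `S`). -/
def Mach.Simple {n S : ℕ} (M : Mach n S) : Prop := ∀ t, ∃ i : Fin S,
  (∃ b, ∀ σ G, M.next t σ G = Function.update σ i b) ∨
  (∃ u, ∀ σ G, M.next t σ G = Function.update σ i (G (M.v t) u)) ∨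
  (∃ j l, ∀ σ G, M.next t σ G = Function.update σ i (σ j && σ l)) ∨
  (∃ j l, ∀ σ G, M.next t σ G = Function.update σ i (σ j || σ l))

/-- instructions of a monotone straight line program; `ρ` = registers, `A` = input bits -/
inductive Instr (A ρ : Type) where
  | const (i : ρ) (b : Bool)
  | input (i : ρ) (a : A)
  | and (i j l : ρ)
  | or (i j l : ρ)

/-- effect of an instruction on the registers, `g` = the input -/
def Instr.apply {A ρ : Type} [DecidableEq ρ] (g : A → Bool) :
    Instr A ρ → (ρ → Bool) → (ρ → Bool)
  | .const i b, σ => Function.update σ i b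
  | .input i a, σ => Function.update σ i (g a)
  | .and i j l, σ => Function.update σ i (σ j && σ l)
  | .or i j l, σ => Function.update σ i (σ j || σ l)

/-- run a program -/
def exec {A ρ : Type} [DecidableEq ρ] (g : A → Bool) (p : List (Instr A ρ)) (σ : ρ → Bool) :
    ρ → Bool :=
  p.foldl (fun σ I => I.apply g σ) σ

/-- change the names of the registers -/
def Instr.map {A ρ ρ' : Type} (f : ρ → ρ') : Instr A ρ → Instr A ρ'
  | .const i b => .const (f i) b
  | .input i a => .input (f i) a
  | .and i j l => .and (f i) (f j) (f l)
  | .or i j l => .or (f i) (f j) (f l)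

/-- the instruction uses only registers in `U` -/
def Instr.Uses {A ρ : Type} (U : Set ρ) : Instr A ρ → Prop
  | .const i _ => i ∈ U
  | .input i _ => i ∈ U
  | .and i j l => i ∈ U ∧ j ∈ U ∧ l ∈ U
  | .or i j l => i ∈ U ∧ j ∈ U ∧ l ∈ U

end MTB
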