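import Pool.Agent.Lib.MTB.Core
import Pool.Agent.Lib.MTB.Model

/-!
# MTB.Embed (MP_e46137_lc): layered digraphs inside the digraphs on `Fin n`

Choose an injective `y : Fin r × Fin N → Fin n` avoiding `s`, `t`.  `ep P q` = the arc from
`y (q - 1, P (q - 1))` (from `s` if `q = 0`) to `y (q, P q)` (to `t` if `q = r`).  `yes P` = these
arcs only.  `no χ` = all arcs except those from the true side to the false side; `s` and the
vertices outside `s`, `t`, layers are on the true side, `t` on the false side, `y (j, a)` on the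
side `χ j a`.  `rd t` = the arcs incident to `M.v t`.
-/

namespace MTB

open Classical Finset MTS

namespace EmbedAux

/-- the abstract machine -/
private def conv {n S : ℕ} (M : Mach n S) : AMach (Fin n × Fin n) S where
  init := M.init
  rd := fun t => {e | e.1 = M.v t ∨ e.2 = M.v t}
  next := fun t σ x => M.next t σ (fun a b => x (a, b))
  mono := by
    intro t σ σ' x y hσ hx
    apply M.mono t σ σ' _ _ hσ
    intro u
    exact ⟨hx _ (Or.inl rfl), hx _ (Or.inr rfl)⟩

private theorem run_conv {n S : ℕ} (M : Mach n S) (x : Fin n × Fin n → Bool) (T : ℕ) :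
    (conv M).run x T = M.run (fun a b => x (a, b)) T := by
  induction T with
  | zero => rfl
  | succ T ih =>
    show M.next T ((conv M).run x T) _ = M.next T (M.run _ T) _
    rw [ih]

variable {n r N : ℕ}

/-- the vertices of the path -/
private def vtx (y : Fin r × Fin N → Fin n) (s t : Fin n) (P : Pth r N) : ℕ → Fin n
  | 0 => s
  | i + 1 => if h : i < r then y (⟨i, h⟩, P ⟨i, h⟩) else t

private theorem vtx_succ (y : Fin r × Fin N → Fin n) (s t : Fin n) (P : Pth r N) (j : Fin r) :
    vtx y s t P ((j : ℕ) + 1) = y (j, P j) := by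
  show (if h : (j : ℕ) < r then y (⟨j, h⟩, P ⟨j, h⟩) else t) = _
  rw [dif_pos j.2]

private theorem vtx_last (y : Fin r × Fin N → Fin n) (s t : Fin n) (P : Pth r N) :
    vtx y s t P (r + 1) = t := by
  show (if h : r < r then y (⟨r, h⟩, P ⟨r, h⟩) else t) = _
  rw [dif_neg (lt_irrefl r)]

private theorem vtx_inj {y : Fin r × Fin N → Fin n} (hy : Function.Injective y) {s t : Fin n}
    (hst : s ≠ t) (hs : ∀ x, y x ≠ s) (ht : ∀ x, y x ≠ t) (P : Pth r N) {i i' : ℕ}
    (hi : i ≤ r + 1) (hi' : i' ≤ r + 1) (h : vtx y s t P i = vtx y s t P i') : i = i' := by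
  cases i with
  | zero =>
    cases i' with
    | zero => rfl
    | succ i' =>
      exfalso
      have h1 : s = (if h : i' < r then y (⟨i', h⟩, P ⟨i', h⟩) else t) := h
      by_cases h2 : i' < r
      · rw [dif_pos h2] at h1
        exact hs _ h1.symm
      · rw [dif_neg h2] at h1
        exact hst h1
  | succ i =>
    cases i' with
    | zero =>
      exfalso
      have h1 : (if h : i < r then y (⟨i, h⟩, P ⟨i, h⟩) else t) = s := h
      by_cases h2 : i < r
      · rw [dif_pos h2] at h1
        exact hs _ h1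
      · rw [dif_neg h2] at h1
        exact hst h1.symm
    | succ i' =>
      have h1 : (if h : i < r then y (⟨i, h⟩, P ⟨i, h⟩) else t) =
        (if h : i' < r then y (⟨i', h⟩, P ⟨i', h⟩) else t) := h
      by_cases h2 : i < r
      · rw [dif_pos h2] at h1
        by_cases h3 : i' < r
        · rw [dif_pos h3] at h1
          have h4 := congrArg (fun x => (x.1 : ℕ)) (hy h1)
          simp only at h4
          omega
        · rw [dif_neg h3] at h1
          exact absurd h1 (ht _)
      · rw [dif_neg h2] at h1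
        by_cases h3 : i' < r
        · rw [dif_pos h3] at h1
          exact absurd h1.symm (ht _)
        · omega

/-- colour of a vertex in a total colouring -/
private noncomputable def col (y : Fin r × Fin N → Fin n) (s t : Fin n) (χ : Col r N)
    (v : Fin n) : Bool :=
  if v = s then true
  else if v = t then false
  else if h : ∃ x, y x = v then χ h.choose.1 h.choose.2
  else true

private theorem col_y {y : Fin r × Fin N → Fin n} (hy : Function.Injective y) {s t : Fin n}
    (hs : ∀ x, y x ≠ s) (ht : ∀ x, y x ≠ t) (χ : Col r N) (x : Fin r × Fin N) :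
    col y s t χ (y x) = χ x.1 x.2 := by
  unfold col
  rw [if_neg (hs x), if_neg (ht x)]
  have h2 : ∃ z, y z = y x := ⟨x, rfl⟩
  rw [dif_pos h2]
  have h3 : h2.choose = x := hy h2.choose_spec
  rw [h3]

end EmbedAux

open EmbedAux in
theorem explicit {n S r N w k θ K V T : ℕ} (hn : r * N + 2 ≤ n) {s t : Fin n} (hst : s ≠ t)
    (M : Mach n S) (out : Fin S) (hM : Decides M out T (r + 1) s t)
    (hw : 2 ≤ w) (hkw : k ≤ w) (hK1 : 1 ≤ K) (hN : 2 * S * 2 ^ w * (2 * w * K) ≤ N)
    (hθ : T * (S * ((2 * (r * N) + 1) ^ w * θ)) < 2 ^ (r * N - w))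
    (hK : (2 ^ w - 1) ^ K * 2 ^ (r * N) ≤ θ * (2 ^ w) ^ K)
    (hbad : 2 * T * (2 * S * 2 ^ w * (2 * w * K)) ^ (w - 1) ≤ N ^ (w - 1))
    (hk : 2 ^ k ≤ r) (hV1 : 1 ≤ V) (hV : T ≤ 2 ^ V) :
    N ^ k ≤ 2 * (2 ^ V * (8 * V * 2 ^ k * (2 * w * K) * S) ^ k) := by
  -- the vertices of the layers
  obtain ⟨y, hy, hs, ht⟩ : ∃ y : Fin r × Fin N → Fin n, Function.Injective y ∧
      (∀ x, y x ≠ s) ∧ ∀ x, y x ≠ t := by
    have h1 : Fintype.card (Fin r × Fin N) ≤ Fintype.card {v : Fin n // v ≠ s ∧ v ≠ t} := by
      rw [Fintype.card_prod, Fintype.card_fin, Fintype.card_fin, Fintype.card_subtype]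
      have h2 : (univ.filter (fun v : Fin n => v ≠ s ∧ v ≠ t)) = (univ.erase s).erase t := by
        ext v
        simp [and_comm]
      rw [h2, card_erase_of_mem (mem_erase.2 ⟨hst.symm, mem_univ _⟩),
        card_erase_of_mem (mem_univ _), card_univ, Fintype.card_fin]
      omega
    obtain ⟨f⟩ := Function.Embedding.nonempty_of_card_le h1
    exact ⟨fun x => (f x).1, fun x x' h => f.injective (Subtype.ext h), fun x => (f x).2.1,
      fun x => (f x).2.2⟩
  let ep : Pth r N → ℕ → Fin n × Fin n := fun P q => (vtx y s t P q, vtx y s t P (q + 1))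
  let yes : Pth r N → Fin n × Fin n → Bool := fun P e => decide (∃ q ≤ r, e = ep P q)
  let no : Col r N → Fin n × Fin n → Bool := fun χ e =>
    decide (col y s t χ e.1 = false ∨ col y s t χ e.2 = true)
  have hinj := fun P (i i' : ℕ) => vtx_inj hy hst hs ht P (i := i) (i' := i')
  refine core (k := k) (θ := θ) (K := K) (V := V) (T := T) (conv M) out yes no ep ?_ ?_ ?_ ?_ ?_
    hw hkw hK1 hN hθ hK hbad hk hV1 hV
  · intro P a ha
    exact of_decide_eq_true ha
  · intro P q hq q' hq' hne
    rcases Nat.lt_or_ge q' q with hlt | hge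
    · refine ⟨⟨q', by omega⟩, fun χ hχ => decide_eq_true (Or.inr ?_)⟩
      have h1 : (ep P q').2 = y (⟨q', by omega⟩, P ⟨q', by omega⟩) :=
        vtx_succ y s t P ⟨q', by omega⟩
      rw [h1, col_y hy hs ht]
      show χ ⟨q', _⟩ (P ⟨q', _⟩) = true
      rw [hχ]
      exact decide_eq_true hlt
    · obtain ⟨i, rfl⟩ : ∃ i, q' = i + 1 := ⟨q' - 1, by omega⟩
      refine ⟨⟨i, by omega⟩, fun χ hχ => decide_eq_true (Or.inl ?_)⟩
      have h1 : (ep P (i + 1)).1 = y (⟨i, by omega⟩, P ⟨i, by omega⟩) :=
        vtx_succ y s t P ⟨i, by omega⟩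
      rw [h1, col_y hy hs ht]
      show χ ⟨i, _⟩ (P ⟨i, _⟩) = false
      rw [hχ]
      exact decide_eq_false (by show ¬ i < q; omega)
  · intro τ P
    by_cases h : ∃ i ≤ r + 1, vtx y s t P i = M.v τ
    · obtain ⟨i, hi, hv⟩ := h
      refine ⟨i - 1, fun q hq hmem => ?_⟩
      rcases hmem with h1 | h1
      · have h2 : vtx y s t P q = M.v τ := h1
        have h3 := hinj P q i (by omega) hi (h2.trans hv.symm)
        omega
      · have h2 : vtx y s t P (q + 1) = M.v τ := h1
        have h3 := hinj P (q + 1) i (by omega) hi (h2.trans hv.symm)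
        omega
    · refine ⟨0, fun q hq hmem => ?_⟩
      exfalso
      apply h
      rcases hmem with h1 | h1
      · exact ⟨q, by omega, h1⟩
      · exact ⟨q + 1, by omega, h1⟩
  · intro P
    rw [run_conv]
    apply (hM _).1
    refine ⟨r + 1, le_rfl, ?_⟩
    have hwalk : ∀ i ≤ r + 1, HasWalk (fun a b => yes P (a, b)) i s (vtx y s t P i) := by
      intro i
      induction i with
      | zero => intro _; rfl
      | succ i ih =>
        intro hi
        exact ⟨vtx y s t P i, ih (by omega), decide_eq_true ⟨i, by omega, rfl⟩⟩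
    have h1 := hwalk (r + 1) le_rfl
    rwa [vtx_last] at h1
  · intro χ
    rw [run_conv]
    apply (hM _).2
    intro hreach
    have hcs : col y s t χ s = true := by
      unfold col
      rw [if_pos rfl]
    have hct : col y s t χ t = false := by
      unfold col
      rw [if_neg hst.symm, if_pos rfl]
    have hall : ∀ v, Relation.ReflTransGen (fun a b => no χ (a, b) = true) s v →
        col y s t χ v = true := by
      intro v hv
      induction hv with
      | refl => exact hcs
      | tail _ hab ih =>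
        rcases of_decide_eq_true hab with h1 | h1
        · exact absurd (h1.symm.trans ih) Bool.false_ne_true
        · exact h1
    have h1 := hall t hreach
    rw [hct] at h1
    exact Bool.false_ne_true h1

end MTB
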