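import Pool.Agent.Lib.MTB.Step
import Pool.Agent.Lib.MTB.Conv

/-!
# MTB.Iter (MP_e46137_lc): iteration over the landmarks

`R j : Fin m → Fin n` is the `j`-th list of landmarks, `s = R j i₀`, `t = R j i₁`.  Rows: `2 h` =
the current set of landmarks, `2 h + 1` = the next one, `2 h + 2` contains the output register.
Program: clear the output; for every `j`: clear row `2 h`, set its register `i₀`; `m` times:
`exists_step` from row `2 h` to row `2 h + 1`, copy it back; finally output := output ∨ register
`(2 h, i₁)`.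
-/

namespace MTB

open Classical

namespace IterAux

theorem exec_append {A ρ : Type} [DecidableEq ρ] (g : A → Bool) (p q : List (Instr A ρ))
    (σ : ρ → Bool) : exec g (p ++ q) σ = exec g q (exec g p σ) := by
  unfold exec
  rw [List.foldl_append]

theorem exec_cons {A ρ : Type} [DecidableEq ρ] (g : A → Bool) (I : Instr A ρ)
    (p : List (Instr A ρ)) (σ : ρ → Bool) : exec g (I :: p) σ = exec g p (I.apply g σ) := rfl

theorem exec_out {A ρ ι : Type} [DecidableEq ρ] (g : A → Bool) (I : ι → Instr A ρ) (f : ι → ρ)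
    (v : ι → (ρ → Bool) → Bool) (hI : ∀ i σ, (I i).apply g σ = Function.update σ (f i) (v i σ))
    (L : List ι) (σ : ρ → Bool) (ρ₀ : ρ) (h0 : ∀ i ∈ L, f i ≠ ρ₀) :
    exec g (L.map I) σ ρ₀ = σ ρ₀ := by
  induction L generalizing σ with
  | nil => rfl
  | cons a L ih =>
    rw [List.map_cons, exec_cons, ih _ (fun i hi => h0 i (List.mem_cons_of_mem _ hi)), hI,
      Function.update_of_ne (h0 a List.mem_cons_self).symm]

theorem exec_in {A ρ ι : Type} [DecidableEq ρ] (g : A → Bool) (I : ι → Instr A ρ) (f : ι → ρ)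
    (v : ι → (ρ → Bool) → Bool) (hI : ∀ i σ, (I i).apply g σ = Function.update σ (f i) (v i σ))
    (hf : Function.Injective f) (hv : ∀ i j σ b, v i (Function.update σ (f j) b) = v i σ)
    (L : List ι) (σ : ρ → Bool) (i : ι) (hi : i ∈ L) :
    exec g (L.map I) σ (f i) = v i σ := by
  induction L generalizing σ with
  | nil => exact absurd hi List.not_mem_nil
  | cons a L ih =>
    rw [List.map_cons, exec_cons]
    by_cases h : i ∈ L
    · rw [ih _ h, hI, hv]
    · have hia : i = a := by
        rcases List.mem_cons.1 hi with h1 | h1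
        · exact h1
        · exact absurd h1 h
      subst hia
      rw [exec_out g I f v hI L _ _ (fun i' hi' he => h (by
        have h2 := hf he
        rw [← h2]
        exact hi')), hI, Function.update_self]

theorem reach_iter {m : ℕ} (r : Fin m → Fin m → Prop) (hr : ∀ a, r a a) (i₀ i₁ : Fin m)
    (P : ℕ → Fin m → Prop) (h0 : ∀ i, P 0 i ↔ i = i₀)
    (hs : ∀ k b, P (k + 1) b ↔ ∃ a, P k a ∧ r a b) :
    P m i₁ ↔ Relation.ReflTransGen r i₀ i₁ := by
  have hmono : ∀ k b, P k b → P (k + 1) b := fun k b h => (hs k b).2 ⟨b, h, hr b⟩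
  have hmono2 : ∀ l k b, P k b → P (k + l) b := by
    intro l
    induction l with
    | zero => intro k b h; exact h
    | succ l ih => intro k b h; exact hmono _ _ (ih k b h)
  constructor
  · intro h
    have key : ∀ k b, P k b → Relation.ReflTransGen r i₀ b := by
      intro k
      induction k with
      | zero =>
        intro b hb
        rw [(h0 b).1 hb]
      | succ k ih =>
        intro b hb
        obtain ⟨a, ha, hab⟩ := (hs k b).1 hb
        exact (ih a ha).tail hab
    exact key m i₁ h
  · intro h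
    obtain ⟨k, hk, hst⟩ : ∃ k ≤ m, ∀ b, P (k + 1) b → P k b := by
      by_contra hcon
      push Not at hcon
      have hc : ∀ k, k ≤ m + 1 → k + 1 ≤ (Finset.univ.filter (fun b => P k b)).card := by
        intro k
        induction k with
        | zero =>
          intro _
          exact Finset.card_pos.2 ⟨i₀, Finset.mem_filter.2 ⟨Finset.mem_univ _, (h0 i₀).2 rfl⟩⟩
        | succ k ih =>
          intro hk
          have h1 := ih (by omega)
          obtain ⟨b, hb1, hb2⟩ := hcon k (by omega)
          have h2 : (Finset.univ.filter (fun b => P k b)).card <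
              (Finset.univ.filter (fun b => P (k + 1) b)).card := by
            apply Finset.card_lt_card
            rw [Finset.ssubset_iff_of_subset]
            · exact ⟨b, Finset.mem_filter.2 ⟨Finset.mem_univ _, hb1⟩,
                fun hb => hb2 (Finset.mem_filter.1 hb).2⟩
            · intro c hc
              exact Finset.mem_filter.2 ⟨Finset.mem_univ _, hmono k c (Finset.mem_filter.1 hc).2⟩
          omega
      have h1 := hc (m + 1) le_rfl
      have h2 := Finset.card_le_univ (Finset.univ.filter (fun b => P (m + 1) b))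
      rw [Fintype.card_fin] at h2
      omega
    have h1 : P k i₁ := by
      induction h with
      | refl =>
        have := hmono2 k 0 i₀ ((h0 i₀).2 rfl)
        rwa [Nat.zero_add] at this
      | tail _ hbc ih => exact hst _ ((hs k _).2 ⟨_, ih, hbc⟩)
    have h2 := hmono2 (m - k) k i₁ h1
    rwa [Nat.add_sub_cancel' hk] at h2

/-- repetition of a program -/
def rep {α : Type} (b : List α) : ℕ → List α
  | 0 => []
  | k + 1 => rep b k ++ b

theorem rep_length {α : Type} (b : List α) (k : ℕ) : (rep b k).length = k * b.length := by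
  induction k with
  | zero => simp [rep]
  | succ k ih => rw [rep, List.length_append, ih, Nat.succ_mul]

theorem mem_rep {α : Type} {b : List α} {k : ℕ} {x : α} (h : x ∈ rep b k) : x ∈ b := by
  induction k with
  | zero => exact absurd h List.not_mem_nil
  | succ k ih =>
    rw [rep, List.mem_append] at h
    rcases h with h | h
    · exact ih h
    · exact h

theorem uses_mono {A ρ : Type} {U V : Set ρ} (hUV : U ⊆ V) {I : Instr A ρ} (h : I.Uses U) :
    I.Uses V := by
  cases I with
  | const i b => exact hUV h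
  | input i a => exact hUV h
  | and i j l => exact ⟨hUV h.1, hUV h.2.1, hUV h.2.2⟩
  | or i j l => exact ⟨hUV h.1, hUV h.2.1, hUV h.2.2⟩

theorem wlk_refl {n : ℕ} (G : Fin n → Fin n → Bool) (h : ℕ) (u : Fin n) : wlk G h u u :=
  ⟨0, Nat.zero_le _, rfl⟩

/-- used registers -/
def UU (m h : ℕ) : Set (Option (ℕ × Fin m)) :=
  {ρ | ρ = none ∨ ∃ row i, ρ = some (row, i) ∧ row < 2 * h + 3}

theorem mem_UU {m h row : ℕ} {i : Fin m} (hr : row < 2 * h + 3) :
    (some (row, i) : Option (ℕ × Fin m)) ∈ UU m h := Or.inr ⟨row, i, rfl, hr⟩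

theorem exists_block {n m B : ℕ} (C : Fin B → Fin m → Fin n) (hC : ∀ v, ∃ c i, C c i = v)
    (h : ℕ) (X : Fin m → Fin n) (i₀ i₁ : Fin m) :
    ∃ p : List (Instr (Fin n × Fin n) (Option (ℕ × Fin m))),
      p.length ≤ m + m * (5 * m ^ 2 * (4 * B) ^ h + m) + 1 ∧ (∀ I ∈ p, I.Uses (UU m h)) ∧
      ∀ (G : Fin n → Fin n → Bool) (σ : Option (ℕ × Fin m) → Bool),
        (exec (fun e : Fin n × Fin n => G e.1 e.2) p σ (some (2 * h + 2, i₀)) = true ↔
          (σ (some (2 * h + 2, i₀)) = true ∨
            Relation.ReflTransGen (fun a b : Fin m => wlk G h (X a) (X b)) i₀ i₁)) := by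
  obtain ⟨st, hst1, hst2, hst3⟩ := exists_step C hC h X X (2 * h) (2 * h + 1) (by omega) le_rfl
    (by omega)
  let clr : List (Instr (Fin n × Fin n) (Option (ℕ × Fin m))) :=
    (List.finRange m).map (fun i => Instr.const (some (2 * h, i)) (decide (i = i₀)))
  let cpy : List (Instr (Fin n × Fin n) (Option (ℕ × Fin m))) :=
    (List.finRange m).map (fun i => Instr.or (some (2 * h, i)) (some (2 * h + 1, i))
      (some (2 * h + 1, i)))
  have hne : ∀ (a b : ℕ) (i j : Fin m), a ≠ b →
      (some (a, i) : Option (ℕ × Fin m)) ≠ some (b, j) := by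
    intro a b i j hab he
    exact hab (congrArg Prod.fst (Option.some_injective _ he))
  have hinj : Function.Injective (fun i : Fin m => (some (2 * h, i) : Option (ℕ × Fin m))) := by
    intro i j he
    exact congrArg Prod.snd (Option.some_injective _ he)
  refine ⟨clr ++ (rep (st ++ cpy) m ++ [Instr.or (some (2 * h + 2, i₀)) (some (2 * h + 2, i₀))
    (some (2 * h, i₁))]), ?_, ?_, ?_⟩
  · have e1 : clr.length = m := by
      show ((List.finRange m).map _).length = m
      rw [List.length_map, List.length_finRange]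
    have e2 : cpy.length = m := by
      show ((List.finRange m).map _).length = m
      rw [List.length_map, List.length_finRange]
    rw [List.length_append, List.length_append, rep_length, List.length_append, e1, e2,
      List.length_singleton]
    have e3 : m * (st.length + m) ≤ m * (5 * m ^ 2 * (4 * B) ^ h + m) :=
      Nat.mul_le_mul_left _ (by omega)
    omega
  · intro I hI
    rw [List.mem_append, List.mem_append] at hI
    rcases hI with hI | hI | hI
    · obtain ⟨i, _, rfl⟩ := List.mem_map.1 hI
      exact mem_UU (by omega)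
    · have hI := mem_rep hI
      rcases List.mem_append.1 hI with hI | hI
      · refine uses_mono ?_ (hst2 I hI)
        rintro ρ (h1 | ⟨row, i, rfl, h1⟩)
        · exact Or.inl h1
        · exact mem_UU (by omega)
      · obtain ⟨i, _, rfl⟩ := List.mem_map.1 hI
        exact ⟨mem_UU (by omega), mem_UU (by omega), mem_UU (by omega)⟩
    · rw [List.mem_singleton] at hI
      subst hI
      exact ⟨mem_UU (by omega), mem_UU (by omega), mem_UU (by omega)⟩
  · intro G σ
    have c1 : ∀ (τ : Option (ℕ × Fin m) → Bool) (i : Fin m),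
        exec (fun e : Fin n × Fin n => G e.1 e.2) clr τ (some (2 * h, i)) = decide (i = i₀) := by
      intro τ i
      exact exec_in (fun e : Fin n × Fin n => G e.1 e.2)
        (fun i => Instr.const (some (2 * h, i)) (decide (i = i₀)))
        (fun i : Fin m => (some (2 * h, i) : Option (ℕ × Fin m))) (fun i _ => decide (i = i₀))
        (fun _ _ => rfl) hinj (fun _ _ _ _ => rfl) _ τ i (List.mem_finRange i)
    have c2 : ∀ (τ : Option (ℕ × Fin m) → Bool),
        exec (fun e : Fin n × Fin n => G e.1 e.2) clr τ (some (2 * h + 2, i₀)) =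
          τ (some (2 * h + 2, i₀)) := by
      intro τ
      exact exec_out (fun e : Fin n × Fin n => G e.1 e.2)
        (fun i => Instr.const (some (2 * h, i)) (decide (i = i₀)))
        (fun i : Fin m => (some (2 * h, i) : Option (ℕ × Fin m))) (fun i _ => decide (i = i₀))
        (fun _ _ => rfl) _ τ _ (fun i _ => hne _ _ _ _ (by omega))
    have d1 : ∀ (τ : Option (ℕ × Fin m) → Bool) (i : Fin m),
        exec (fun e : Fin n × Fin n => G e.1 e.2) cpy τ (some (2 * h, i)) =
          τ (some (2 * h + 1, i)) := by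
      intro τ i
      have := exec_in (fun e : Fin n × Fin n => G e.1 e.2)
        (fun i => Instr.or (some (2 * h, i)) (some (2 * h + 1, i)) (some (2 * h + 1, i)))
        (fun i : Fin m => (some (2 * h, i) : Option (ℕ × Fin m)))
        (fun i τ => τ (some (2 * h + 1, i)) || τ (some (2 * h + 1, i)))
        (fun _ _ => rfl) hinj (fun i j τ b => by
          show (Function.update τ (some (2 * h, j)) b (some (2 * h + 1, i)) ||
            Function.update τ (some (2 * h, j)) b (some (2 * h + 1, i))) = _
          rw [Function.update_of_ne (hne _ _ _ _ (by omega))]) _ τ i (List.mem_finRange i)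
      rw [Bool.or_self] at this
      exact this
    have d2 : ∀ (τ : Option (ℕ × Fin m) → Bool),
        exec (fun e : Fin n × Fin n => G e.1 e.2) cpy τ (some (2 * h + 2, i₀)) =
          τ (some (2 * h + 2, i₀)) := by
      intro τ
      exact exec_out (fun e : Fin n × Fin n => G e.1 e.2)
        (fun i => Instr.or (some (2 * h, i)) (some (2 * h + 1, i)) (some (2 * h + 1, i)))
        (fun i : Fin m => (some (2 * h, i) : Option (ℕ × Fin m)))
        (fun i τ => τ (some (2 * h + 1, i)) || τ (some (2 * h + 1, i)))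
        (fun _ _ => rfl) _ τ _ (fun i _ => hne _ _ _ _ (by omega))
    have f1 : ∀ k, exec (fun e : Fin n × Fin n => G e.1 e.2) (rep (st ++ cpy) k)
        (exec (fun e : Fin n × Fin n => G e.1 e.2) clr σ) (some (2 * h + 2, i₀)) =
          σ (some (2 * h + 2, i₀)) := by
      intro k
      induction k with
      | zero => exact c2 σ
      | succ k ih =>
        rw [rep, exec_append, exec_append, d2, (hst3 G _).2 (2 * h + 2) i₀ (by omega) (by omega), ih]
    have f2 := reach_iter (fun a b : Fin m => wlk G h (X a) (X b)) (fun a => wlk_refl G h (X a))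
      i₀ i₁ (fun k b => exec (fun e : Fin n × Fin n => G e.1 e.2) (rep (st ++ cpy) k)
        (exec (fun e : Fin n × Fin n => G e.1 e.2) clr σ) (some (2 * h, b)) = true)
      (fun i => by
        show exec (fun e : Fin n × Fin n => G e.1 e.2) clr σ (some (2 * h, i)) = true ↔ i = i₀
        rw [c1, decide_eq_true_iff])
      (fun k b => by
        show exec (fun e : Fin n × Fin n => G e.1 e.2) (rep (st ++ cpy) k ++ (st ++ cpy))
          (exec (fun e : Fin n × Fin n => G e.1 e.2) clr σ) (some (2 * h, b)) = true ↔ _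
        rw [exec_append, exec_append, d1]
        exact (hst3 G _).1 b)
    have hlast : ∀ τ : Option (ℕ × Fin m) → Bool,
        exec (fun e : Fin n × Fin n => G e.1 e.2) [Instr.or (some (2 * h + 2, i₀))
          (some (2 * h + 2, i₀)) (some (2 * h, i₁))] τ (some (2 * h + 2, i₀)) =
          (τ (some (2 * h + 2, i₀)) || τ (some (2 * h, i₁))) := by
      intro τ
      show Function.update τ (some (2 * h + 2, i₀)) (τ (some (2 * h + 2, i₀)) ||
        τ (some (2 * h, i₁))) (some (2 * h + 2, i₀)) = _
      rw [Function.update_self]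
    rw [exec_append, exec_append, hlast, Bool.or_eq_true, f1, f2]

theorem exists_blocks {n m B J : ℕ} (C : Fin B → Fin m → Fin n) (hC : ∀ v, ∃ c i, C c i = v)
    (h : ℕ) (R : Fin J → Fin m → Fin n) (i₀ i₁ : Fin m) (L : List (Fin J)) :
    ∃ p : List (Instr (Fin n × Fin n) (Option (ℕ × Fin m))),
      p.length ≤ L.length * (m + m * (5 * m ^ 2 * (4 * B) ^ h + m) + 1) ∧
      (∀ I ∈ p, I.Uses (UU m h)) ∧
      ∀ (G : Fin n → Fin n → Bool) (σ : Option (ℕ × Fin m) → Bool),
        (exec (fun e : Fin n × Fin n => G e.1 e.2) p σ (some (2 * h + 2, i₀)) = true ↔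
          (σ (some (2 * h + 2, i₀)) = true ∨
            ∃ j ∈ L, Relation.ReflTransGen (fun a b : Fin m => wlk G h (R j a) (R j b)) i₀ i₁)) := by
  induction L with
  | nil =>
    refine ⟨[], by simp, fun I hI => absurd hI List.not_mem_nil, fun G σ => ?_⟩
    show σ _ = true ↔ _
    constructor
    · exact fun h => Or.inl h
    · rintro (h | ⟨j, hj, _⟩)
      · exact h
      · exact absurd hj List.not_mem_nil
  | cons j L ih =>
    obtain ⟨p, p1, p2, p3⟩ := ih
    obtain ⟨q, q1, q2, q3⟩ := exists_block C hC h (R j) i₀ i₁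
    refine ⟨q ++ p, ?_, ?_, fun G σ => ?_⟩
    · rw [List.length_append, List.length_cons, Nat.succ_mul]
      omega
    · intro I hI
      rcases List.mem_append.1 hI with hI | hI
      · exact q2 I hI
      · exact p2 I hI
    · rw [exec_append, p3, q3]
      constructor
      · rintro ((h1 | h1) | ⟨j', hj', h1⟩)
        · exact Or.inl h1
        · exact Or.inr ⟨j, List.mem_cons_self, h1⟩
        · exact Or.inr ⟨j', List.mem_cons_of_mem _ hj', h1⟩
      · rintro (h1 | ⟨j', hj', h1⟩)
        · exact Or.inl (Or.inl h1)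
        · rcases List.mem_cons.1 hj' with rfl | hj'
          · exact Or.inl (Or.inr h1)
          · exact Or.inr ⟨j', hj', h1⟩

theorem len_arith {m J Z : ℕ} (hm : 1 ≤ m) :
    1 + J * (m + m * (5 * m ^ 2 * Z + m) + 1) ≤ (J + 1) * (m + 1) * (20 * m ^ 2 * Z + 20 * m) := by
  have h1 : m + m * (5 * m ^ 2 * Z + m) + 1 ≤ (m + 1) * (20 * m ^ 2 * Z + 20 * m) := by
    have e : (m + 1) * (20 * m ^ 2 * Z + 20 * m) =
      m * (5 * m ^ 2 * Z + m) + (m + 1) + (m * (15 * m ^ 2 * Z) + 20 * m ^ 2 * Z + 19 * m ^ 2 +
        18 * m + (m - 1)) := by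
      obtain ⟨k, rfl⟩ : ∃ k, m = k + 1 := ⟨m - 1, by omega⟩
      simp only [Nat.add_sub_cancel]
      ring
    rw [e]
    omega
  have h2 : 1 ≤ (m + 1) * (20 * m ^ 2 * Z + 20 * m) := by
    have : 1 ≤ 20 * m ^ 2 * Z + 20 * m := by omega
    exact Nat.mul_pos (by omega) this
  calc 1 + J * (m + m * (5 * m ^ 2 * Z + m) + 1)
      ≤ (m + 1) * (20 * m ^ 2 * Z + 20 * m) + J * ((m + 1) * (20 * m ^ 2 * Z + 20 * m)) :=
        Nat.add_le_add h2 (Nat.mul_le_mul_left _ h1)
    _ = (J + 1) * (m + 1) * (20 * m ^ 2 * Z + 20 * m) := by ring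

/-- numbering of the registers -/
def num (m h : ℕ) (ρ : Option (ℕ × Fin m)) : Fin ((2 * h + 3) * m + 1) :=
  match ρ with
  | none => ⟨(2 * h + 3) * m, Nat.lt_succ_self _⟩
  | some (row, i) => if hr : row < 2 * h + 3 then ⟨row * m + i, by
      have h1 : (row + 1) * m ≤ (2 * h + 3) * m := Nat.mul_le_mul_right _ hr
      have h2 := i.2
      rw [Nat.succ_mul] at h1
      omega⟩ else ⟨(2 * h + 3) * m, Nat.lt_succ_self _⟩

theorem num_some {m h row : ℕ} {i : Fin m} (hr : row < 2 * h + 3) :
    (num m h (some (row, i)) : ℕ) = row * m + i := by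
  unfold num
  simp only [dif_pos hr]

theorem num_lt {m h row : ℕ} {i : Fin m} (hr : row < 2 * h + 3) :
    (num m h (some (row, i)) : ℕ) < (2 * h + 3) * m := by
  rw [num_some hr]
  have h1 : (row + 1) * m ≤ (2 * h + 3) * m := Nat.mul_le_mul_right _ hr
  have h2 := i.2
  rw [Nat.succ_mul] at h1
  omega

theorem num_none (m h : ℕ) : (num m h none : ℕ) = (2 * h + 3) * m := rfl

theorem num_inj (m h : ℕ) : Set.InjOn (num m h) (UU m h) := by
  rintro a ha b hb hab
  rcases ha with rfl | ⟨r1, i1, rfl, h1⟩
  · rcases hb with rfl | ⟨r2, i2, rfl, h2⟩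
    · rfl
    · exfalso
      have e := congrArg Fin.val hab
      rw [num_none] at e
      have := num_lt (i := i2) h2
      omega
  · rcases hb with rfl | ⟨r2, i2, rfl, h2⟩
    · exfalso
      have e := congrArg Fin.val hab
      rw [num_none] at e
      have := num_lt (i := i1) h1
      omega
    · have e := congrArg Fin.val hab
      rw [num_some h1, num_some h2] at e
      have hm : 0 < m := i1.pos
      have e1 : (r1 * m + i1) / m = r1 := by
        rw [Nat.add_comm, Nat.add_mul_div_right _ _ hm, Nat.div_eq_of_lt i1.2, Nat.zero_add]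
      have e2 : (r2 * m + i2) / m = r2 := by
        rw [Nat.add_comm, Nat.add_mul_div_right _ _ hm, Nat.div_eq_of_lt i2.2, Nat.zero_add]
      have e3 : r1 = r2 := by rw [← e1, ← e2, e]
      subst e3
      have e4 : i1 = i2 := Fin.ext (by omega)
      rw [e4]

end IterAux

open IterAux

/-- Program over the unbounded set of registers. -/
theorem exists_iter {n m B J : ℕ} (C : Fin B → Fin m → Fin n) (hC : ∀ v, ∃ c i, C c i = v)
    (h : ℕ) (R : Fin J → Fin m → Fin n) (i₀ i₁ : Fin m) :
    ∃ p : List (Instr (Fin n × Fin n) (Option (ℕ × Fin m))),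
      p.length ≤ (J + 1) * (m + 1) * (20 * m ^ 2 * (4 * B) ^ h + 20 * m) ∧
      (∀ I ∈ p, I.Uses {ρ | ρ = none ∨ ∃ row i, ρ = some (row, i) ∧ row < 2 * h + 3}) ∧
      ∀ (G : Fin n → Fin n → Bool) (σ : Option (ℕ × Fin m) → Bool),
        (exec (fun e : Fin n × Fin n => G e.1 e.2) p σ (some (2 * h + 2, i₀)) = true ↔
          ∃ j, Relation.ReflTransGen (fun a b : Fin m => wlk G h (R j a) (R j b)) i₀ i₁) := by
  obtain ⟨p, p1, p2, p3⟩ := exists_blocks C hC h R i₀ i₁ (List.finRange J)
  rw [List.length_finRange] at p1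
  refine ⟨Instr.const (some (2 * h + 2, i₀)) false :: p, ?_, ?_, fun G σ => ?_⟩
  · rw [List.length_cons]
    have h1 := len_arith (m := m) (J := J) (Z := (4 * B) ^ h) i₀.pos
    omega
  · intro I hI
    rcases List.mem_cons.1 hI with rfl | hI
    · exact mem_UU (by omega)
    · exact p2 I hI
  · rw [exec_cons, p3]
    constructor
    · rintro (h1 | ⟨j, _, h1⟩)
      · exfalso
        have h2 : Function.update σ (some (2 * h + 2, i₀)) false (some (2 * h + 2, i₀)) = true := h1
        rw [Function.update_self] at h2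
        exact absurd h2 Bool.false_ne_true
      · exact ⟨j, h1⟩
    · rintro ⟨j, h1⟩
      exact Or.inr ⟨j, List.mem_finRange j, h1⟩

/-- The same with `(2 h + 3) m + 1` registers, as a simple machine. -/
theorem exists_iter_mach {n m B J : ℕ} (hn : 0 < n) (C : Fin B → Fin m → Fin n) (hC : ∀ v, ∃ c i, C c i = v)
    (h : ℕ) (R : Fin J → Fin m → Fin n) (i₀ i₁ : Fin m) :
    ∃ (M : Mach n ((2 * h + 3) * m + 1)) (out : Fin ((2 * h + 3) * m + 1)) (T : ℕ),
      T ≤ (J + 1) * (m + 1) * (20 * m ^ 2 * (4 * B) ^ h + 20 * m) ∧ M.Simple ∧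
      ∀ G : Fin n → Fin n → Bool, (M.run G T out = true ↔
          ∃ j, Relation.ReflTransGen (fun a b : Fin m => wlk G h (R j a) (R j b)) i₀ i₁) := by
  obtain ⟨p, p1, p2, p3⟩ := exists_iter C hC h R i₀ i₁
  obtain ⟨M, hM1, hM2⟩ := exists_mach hn (p.map (Instr.map (num m h))) (Nat.succ_pos _)
  refine ⟨M, num m h (some (2 * h + 2, i₀)), (p.map (Instr.map (num m h))).length, ?_, hM1,
    fun G => ?_⟩
  · rw [List.length_map]
    exact p1
  · rw [hM2 G, exec_map (num m h) (UU m h) (num_inj m h) (fun e : Fin n × Fin n => G e.1 e.2) p p2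
      (fun _ => false) (some (2 * h + 2, i₀)) (mem_UU (by omega))]
    exact p3 G _

end MTB
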