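import Pool.Agent.Lib.MTB.Step

/-!
# MTB.LandB (MP_e46137_lc): landmarks, part 2 (shortest walks, hops)

The statements `exists_simple`, `hops`, `hops_sound` of MTB.Land; in `hops` the hypothesis
`Meets (2 ^ h) l p R` is unfolded.
-/

namespace MTB

namespace LandB

theorem exists_seq {n : ℕ} (G : Fin n → Fin n → Bool) (s t : Fin n) (h : Reach G s t) :
    ∃ (l : ℕ) (p : ℕ → Fin n), p 0 = s ∧ p l = t ∧ ∀ a < l, G (p a) (p (a + 1)) = true := by
  unfold Reach at h
  induction h with
  | refl => exact ⟨0, fun _ => s, rfl, rfl, fun a ha => absurd ha (Nat.not_lt_zero a)⟩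
  | tail _ hbc ih =>
    rename_i b c _
    obtain ⟨l, p, h0, h1, h2⟩ := ih
    refine ⟨l + 1, fun a => if a ≤ l then p a else c, ?_, ?_, ?_⟩
    · simp only [Nat.zero_le, if_true]
      exact h0
    · have : ¬ l + 1 ≤ l := by omega
      simp only [this, if_false]
    · intro a ha
      by_cases hal : a + 1 ≤ l
      · have h3 : a ≤ l := by omega
        simp only [hal, h3, if_true]
        exact h2 a (by omega)
      · have h3 : a = l := by omega
        subst h3
        have h4 : ¬ a + 1 ≤ a := by omega
        simp only [h4, if_false, le_refl, if_true]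
        rw [h1]
        exact hbc

/-- a shortest walk is an injective sequence -/
theorem exists_simple {n : ℕ} (G : Fin n → Fin n → Bool) (s t : Fin n) (h : Reach G s t) :
    ∃ (l : ℕ) (p : ℕ → Fin n), Set.InjOn p (Set.Iic l) ∧ p 0 = s ∧ p l = t ∧
      ∀ a < l, G (p a) (p (a + 1)) = true := by
  classical
  have hex := exists_seq G s t h
  obtain ⟨p, h0, h1, h2⟩ := Nat.find_spec hex
  have hmin := fun m hm => Nat.find_min (H := hex) (m := m) hm
  set l := Nat.find hex with hl
  refine ⟨l, p, ?_, h0, h1, h2⟩
  have key : ∀ a b, a < b → b ≤ l → p a ≠ p b := by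
    intro a b hab hbl heq
    apply hmin (l - (b - a)) (by omega)
    refine ⟨fun c => if c ≤ a then p c else p (c + (b - a)), ?_, ?_, ?_⟩
    · simp only [Nat.zero_le, if_true]
      exact h0
    · by_cases hc : l - (b - a) ≤ a
      · have hbl' : b = l := by omega
        have hca : l - (b - a) = a := by omega
        simp only [hc, if_true]
        rw [hca, heq, hbl', h1]
      · simp only [hc, if_false]
        have : l - (b - a) + (b - a) = l := by omega
        rw [this, h1]
    · intro c hc
      by_cases hc1 : c + 1 ≤ a
      · have hc2 : c ≤ a := by omega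
        simp only [hc1, hc2, if_true]
        exact h2 c (by omega)
      · by_cases hc2 : c ≤ a
        · have hca : c = a := by omega
          subst hca
          simp only [hc1, hc2, if_true, if_false]
          have : c + 1 + (b - c) = b + 1 := by omega
          rw [this, heq]
          exact h2 b (by omega)
        · simp only [hc1, hc2, if_false]
          have : c + 1 + (b - a) = c + (b - a) + 1 := by omega
          rw [this]
          exact h2 _ (by omega)
  intro a ha b hb hab
  rw [Set.mem_Iic] at ha hb
  rcases lt_trichotomy a b with h3 | h3 | h3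
  · exact absurd hab (key a b h3 hb)
  · exact h3
  · exact absurd hab.symm (key b a h3 ha)

theorem walk_seg {n l : ℕ} (G : Fin n → Fin n → Bool) (p : ℕ → Fin n)
    (hp : ∀ a < l, G (p a) (p (a + 1)) = true) (b : ℕ) :
    ∀ k, b + k ≤ l → HasWalk G k (p b) (p (b + k)) := by
  intro k
  induction k with
  | zero => exact fun _ => rfl
  | succ k ih =>
    intro hk
    exact ⟨p (b + k), ih (by omega), hp _ (by omega)⟩

/-- Landmarks which meet all windows of `2 ^ h` vertices of a path from `s` to `t`, and contain `s`
and `t`, carry `s` to `t` by hops of at most `2 ^ h` arcs. -/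
theorem hops {n m h l : ℕ} (G : Fin n → Fin n → Bool) (p : ℕ → Fin n)
    (hp : ∀ a < l, G (p a) (p (a + 1)) = true) (R : Fin m → Fin n) (i₀ i₁ : Fin m)
    (h0 : R i₀ = p 0) (h1 : R i₁ = p l)
    (hR : ∀ a, a + 2 ^ h ≤ l + 1 → ∃ i b, a ≤ b ∧ b < a + 2 ^ h ∧ R i = p b) :
    Relation.ReflTransGen (fun a b : Fin m => wlk G h (R a) (R b)) i₀ i₁ := by
  have key : ∀ k b i, l = b + k → R i = p b →
      Relation.ReflTransGen (fun a b : Fin m => wlk G h (R a) (R b)) i i₁ := by
    intro k
    induction k using Nat.strong_induction_on with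
    | _ k ih =>
      intro b i hk hi
      by_cases hk2 : k ≤ 2 ^ h
      · refine Relation.ReflTransGen.single ⟨k, hk2, ?_⟩
        rw [hi, h1, hk]
        exact walk_seg G p hp b k (by omega)
      · obtain ⟨i', b', hb1, hb2, hi'⟩ := hR (b + 1) (by omega)
        refine Relation.ReflTransGen.head ⟨b' - b, by omega, ?_⟩
          (ih (l - b') (by omega) b' i' (by omega) hi')
        rw [hi, hi']
        have h3 := walk_seg G p hp b (b' - b) (by omega)
        have h4 : b + (b' - b) = b' := by omega
        rw [h4] at h3
        exact h3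
  exact key l 0 i₀ (by omega) h0

theorem reach_of_walk {V : Type} (G : V → V → Bool) (l : ℕ) (u v : V) (h : HasWalk G l u v) :
    Reach G u v := by
  induction l generalizing v with
  | zero =>
    have h' : u = v := h
    rw [h']
    exact Relation.ReflTransGen.refl
  | succ l ih =>
    obtain ⟨w, hw, hG⟩ := h
    exact Relation.ReflTransGen.tail (ih w hw) hG

theorem hops_sound {n m h : ℕ} (G : Fin n → Fin n → Bool) (R : Fin m → Fin n) (i₀ i₁ : Fin m)
    (H : Relation.ReflTransGen (fun a b : Fin m => wlk G h (R a) (R b)) i₀ i₁) :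
    Reach G (R i₀) (R i₁) := by
  induction H with
  | refl => exact Relation.ReflTransGen.refl
  | tail _ hbc ih =>
    obtain ⟨l, _, hl⟩ := hbc
    exact Relation.ReflTransGen.trans ih (reach_of_walk G l _ _ hl)

end LandB

end MTB
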