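import Pool.Agent.Lib.MTB.LandA
import Pool.Agent.Lib.MTB.LandB

/-!
# MTB.Land (MP_e46137_lc): landmarks
-/

namespace MTB

open Classical

/-- a shortest walk is an injective sequence -/
theorem exists_simple {n : ℕ} (G : Fin n → Fin n → Bool) (s t : Fin n) (h : Reach G s t) :
    ∃ (l : ℕ) (p : ℕ → Fin n), Set.InjOn p (Set.Iic l) ∧ p 0 = s ∧ p l = t ∧
      ∀ a < l, G (p a) (p (a + 1)) = true :=
  LandB.exists_simple G s t h

/-- Landmarks which meet all windows of `2 ^ h` vertices of a path from `s` to `t`, and contain `s`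
and `t`, carry `s` to `t` by hops of at most `2 ^ h` arcs. -/
theorem hops {n m h l : ℕ} (G : Fin n → Fin n → Bool) (p : ℕ → Fin n)
    (hp : ∀ a < l, G (p a) (p (a + 1)) = true) (R : Fin m → Fin n) (i₀ i₁ : Fin m)
    (h0 : R i₀ = p 0) (h1 : R i₁ = p l) (hR : Meets (2 ^ h) l p R) :
    Relation.ReflTransGen (fun a b : Fin m => wlk G h (R a) (R b)) i₀ i₁ :=
  LandB.hops G p hp R i₀ i₁ h0 h1 hR

theorem hops_sound {n m h : ℕ} (G : Fin n → Fin n → Bool) (R : Fin m → Fin n) (i₀ i₁ : Fin m)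
    (H : Relation.ReflTransGen (fun a b : Fin m => wlk G h (R a) (R b)) i₀ i₁) :
    Reach G (R i₀) (R i₁) :=
  LandB.hops_sound G R i₀ i₁ H

end MTB
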