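import Pool.Agent.Lib.MTB.Step

/-!
# MTB.LandA (MP_e46137_lc): existence of landmarks (double counting)
-/

namespace MTB

open Classical

/-- For every finite set of tests, each passed by at least half of the candidates, a list of
`Nat.clog 2 (#tests + 1)` (here: `L` with `#tests < 2 ^ L`) candidates is enough. -/
theorem exists_cover_list {α β : Type} [Fintype α] [Nonempty α] (T : Finset β)
    (ok : α → β → Prop) (h : ∀ b ∈ T, Fintype.card α ≤ 2 * (Finset.univ.filter (fun a => ok a b)).card)
    (L : ℕ) (hL : T.card < 2 ^ L) : ∃ c : Fin L → α, ∀ b ∈ T, ∃ j, ok (c j) b := by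
  induction L generalizing T with
  | zero =>
    refine ⟨fun j => j.elim0, fun b hb => ?_⟩
    have h1 := Finset.card_pos.2 ⟨b, hb⟩
    rw [pow_zero] at hL
    omega
  | succ L ih =>
    -- double counting
    have hdc : ∑ a : α, (T.filter (fun b => ok a b)).card =
        ∑ b ∈ T, (Finset.univ.filter (fun a => ok a b)).card := by
      simp only [Finset.card_filter]
      exact Finset.sum_comm
    have h1 : ∑ _b ∈ T, Fintype.card α ≤ 2 * ∑ a : α, (T.filter (fun b => ok a b)).card := by
      rw [hdc, Finset.mul_sum]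
      exact Finset.sum_le_sum h
    rw [Finset.sum_const, smul_eq_mul] at h1
    have h2 : ∃ a : α, T.card ≤ 2 * (T.filter (fun b => ok a b)).card := by
      by_contra hno
      push Not at hno
      have h3 : ∑ a : α, 2 * (T.filter (fun b => ok a b)).card < ∑ _a : α, T.card :=
        Finset.sum_lt_sum_of_nonempty Finset.univ_nonempty fun a _ => hno a
      rw [Finset.sum_const, smul_eq_mul, Finset.card_univ, ← Finset.mul_sum,
        mul_comm (Fintype.card α) T.card] at h3
      omega
    obtain ⟨a, ha⟩ := h2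
    have h3 := Finset.card_filter_add_card_filter_not (s := T) (fun b => ok a b)
    obtain ⟨c, hc⟩ := ih (T.filter (fun b => ¬ ok a b))
      (fun b hb => h b (Finset.mem_filter.1 hb).1) (by rw [pow_succ] at hL; omega)
    refine ⟨Fin.cons a c, fun b hb => ?_⟩
    by_cases hab : ok a b
    · exact ⟨0, by rw [Fin.cons_zero]; exact hab⟩
    · obtain ⟨j, hj⟩ := hc b (Finset.mem_filter.2 ⟨hb, hab⟩)
      exact ⟨j.succ, by rw [Fin.cons_succ]; exact hj⟩

/-- the lists of `m` vertices which meet every window of `w` consecutive vertices of the path -/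
def Meets {n m : ℕ} (w l : ℕ) (p : ℕ → Fin n) (R : Fin m → Fin n) : Prop :=
  ∀ a, a + w ≤ l + 1 → ∃ i b, a ≤ b ∧ b < a + w ∧ R i = p b

namespace LandAAux

theorem length_le {n l : ℕ} (p : ℕ → Fin n) (hp : Set.InjOn p (Set.Iic l)) : l + 1 ≤ n := by
  have h1 : (Finset.range (l + 1)).card ≤ (Finset.univ : Finset (Fin n)).card :=
    Finset.card_le_card_of_injOn p (fun _ _ => Finset.mem_coe.2 (Finset.mem_univ _))
      (fun a ha b hb hab => by
        refine hp ?_ ?_ hab
        · exact Set.mem_Iic.2 (Nat.lt_succ_iff.1 (Finset.mem_range.1 (Finset.mem_coe.1 ha)))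
        · exact Set.mem_Iic.2 (Nat.lt_succ_iff.1 (Finset.mem_range.1 (Finset.mem_coe.1 hb))))
  rwa [Finset.card_range, Finset.card_univ, Fintype.card_fin] at h1

/-- the lists which miss a window -/
theorem card_miss {n m w l : ℕ} (p : ℕ → Fin n) (hp : Set.InjOn p (Set.Iic l)) (a : ℕ)
    (ha : a + w ≤ l + 1) :
    (Finset.univ.filter (fun R : Fin m → Fin n => ∀ i b, a ≤ b → b < a + w → R i ≠ p b)).card ≤
      (n - w) ^ m := by
  let W : Finset (Fin n) := (Finset.Ico a (a + w)).image p
  have hW : W.card = w := by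
    have h1 : W.card = (Finset.Ico a (a + w)).card := by
      apply Finset.card_image_of_injOn
      intro x hx y hy hxy
      have hx' := Finset.mem_Ico.1 (Finset.mem_coe.1 hx)
      have hy' := Finset.mem_Ico.1 (Finset.mem_coe.1 hy)
      exact hp (Set.mem_Iic.2 (by omega)) (Set.mem_Iic.2 (by omega)) hxy
    rw [h1, Nat.card_Ico]
    omega
  have h2 : (Finset.univ.filter (fun R : Fin m → Fin n =>
      ∀ i b, a ≤ b → b < a + w → R i ≠ p b)) ⊆ Fintype.piFinset (fun _ : Fin m => Wᶜ) := by
    intro R hR
    have hR' := (Finset.mem_filter.1 hR).2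
    rw [Fintype.mem_piFinset]
    intro i
    rw [Finset.mem_compl]
    intro hi
    obtain ⟨b, hb, hbR⟩ := Finset.mem_image.1 hi
    have hb' := Finset.mem_Ico.1 hb
    exact hR' i b hb'.1 hb'.2 hbR.symm
  refine (Finset.card_le_card h2).trans ?_
  rw [Fintype.card_piFinset, Finset.prod_const, Finset.card_univ, Fintype.card_fin,
    Finset.card_compl, hW, Fintype.card_fin]

end LandAAux

open LandAAux

/-- at least half of the lists are good for a given path (a window with `w` different vertices is
missed by `(n - w) ^ m` lists, there are at most `n` windows) -/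
theorem half_good {n m w l : ℕ} (hm : 2 * n * (n - w) ^ m ≤ n ^ m) (p : ℕ → Fin n)
    (hp : Set.InjOn p (Set.Iic l)) :
    Fintype.card (Fin m → Fin n) ≤
      2 * (Finset.univ.filter (fun R : Fin m → Fin n => Meets w l p R)).card := by
  have hl := length_le p hp
  have hcard : Fintype.card (Fin m → Fin n) = n ^ m := by
    rw [Fintype.card_fun, Fintype.card_fin, Fintype.card_fin]
  have hw : 1 ≤ w := by
    rcases Nat.eq_zero_or_pos w with h0 | h0
    · exfalso
      subst h0
      rw [Nat.sub_zero] at hm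
      have h1 : 0 < n ^ m := pow_pos (by omega) m
      nlinarith
    · exact h0
  have hbad : (Finset.univ.filter (fun R : Fin m → Fin n => ¬ Meets w l p R)).card ≤
      n * (n - w) ^ m := by
    have h1 : (Finset.univ.filter (fun R : Fin m → Fin n => ¬ Meets w l p R)) ⊆
        (Finset.range (l + 2 - w)).biUnion (fun a => Finset.univ.filter
          (fun R : Fin m → Fin n => ∀ i b, a ≤ b → b < a + w → R i ≠ p b)) := by
      intro R hR
      have hR' := (Finset.mem_filter.1 hR).2
      unfold Meets at hR'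
      push Not at hR'
      obtain ⟨a, ha, hno⟩ := hR'
      refine Finset.mem_biUnion.2 ⟨a, Finset.mem_range.2 (by omega),
        Finset.mem_filter.2 ⟨Finset.mem_univ _, fun i b h2 h3 => hno i b h2 h3⟩⟩
    refine (Finset.card_le_card h1).trans (Finset.card_biUnion_le.trans ?_)
    have h2 : ∑ a ∈ Finset.range (l + 2 - w), (Finset.univ.filter
        (fun R : Fin m → Fin n => ∀ i b, a ≤ b → b < a + w → R i ≠ p b)).card ≤
        ∑ _a ∈ Finset.range (l + 2 - w), (n - w) ^ m := by
      refine Finset.sum_le_sum fun a ha => card_miss p hp a ?_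
      have := Finset.mem_range.1 ha
      omega
    refine h2.trans ?_
    rw [Finset.sum_const, Finset.card_range, smul_eq_mul]
    exact Nat.mul_le_mul_right _ (by omega)
  have h3 := Finset.card_filter_add_card_filter_not (s := (Finset.univ : Finset (Fin m → Fin n)))
    (fun R => Meets w l p R)
  rw [Finset.card_univ, hcard] at h3
  rw [hcard]
  have h4 : 2 * (n * (n - w) ^ m) ≤ n ^ m := by
    rw [← mul_assoc]
    exact hm
  omega

/-- `(n + 1) ^ 2` lists serve all paths (there are at most `n ^ (n + 1)` pairs `(l, p|[0, l])`) -/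
theorem exists_landmarks {n m w : ℕ} (hn : 1 ≤ n) (hm : 2 * n * (n - w) ^ m ≤ n ^ m) :
    ∃ R : Fin ((n + 1) ^ 2) → Fin m → Fin n, ∀ (l : ℕ) (p : ℕ → Fin n),
      Set.InjOn p (Set.Iic l) → ∃ j, Meets w l p (R j) := by
  have : NeZero n := ⟨by omega⟩
  let ext : (Fin n → Fin n) → ℕ → Fin n := fun q a => if h : a < n then q ⟨a, h⟩ else q 0
  let T : Finset (Fin n × (Fin n → Fin n)) :=
    Finset.univ.filter (fun x => Set.InjOn (ext x.2) (Set.Iic (x.1 : ℕ)))
  have hT : T.card < 2 ^ ((n + 1) ^ 2) := by
    have h1 : T.card ≤ n ^ (n + 1) := by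
      refine (Finset.card_le_univ T).trans ?_
      rw [Fintype.card_prod, Fintype.card_fun, Fintype.card_fin, pow_succ, mul_comm]
    have h2 : n ^ (n + 1) < (2 ^ (n + 1)) ^ (n + 1) := by
      refine Nat.pow_lt_pow_left ?_ (by omega)
      exact lt_trans Nat.lt_two_pow_self (Nat.pow_lt_pow_right (by norm_num) (Nat.lt_succ_self n))
    rw [← pow_mul] at h2
    rw [pow_two]
    exact lt_of_le_of_lt h1 h2
  obtain ⟨c, hc⟩ := exists_cover_list (α := Fin m → Fin n) T
    (fun R x => Meets w (x.1 : ℕ) (ext x.2) R)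
    (fun x hx => half_good hm (ext x.2) (Finset.mem_filter.1 hx).2) ((n + 1) ^ 2) hT
  refine ⟨c, fun l p hp => ?_⟩
  have hl := length_le p hp
  have hext : ∀ a, a ≤ l → ext (fun i => p i) a = p a := by
    intro a ha
    have h : a < n := by omega
    show (if h : a < n then p ((⟨a, h⟩ : Fin n) : ℕ) else p ((0 : Fin n) : ℕ)) = p a
    rw [dif_pos h]
  have hmem : ((⟨l, by omega⟩ : Fin n), fun i : Fin n => p i) ∈ T := by
    refine Finset.mem_filter.2 ⟨Finset.mem_univ _, ?_⟩
    intro a ha b hb hab
    have ha' : a ≤ l := ha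
    have hb' : b ≤ l := hb
    have hab' : ext (fun i => p i) a = ext (fun i => p i) b := hab
    rw [hext a ha', hext b hb'] at hab'
    exact hp (Set.mem_Iic.2 ha') (Set.mem_Iic.2 hb') hab'
  obtain ⟨j, hj⟩ := hc _ hmem
  refine ⟨j, fun a ha => ?_⟩
  obtain ⟨i, b, h1, h2, h3⟩ := hj a ha
  refine ⟨i, b, h1, h2, ?_⟩
  have h4 : ext (fun i => p i) b = p b := hext b (by omega)
  exact h3.trans h4

end MTB
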