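import Pool.Agent.Lib.MTB.Upper

/-!
# MTB.UpperP (MP_e46137_lc): upper bound, choice of the parameters
-/

namespace MTB

namespace UpperPAux

theorem bern (a H : ℕ) : ∀ k : ℕ, a ^ k * a + k * H * a ^ k ≤ (a + H) ^ k * a
  | 0 => by simp
  | k + 1 => by
    have h := Nat.mul_le_mul_left (a + H) (bern a H k)
    have e1 : (a + H) ^ (k + 1) * a = (a + H) * ((a + H) ^ k * a) := by ring
    have e2 : (a + H) * (a ^ k * a + k * H * a ^ k) =
        a ^ (k + 1) * a + (k + 1) * H * a ^ (k + 1) + k * H * H * a ^ k := by ring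
    rw [e1]
    rw [e2] at h
    exact le_trans (Nat.le_add_right _ _) h

theorem half {n H k : ℕ} (hH : H ≤ n) (hk0 : 1 ≤ k) (hk : n ≤ k * H) :
    2 * (n - H) ^ k ≤ n ^ k := by
  obtain ⟨a, rfl⟩ := Nat.exists_eq_add_of_le' hH
  rw [Nat.add_sub_cancel]
  rcases Nat.eq_zero_or_pos a with ha | ha
  · subst ha
    rw [zero_pow (by omega)]
    exact Nat.zero_le _
  · have h := bern a H k
    have h1 : a * a ^ k ≤ k * H * a ^ k := Nat.mul_le_mul_right _ (by omega)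
    have h2 : (2 * a ^ k) * a ≤ (a + H) ^ k * a := by
      calc (2 * a ^ k) * a = a ^ k * a + a * a ^ k := by ring
        _ ≤ _ := by omega
    exact Nat.le_of_mul_le_mul_right h2 ha

theorem land {n H k j m : ℕ} (hH : H ≤ n) (hk0 : 1 ≤ k) (hk : n ≤ k * H) (hj : 2 * n ≤ 2 ^ j)
    (hm : k * j ≤ m) : 2 * n * (n - H) ^ m ≤ n ^ m := by
  obtain ⟨e, rfl⟩ := Nat.exists_eq_add_of_le hm
  have h1 : 2 ^ j * (n - H) ^ (k * j) ≤ n ^ (k * j) := by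
    rw [pow_mul, pow_mul, ← mul_pow]
    exact Nat.pow_le_pow_left (half hH hk0 hk) j
  calc 2 * n * (n - H) ^ (k * j + e) = 2 * n * (n - H) ^ (k * j) * (n - H) ^ e := by
        rw [pow_add]; ring
    _ ≤ 2 ^ j * (n - H) ^ (k * j) * (n - H) ^ e :=
        Nat.mul_le_mul_right _ (Nat.mul_le_mul_right _ hj)
    _ ≤ n ^ (k * j) * n ^ e := Nat.mul_le_mul h1 (Nat.pow_le_pow_left (Nat.sub_le _ _) e)
    _ = n ^ (k * j + e) := (pow_add _ _ _).symm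

theorem sq_le : ∀ l : ℕ, l ^ 2 ≤ 2 * 2 ^ l
  | 0 => by norm_num
  | l + 1 => by
    have h := sq_le l
    have h1 : l < 2 ^ l := Nat.lt_two_pow_self
    have h2 : 2 ^ (l + 1) = 2 * 2 ^ l := by ring
    rw [h2]
    nlinarith

theorem tbound {n q d X : ℕ} (hn : 2 ≤ n) (hq : q ≤ n) (hX1 : 1 ≤ X)
    (hX : X ≤ 2 ^ (4 * d ^ 2) * n ^ 72) :
    ((n + 1) ^ 2 + 1) * (q + 1) * (20 * q ^ 2 * X + 20 * q) ≤ n ^ 200 * 2 ^ (200 * d ^ 2) := by
  have a1 : (n + 1) ^ 2 + 1 ≤ n ^ 4 := by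
    have : 4 ≤ n ^ 2 := by nlinarith
    have e : n ^ 4 = n ^ 2 * n ^ 2 := by ring
    rw [e]
    nlinarith
  have a2 : q + 1 ≤ n ^ 2 := by nlinarith
  have a4 : 64 ≤ n ^ 6 := by
    calc 64 = 2 ^ 6 := by norm_num
      _ ≤ n ^ 6 := Nat.pow_le_pow_left hn 6
  have a3 : 20 * q ^ 2 * X + 20 * q ≤ n ^ 8 * X := by
    have b1 : q ^ 2 ≤ n ^ 2 := Nat.pow_le_pow_left hq 2
    have b2 : q ≤ n ^ 2 := by nlinarith
    calc 20 * q ^ 2 * X + 20 * q ≤ 20 * n ^ 2 * X + 20 * n ^ 2 * X := by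
          have c1 : 20 * q ^ 2 * X ≤ 20 * n ^ 2 * X :=
            Nat.mul_le_mul_right _ (Nat.mul_le_mul_left _ b1)
          have c2 : 20 * q ≤ 20 * n ^ 2 * X := by
            calc 20 * q ≤ 20 * n ^ 2 * 1 := by omega
              _ ≤ 20 * n ^ 2 * X := Nat.mul_le_mul_left _ hX1
          omega
      _ = 40 * (n ^ 2 * X) := by ring
      _ ≤ n ^ 6 * (n ^ 2 * X) := Nat.mul_le_mul_right _ (by omega)
      _ = n ^ 8 * X := by ring
  calc ((n + 1) ^ 2 + 1) * (q + 1) * (20 * q ^ 2 * X + 20 * q)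
      ≤ n ^ 4 * n ^ 2 * (n ^ 8 * X) := Nat.mul_le_mul (Nat.mul_le_mul a1 a2) a3
    _ ≤ n ^ 4 * n ^ 2 * (n ^ 8 * (2 ^ (4 * d ^ 2) * n ^ 72)) :=
        Nat.mul_le_mul_left _ (Nat.mul_le_mul_left _ hX)
    _ = n ^ 86 * 2 ^ (4 * d ^ 2) := by ring
    _ ≤ n ^ 200 * 2 ^ (200 * d ^ 2) :=
        Nat.mul_le_mul (Nat.pow_le_pow_right (by omega) (by norm_num))
          (Nat.pow_le_pow_right (by norm_num) (Nat.mul_le_mul_right _ (by norm_num)))

theorem params {n d : ℕ} (hn : 2 ≤ n) (h0 : 2 ^ d * (Nat.log 2 n + 1) ^ 200 ≤ n) :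
    ∃ h m : ℕ, 2 * n * (n - 2 ^ h) ^ m ≤ n ^ m ∧ ((2 * h + 3) * (m + 2) + 1) * 2 ^ d ≤ n ∧
      ((n + 1) ^ 2 + 1) * (m + 3) *
        (20 * (m + 2) ^ 2 * (4 * (n / (m + 2) + 1)) ^ h + 20 * (m + 2)) ≤
        n ^ 200 * 2 ^ (200 * d ^ 2) := by
  have hL1 : n < 2 ^ (Nat.log 2 n + 1) := Nat.lt_pow_succ_log_self (by norm_num) n
  have hL2 : 2 ^ (Nat.log 2 n + 1) ≤ 2 * n := by
    rw [pow_succ, mul_comm]
    exact Nat.mul_le_mul_left _ (Nat.pow_log_le_self 2 (by omega))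
  have hL0 : 1 ≤ Nat.log 2 n := by
    rw [Nat.one_le_iff_ne_zero]
    intro h
    rw [h] at hL1
    omega
  have hL2' : 2 ≤ Nat.log 2 n + 1 := by omega
  generalize Nat.log 2 n + 1 = L at *
  have hP1 : 1 ≤ 2 ^ d := Nat.one_le_two_pow
  have hL3 : 200 < L := by
    have h1 : 2 ^ 200 < 2 ^ L := by
      calc 2 ^ 200 ≤ L ^ 200 := Nat.pow_le_pow_left hL2' 200
        _ = 1 * L ^ 200 := (one_mul _).symm
        _ ≤ 2 ^ d * L ^ 200 := Nat.mul_le_mul_right _ hP1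
        _ ≤ n := h0
        _ < 2 ^ L := hL1
    exact (Nat.pow_lt_pow_iff_right (by norm_num)).1 h1
  have hLp : 1 ≤ L ^ 196 := Nat.one_le_pow _ _ (by omega)
  have hd : d < L := by
    have h1 : 2 ^ d < 2 ^ L := by
      calc 2 ^ d = 2 ^ d * 1 := (mul_one _).symm
        _ ≤ 2 ^ d * L ^ 200 := Nat.mul_le_mul_left _ (Nat.one_le_pow _ _ (by omega))
        _ ≤ n := h0
        _ < 2 ^ L := hL1
    exact (Nat.pow_lt_pow_iff_right (by norm_num)).1 h1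
  have h4 : 2 ^ d * L ^ 4 ≤ n := by
    calc 2 ^ d * L ^ 4 = 2 ^ d * (L ^ 4 * 1) := by ring
      _ ≤ 2 ^ d * (L ^ 4 * L ^ 196) := Nat.mul_le_mul_left _ (Nat.mul_le_mul_left _ hLp)
      _ = 2 ^ d * L ^ 200 := by ring
      _ ≤ n := h0
  clear h0 hLp
  obtain ⟨l, hl1, hl2⟩ : ∃ l, L < 2 ^ l ∧ 2 ^ l ≤ 2 * L := by
    refine ⟨Nat.log 2 L + 1, Nat.lt_pow_succ_log_self (by norm_num) L, ?_⟩
    rw [pow_succ, mul_comm]
    exact Nat.mul_le_mul_left _ (Nat.pow_log_le_self 2 (by omega))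
  have hl3 : l < 2 ^ l := Nat.lt_two_pow_self
  -- the parameters
  have hH2 : 2 ^ (d + 3 * l) = 2 ^ d * (2 ^ l) ^ 3 := by
    rw [pow_add, ← pow_mul, mul_comm 3 l]
  have hHL : 2 ^ d * L ^ 3 ≤ 2 ^ (d + 3 * l) := by
    rw [hH2]
    exact Nat.mul_le_mul_left _ (Nat.pow_le_pow_left hl1.le 3)
  have hHn : 2 ^ (d + 3 * l) ≤ n := by
    rw [hH2]
    calc 2 ^ d * (2 ^ l) ^ 3 ≤ 2 ^ d * (2 * L) ^ 3 :=
          Nat.mul_le_mul_left _ (Nat.pow_le_pow_left hl2 3)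
      _ = 2 ^ d * (8 * L ^ 3) := by ring
      _ ≤ 2 ^ d * (L * L ^ 3) := Nat.mul_le_mul_left _ (Nat.mul_le_mul_right _ (by omega))
      _ = 2 ^ d * L ^ 4 := by ring
      _ ≤ n := h4
  have hD16 : 2 * (d + 3 * l) + 4 ≤ 16 * L := by omega
  have hDpos : 0 < 2 ^ d * (2 * (d + 3 * l) + 4) := by positivity
  have hDL : 2 ^ d * (2 * (d + 3 * l) + 4) ≤ 2 ^ d * (16 * L) := Nat.mul_le_mul_left _ hD16
  have hq5 : 5 ≤ n / (2 ^ d * (2 * (d + 3 * l) + 4)) := by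
    rw [Nat.le_div_iff_mul_le hDpos]
    calc 5 * (2 ^ d * (2 * (d + 3 * l) + 4)) ≤ 5 * (2 ^ d * (16 * L)) :=
          Nat.mul_le_mul_left _ hDL
      _ = 2 ^ d * (80 * L) := by ring
      _ ≤ 2 ^ d * (L ^ 3 * L) := by
          refine Nat.mul_le_mul_left _ (Nat.mul_le_mul_right _ ?_)
          calc 80 ≤ L := by omega
            _ = L ^ 1 := (pow_one L).symm
            _ ≤ L ^ 3 := Nat.pow_le_pow_right (by omega) (by norm_num)
      _ = 2 ^ d * L ^ 4 := by ring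
      _ ≤ n := h4
  have hq1 := Nat.lt_mul_div_succ n hDpos
  have hq2 := Nat.mul_div_le n (2 ^ d * (2 * (d + 3 * l) + 4))
  have hq3 : n / (2 ^ d * (2 * (d + 3 * l) + 4)) ≤ n := Nat.div_le_self _ _
  generalize n / (2 ^ d * (2 * (d + 3 * l) + 4)) = q at *
  have hkH : 2 ^ (d + 3 * l) * (n / 2 ^ (d + 3 * l)) ≤ n := Nat.mul_div_le _ _
  have hkH' : n < 2 ^ (d + 3 * l) * (n / 2 ^ (d + 3 * l) + 1) :=
    Nat.lt_mul_div_succ n (by positivity)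
  generalize n / 2 ^ (d + 3 * l) = k at *
  refine ⟨d + 3 * l, q - 2, ?_, ?_, ?_⟩
  · have hk1 : (k + 1) * (2 ^ d * L ^ 3) ≤ 2 * n := by
      calc (k + 1) * (2 ^ d * L ^ 3) ≤ (k + 1) * 2 ^ (d + 3 * l) := Nat.mul_le_mul_left _ hHL
        _ = 2 ^ (d + 3 * l) * k + 2 ^ (d + 3 * l) := by ring
        _ ≤ 2 * n := by omega
    have hk2 : (k + 1) * (2 ^ d * L ^ 3) ≤ 2 * (2 ^ d * (16 * L) * (q + 1)) :=
      hk1.trans (Nat.mul_le_mul_left _ (hq1.le.trans (Nat.mul_le_mul_right _ hDL)))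
    have hk3 : (k + 1) * L ^ 2 ≤ 32 * (q + 1) := by
      have hc : ((k + 1) * L ^ 2) * (2 ^ d * L) ≤ (32 * (q + 1)) * (2 ^ d * L) := by
        calc ((k + 1) * L ^ 2) * (2 ^ d * L) = (k + 1) * (2 ^ d * L ^ 3) := by ring
          _ ≤ 2 * (2 ^ d * (16 * L) * (q + 1)) := hk2
          _ = (32 * (q + 1)) * (2 ^ d * L) := by ring
      exact Nat.le_of_mul_le_mul_right hc (by positivity)
    have hk4 : (k + 1) * (L + 1) ≤ q - 2 := by
      have h64 : 64 * (L + 1) ≤ L ^ 2 := by nlinarith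
      have hc : (k + 1) * (64 * (L + 1)) ≤ (k + 1) * L ^ 2 := Nat.mul_le_mul_left _ h64
      have e : (k + 1) * (64 * (L + 1)) = 64 * ((k + 1) * (L + 1)) := by ring
      omega
    refine land hHn (Nat.le_add_left 1 k) ?_ ?_ hk4
    · rw [mul_comm]
      exact hkH'.le
    · rw [pow_succ, mul_comm]
      omega
  · have e : q - 2 + 2 = q := by omega
    rw [e]
    calc ((2 * (d + 3 * l) + 3) * q + 1) * 2 ^ d
        ≤ ((2 * (d + 3 * l) + 3) * q + q) * 2 ^ d := Nat.mul_le_mul_right _ (by omega)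
      _ = 2 ^ d * (2 * (d + 3 * l) + 4) * q := by ring
      _ ≤ n := hq2
  · have e : q - 2 + 2 = q := by omega
    have e3 : q - 2 + 3 = q + 1 := by omega
    rw [e, e3]
    have hX1 : 1 ≤ (4 * (n / q + 1)) ^ (d + 3 * l) := Nat.one_le_pow _ _ (by positivity)
    have hnq : n / q ≤ 2 * (2 ^ d * (2 * (d + 3 * l) + 4)) := by
      refine Nat.div_le_of_le_mul ?_
      calc n ≤ 2 ^ d * (2 * (d + 3 * l) + 4) * (q + 1) := hq1.le
        _ ≤ 2 ^ d * (2 * (d + 3 * l) + 4) * (2 * q) := Nat.mul_le_mul_left _ (by omega)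
        _ = q * (2 * (2 ^ d * (2 * (d + 3 * l) + 4))) := by ring
    have hb : 4 * (n / q + 1) ≤ 2 ^ (d + 2 * l) := by
      have hb0 : ∀ D x : ℕ, x ≤ 2 * D → 0 < D → 4 * (x + 1) ≤ 12 * D := by
        intro D x h1 h2
        omega
      calc 4 * (n / q + 1) ≤ 12 * (2 ^ d * (2 * (d + 3 * l) + 4)) := hb0 _ _ hnq hDpos
        _ ≤ 12 * (2 ^ d * (16 * L)) := Nat.mul_le_mul_left _ hDL
        _ = 2 ^ d * (192 * L) := by ring
        _ ≤ 2 ^ d * (2 ^ l * 2 ^ l) := Nat.mul_le_mul_left _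
            (Nat.mul_le_mul (by omega) hl1.le)
        _ = 2 ^ (d + 2 * l) := by rw [pow_add, two_mul, pow_add]
    refine tbound hn hq3 hX1 ?_
    calc (4 * (n / q + 1)) ^ (d + 3 * l) ≤ (2 ^ (d + 2 * l)) ^ (d + 3 * l) :=
          Nat.pow_le_pow_left hb _
      _ = 2 ^ ((d + 2 * l) * (d + 3 * l)) := (pow_mul _ _ _).symm
      _ ≤ 2 ^ (4 * d ^ 2 + 36 * L) := by
          refine Nat.pow_le_pow_right (by norm_num) ?_
          have h1 := sq_le l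
          have h2 : 5 * (d * l) ≤ 3 * d ^ 2 + 3 * l ^ 2 := by
            zify
            nlinarith [sq_nonneg ((d : ℤ) - l)]
          have h3 : (d + 2 * l) * (d + 3 * l) = d ^ 2 + 5 * (d * l) + 6 * l ^ 2 := by ring
          rw [h3]
          omega
      _ = 2 ^ (4 * d ^ 2) * (2 ^ L) ^ 36 := by rw [pow_add, mul_comm 36 L, pow_mul 2 L 36]
      _ ≤ 2 ^ (4 * d ^ 2) * (n ^ 2) ^ 36 := by
          refine Nat.mul_le_mul_left _ (Nat.pow_le_pow_left ?_ 36)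
          rw [pow_two]
          exact hL2.trans (Nat.mul_le_mul_right _ hn)
      _ = 2 ^ (4 * d ^ 2) * n ^ 72 := by rw [← pow_mul]

end UpperPAux

open UpperPAux

/-- Choice of the parameters: with `L = Nat.log 2 n + 1` take `h = d + 3 (Nat.log 2 L + 1)` and `m`
about `n / (2 ^ d * (2 h + 4))`. -/
theorem upper : ∃ C : ℕ, 1 ≤ C ∧ ∀ (n d : ℕ) (s t : Fin n),
    2 ^ d * (Nat.log 2 n + 1) ^ C ≤ n →
    ∃ (S T : ℕ) (M : Mach n S) (out : Fin S), S * 2 ^ d ≤ n ∧ T ≤ n ^ C * 2 ^ (C * d ^ 2) ∧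
      M.Simple ∧ Decides M out T n s t := by
  refine ⟨200, by norm_num, fun n d s t h0 => ?_⟩
  rcases Nat.lt_or_ge n 2 with hn | hn
  · have hn1 : n = 1 := by
      have := s.2
      omega
    subst hn1
    have hd : 2 ^ d ≤ 1 := by simpa using h0
    refine ⟨1, 0, ⟨fun _ => true, fun _ => s, fun _ _ _ _ => true, fun _ _ _ _ _ _ _ => le_rfl⟩, 0,
      by omega, Nat.zero_le _, fun _ => ⟨0, Or.inl ⟨true, fun σ G => ?_⟩⟩, fun G => ⟨fun _ => rfl,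
        fun hr => ?_⟩⟩
    · funext i
      rw [Subsingleton.elim i 0, Function.update_self]
    · exact absurd (Subsingleton.elim s t ▸ Relation.ReflTransGen.refl) hr
  · obtain ⟨h, m, h1, h2, h3⟩ := params hn h0
    obtain ⟨M, out, T, hT, hS, hD, -⟩ := upper_explicit (by omega) h1 s t
    exact ⟨_, T, M, out, h2, hT.trans h3, hS, hD⟩

end MTB
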