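import Pool.Agent.Lib.MTB.Arith
import Pool.Agent.Lib.MTB.UpperP

/-!
# MTB.Main (MP_e46137_lc)
-/

namespace MTB

/-- Tight time-space tradeoff for monotone computations of directed reachability: with space
`S ≤ n / 2 ^ d` the time is at least `2 ^ (d ^ 2 / C)`, for arbitrary monotone machines, already for
the digraphs with a walk of at most `2 ^ d` arcs; and `n ^ C * 2 ^ (C d ^ 2)` is enough, for
straight line programs. -/
theorem main : ∃ C : ℕ, 1 ≤ C ∧
    (∀ (n S d T : ℕ) (s t : Fin n), s ≠ t → ∀ (M : Mach n S) (out : Fin S),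
      Decides M out T (2 ^ d) s t → S * 2 ^ d ≤ n → (Nat.log 2 n + 1) ^ C ≤ 2 ^ d →
      2 ^ (d ^ 2 / C) ≤ T) ∧
    (∀ (n d : ℕ) (s t : Fin n), 2 ^ d * (Nat.log 2 n + 1) ^ C ≤ n →
      ∃ (S T : ℕ) (M : Mach n S) (out : Fin S), S * 2 ^ d ≤ n ∧ T ≤ n ^ C * 2 ^ (C * d ^ 2) ∧
        M.Simple ∧ Decides M out T n s t) := by
  obtain ⟨C1, hC1, h1⟩ := lower
  obtain ⟨C2, hC2, h2⟩ := upper
  have hle1 : C1 ≤ C1 + C2 := Nat.le_add_right _ _
  have hle2 : C2 ≤ C1 + C2 := Nat.le_add_left _ _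
  refine ⟨C1 + C2, by omega, ?_, ?_⟩
  · intro n S d T s t hst M out hD hS hlog
    have hb : (Nat.log 2 n + 1) ^ C1 ≤ 2 ^ d :=
      (Nat.pow_le_pow_right (Nat.succ_pos _) hle1).trans hlog
    refine le_trans ?_ (h1 n S d T s t hst M out hD hS hb)
    exact Nat.pow_le_pow_right (by norm_num) (Nat.div_le_div_left hle1 (by omega))
  · intro n d s t hn
    have hb : 2 ^ d * (Nat.log 2 n + 1) ^ C2 ≤ n :=
      (Nat.mul_le_mul_left _ (Nat.pow_le_pow_right (Nat.succ_pos _) hle2)).trans hn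
    obtain ⟨S, T, M, out, hS, hT, hM, hD⟩ := h2 n d s t hb
    refine ⟨S, T, M, out, hS, hT.trans ?_, hM, hD⟩
    have hn1 : 0 < n := lt_of_le_of_lt (Nat.zero_le _) s.2
    refine Nat.mul_le_mul (Nat.pow_le_pow_right hn1 hle2) ?_
    exact Nat.pow_le_pow_right (by norm_num) (Nat.mul_le_mul_right _ hle2)

end MTB
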