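import Pool.Agent.Lib.MTB.Model

/-!
# MTB.Step (MP_e46137_lc): batch version of Savitch's recursion

Registers: `none` is a temporary register, `some (row, i)` the `i`-th register of a row of `m`
registers.  A row holds a subset of a list `X : Fin m → Fin n` of vertices.  The program at level
`h` writes to the row `dst` the set of those vertices of `Y` which can be reached by at most `2 ^ h`
arcs from the subset of `X` held by the row `src`.  Level `h + 1`: clear `dst`; for every block
`C c`: level `h` from `X`, row `src`, to `C c`, row `2 h`; level `h` from `C c`, row `2 h`, to `Y`,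
row `2 h + 1`; `dst := dst ∨ row (2 h + 1)`.
-/

namespace MTB

open Classical

theorem StepAux.hasWalk_add' {V : Type} (G : V → V → Bool) (a b : ℕ) (u v : V) :
    HasWalk G (a + b) u v ↔ ∃ w, HasWalk G a u w ∧ HasWalk G b w v := by
  induction b generalizing v with
  | zero =>
    constructor
    · intro h
      exact ⟨v, h, rfl⟩
    · rintro ⟨w, h, h2⟩
      have h2 : w = v := h2
      rw [← h2]
      exact h
  | succ b ih =>
    constructor
    · rintro ⟨x, hx, hG⟩
      obtain ⟨w, h1, h2⟩ := (ih x).1 hx
      exact ⟨w, h1, x, h2, hG⟩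
    · rintro ⟨w, h1, x, h2, hG⟩
      exact ⟨x, (ih x).2 ⟨w, h1, h2⟩, hG⟩

/-- a walk with at most `2 ^ h` arcs -/
def wlk {n : ℕ} (G : Fin n → Fin n → Bool) (h : ℕ) (u v : Fin n) : Prop :=
  ∃ l ≤ 2 ^ h, HasWalk G l u v

theorem wlk_succ {n : ℕ} (G : Fin n → Fin n → Bool) (h : ℕ) (u v : Fin n) :
    wlk G (h + 1) u v ↔ ∃ w, wlk G h u w ∧ wlk G h w v := by
  unfold wlk
  constructor
  · rintro ⟨l, hl, hw⟩
    rw [pow_succ] at hl
    by_cases hl2 : l ≤ 2 ^ h
    · exact ⟨v, ⟨l, hl2, hw⟩, ⟨0, Nat.zero_le _, rfl⟩⟩
    · obtain ⟨k, rfl⟩ : ∃ k, l = 2 ^ h + k := ⟨l - 2 ^ h, by omega⟩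
      obtain ⟨w, h1, h2⟩ := (StepAux.hasWalk_add' G _ _ _ _).1 hw
      exact ⟨w, ⟨_, le_refl _, h1⟩, ⟨k, by omega, h2⟩⟩
  · rintro ⟨w, ⟨l, hl, hw⟩, ⟨l', hl', h2⟩⟩
    refine ⟨l + l', ?_, (StepAux.hasWalk_add' G _ _ _ _).2 ⟨w, hw, h2⟩⟩
    rw [pow_succ]
    omega

/-- the registers used on level `h` -/
def regs (m h src dst : ℕ) : Set (Option (ℕ × Fin m)) :=
  {ρ | ρ = none ∨ ∃ row i, ρ = some (row, i) ∧ (row < 2 * h ∨ row = src ∨ row = dst)}

namespace StepAux

section exec

variable {A ρ : Type} [DecidableEq ρ] (g : A → Bool)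

theorem exec_nil (σ : ρ → Bool) : exec g [] σ = σ := rfl

theorem exec_cons (I : Instr A ρ) (p : List (Instr A ρ)) (σ : ρ → Bool) :
    exec g (I :: p) σ = exec g p (I.apply g σ) := rfl

theorem exec_append (p q : List (Instr A ρ)) (σ : ρ → Bool) :
    exec g (p ++ q) σ = exec g q (exec g p σ) := by
  unfold exec
  rw [List.foldl_append]

end exec

theorem length_flatMap_le {α β : Type} (L : List α) (P : α → List β) (K : ℕ)
    (h : ∀ a ∈ L, (P a).length ≤ K) : (L.flatMap P).length ≤ L.length * K := by
  induction L with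
  | nil => simp
  | cons a L ih =>
    rw [List.flatMap_cons, List.length_append, List.length_cons, Nat.succ_mul]
    have h1 := h a (List.mem_cons_self)
    have h2 := ih (fun b hb => h b (List.mem_cons_of_mem _ hb))
    omega

/-- clear a row -/
def clr (A : Type) (m dst : ℕ) : List (Instr A (Option (ℕ × Fin m))) :=
  (List.finRange m).map (fun j => Instr.const (some (dst, j)) false)

theorem exec_clr_aux {A : Type} {m dst : ℕ} (g : A → Bool) (L : List (Fin m)) :
    ∀ σ : Option (ℕ × Fin m) → Bool,
    (∀ j ∈ L, exec g (L.map (fun j => Instr.const (some (dst, j)) false)) σ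
      (some (dst, j)) = false) ∧
    ∀ ρ, (∀ j ∈ L, ρ ≠ some (dst, j)) →
      exec g (L.map (fun j => Instr.const (some (dst, j)) false)) σ ρ = σ ρ := by
  induction L with
  | nil =>
    intro σ
    exact ⟨fun j hj => absurd hj (List.not_mem_nil), fun ρ _ => rfl⟩
  | cons a L ih =>
    intro σ
    rw [List.map_cons, exec_cons]
    obtain ⟨h1, h2⟩ := ih ((Instr.const (some (dst, a)) false : Instr A _).apply g σ)
    constructor
    · intro j hj
      by_cases hjL : j ∈ L
      · exact h1 j hjL
      · have hja : j = a := by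
          rcases List.mem_cons.1 hj with h | h
          · exact h
          · exact absurd h hjL
        rw [h2 _ (fun k hk hk2 => by
          simp only [Option.some.injEq, Prod.mk.injEq, true_and] at hk2
          exact hjL (hk2 ▸ hk)), hja]
        show Function.update σ (some (dst, a)) false (some (dst, a)) = false
        rw [Function.update_self]
    · intro ρ hρ
      rw [h2 ρ (fun k hk => hρ k (List.mem_cons_of_mem _ hk))]
      show Function.update σ (some (dst, a)) false ρ = σ ρ
      rw [Function.update_of_ne (hρ a List.mem_cons_self)]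

theorem exec_clr {A : Type} {m dst : ℕ} (g : A → Bool) (σ : Option (ℕ × Fin m) → Bool) :
    (∀ j, exec g (clr A m dst) σ (some (dst, j)) = false) ∧
    ∀ row i, row ≠ dst → exec g (clr A m dst) σ (some (row, i)) = σ (some (row, i)) := by
  obtain ⟨h1, h2⟩ := exec_clr_aux (dst := dst) g (List.finRange m) σ
  refine ⟨fun j => h1 j (List.mem_finRange j), fun row i hr => h2 _ fun k _ hk => ?_⟩
  simp only [Option.some.injEq, Prod.mk.injEq] at hk
  exact hr hk.1

/-- `dst := dst ∨ s` -/
def orr (A : Type) (m dst s : ℕ) : List (Instr A (Option (ℕ × Fin m))) :=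
  (List.finRange m).map (fun j => Instr.or (some (dst, j)) (some (dst, j)) (some (s, j)))

theorem exec_orr_aux {A : Type} {m dst s : ℕ} (hs : s ≠ dst) (g : A → Bool) (L : List (Fin m)) :
    ∀ σ : Option (ℕ × Fin m) → Bool,
    (∀ j ∈ L, exec g (L.map (fun j => Instr.or (some (dst, j)) (some (dst, j)) (some (s, j)))) σ
      (some (dst, j)) = (σ (some (dst, j)) || σ (some (s, j)))) ∧
    ∀ ρ, (∀ j ∈ L, ρ ≠ some (dst, j)) →
      exec g (L.map (fun j => Instr.or (some (dst, j)) (some (dst, j)) (some (s, j)))) σ ρ =
        σ ρ := by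
  induction L with
  | nil =>
    intro σ
    exact ⟨fun j hj => absurd hj (List.not_mem_nil), fun ρ _ => rfl⟩
  | cons a L ih =>
    intro σ
    rw [List.map_cons, exec_cons]
    obtain ⟨h1, h2⟩ := ih ((Instr.or (some (dst, a)) (some (dst, a)) (some (s, a)) :
      Instr A _).apply g σ)
    have hs2 : ∀ j : Fin m, (Instr.or (some (dst, a)) (some (dst, a)) (some (s, a)) :
        Instr A _).apply g σ (some (s, j)) = σ (some (s, j)) := by
      intro j
      show Function.update σ (some (dst, a)) _ (some (s, j)) = σ (some (s, j))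
      rw [Function.update_of_ne]
      intro h
      simp only [Option.some.injEq, Prod.mk.injEq] at h
      exact hs h.1
    constructor
    · intro j hj
      by_cases hjL : j ∈ L
      · rw [h1 j hjL, hs2]
        by_cases hja : j = a
        · rw [hja]
          show (Function.update σ (some (dst, a)) (σ (some (dst, a)) || σ (some (s, a)))
            (some (dst, a)) || σ (some (s, a))) = (σ (some (dst, a)) || σ (some (s, a)))
          rw [Function.update_self, Bool.or_assoc, Bool.or_self]
        · show (Function.update σ (some (dst, a)) (σ (some (dst, a)) || σ (some (s, a)))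
            (some (dst, j)) || σ (some (s, j))) = (σ (some (dst, j)) || σ (some (s, j)))
          rw [Function.update_of_ne]
          intro h
          simp only [Option.some.injEq, Prod.mk.injEq, true_and] at h
          exact hja h
      · have hja : j = a := by
          rcases List.mem_cons.1 hj with h | h
          · exact h
          · exact absurd h hjL
        rw [h2 _ (fun k hk hk2 => by
          simp only [Option.some.injEq, Prod.mk.injEq, true_and] at hk2
          exact hjL (hk2 ▸ hk)), hja]
        show Function.update σ (some (dst, a)) (σ (some (dst, a)) || σ (some (s, a)))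
          (some (dst, a)) = _
        rw [Function.update_self]
    · intro ρ hρ
      rw [h2 ρ (fun k hk => hρ k (List.mem_cons_of_mem _ hk))]
      show Function.update σ (some (dst, a)) _ ρ = σ ρ
      rw [Function.update_of_ne (hρ a List.mem_cons_self)]

theorem exec_orr {A : Type} {m dst s : ℕ} (hs : s ≠ dst) (g : A → Bool)
    (σ : Option (ℕ × Fin m) → Bool) :
    (∀ j, exec g (orr A m dst s) σ (some (dst, j)) = (σ (some (dst, j)) || σ (some (s, j)))) ∧
    ∀ row i, row ≠ dst → exec g (orr A m dst s) σ (some (row, i)) = σ (some (row, i)) := by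
  obtain ⟨h1, h2⟩ := exec_orr_aux hs g (List.finRange m) σ
  refine ⟨fun j => h1 j (List.mem_finRange j), fun row i hr => h2 _ fun k _ hk => ?_⟩
  simp only [Option.some.injEq, Prod.mk.injEq] at hk
  exact hr hk.1

/-- a loop of programs each of which adds something to the row `dst` -/
theorem loop {A ι : Type} {m src dst b : ℕ} (hsd : src ≠ dst) (hb : b ≤ src) (g : A → Bool)
    (P : ι → List (Instr A (Option (ℕ × Fin m)))) (R : ι → Fin m → Fin m → Prop)
    (hP : ∀ c, ∀ σ : Option (ℕ × Fin m) → Bool,
      (∀ j, exec g (P c) σ (some (dst, j)) = true ↔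
        σ (some (dst, j)) = true ∨ ∃ i, σ (some (src, i)) = true ∧ R c i j) ∧
      ∀ row i, b ≤ row → row ≠ dst → exec g (P c) σ (some (row, i)) = σ (some (row, i)))
    (L : List ι) : ∀ σ : Option (ℕ × Fin m) → Bool,
      (∀ j, exec g (L.flatMap P) σ (some (dst, j)) = true ↔
        σ (some (dst, j)) = true ∨ ∃ i, σ (some (src, i)) = true ∧ ∃ c ∈ L, R c i j) ∧
      ∀ row i, b ≤ row → row ≠ dst → exec g (L.flatMap P) σ (some (row, i)) = σ (some (row, i)) := by
  induction L with
  | nil =>
    intro σ
    refine ⟨fun j => ⟨fun h => Or.inl h, ?_⟩, fun row i _ _ => rfl⟩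
    rintro (h | ⟨i, _, c, hc, _⟩)
    · exact h
    · exact absurd hc (List.not_mem_nil)
  | cons a L ih =>
    intro σ
    rw [List.flatMap_cons, exec_append]
    obtain ⟨h1, h2⟩ := hP a σ
    obtain ⟨h3, h4⟩ := ih (exec g (P a) σ)
    constructor
    · intro j
      rw [h3 j, h1 j]
      constructor
      · rintro ((h | ⟨i, h5, h6⟩) | ⟨i, h5, c, hc, h6⟩)
        · exact Or.inl h
        · exact Or.inr ⟨i, h5, a, List.mem_cons_self, h6⟩
        · rw [h2 src i hb hsd] at h5
          exact Or.inr ⟨i, h5, c, List.mem_cons_of_mem _ hc, h6⟩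
      · rintro (h | ⟨i, h5, c, hc, h6⟩)
        · exact Or.inl (Or.inl h)
        · rcases List.mem_cons.1 hc with h | h
          · rw [h] at h6
            exact Or.inl (Or.inr ⟨i, h5, h6⟩)
          · refine Or.inr ⟨i, ?_, c, h, h6⟩
            rw [h2 src i hb hsd]
            exact h5
    · intro row i hr1 hr2
      rw [h4 row i hr1 hr2, h2 row i hr1 hr2]

/-- one arc -/
noncomputable def blk {n m : ℕ} (X Y : Fin m → Fin n) (src dst : ℕ) (c : Fin m × Fin m) :
    List (Instr (Fin n × Fin n) (Option (ℕ × Fin m))) :=
  if X c.1 = Y c.2 then [Instr.or (some (dst, c.2)) (some (dst, c.2)) (some (src, c.1))]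
  else [Instr.input none (X c.1, Y c.2), Instr.and none none (some (src, c.1)),
    Instr.or (some (dst, c.2)) (some (dst, c.2)) none]

theorem wlk_zero {n : ℕ} (G : Fin n → Fin n → Bool) (u v : Fin n) :
    wlk G 0 u v ↔ u = v ∨ G u v = true := by
  unfold wlk
  constructor
  · rintro ⟨l, hl, h⟩
    have hl' : l ≤ 1 := by simpa using hl
    rcases Nat.le_one_iff_eq_zero_or_eq_one.1 hl' with h0 | h1
    · rw [h0] at h
      exact Or.inl h
    · rw [h1] at h
      obtain ⟨w, hw, hG⟩ := h
      have hw : u = w := hw
      rw [hw]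
      exact Or.inr hG
  · rintro (h | h)
    · exact ⟨0, by simp, h⟩
    · exact ⟨1, by simp, u, rfl, h⟩

theorem exec_blk {n m : ℕ} (X Y : Fin m → Fin n) {src dst : ℕ} (c : Fin m × Fin m)
    (G : Fin n → Fin n → Bool) (σ : Option (ℕ × Fin m) → Bool) :
    (∀ j, exec (fun e : Fin n × Fin n => G e.1 e.2) (blk X Y src dst c) σ
        (some (dst, j)) = true ↔ σ (some (dst, j)) = true ∨
          ∃ i, σ (some (src, i)) = true ∧ (i = c.1 ∧ j = c.2 ∧ wlk G 0 (X i) (Y j))) ∧
      ∀ row i, 0 ≤ row → row ≠ dst →
        exec (fun e : Fin n × Fin n => G e.1 e.2) (blk X Y src dst c) σ (some (row, i)) =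
          σ (some (row, i)) := by
  obtain ⟨i0, j0⟩ := c
  unfold blk
  by_cases h : X i0 = Y j0
  · simp only [h, if_true]
    rw [exec_cons, exec_nil]
    constructor
    · intro j
      show Function.update σ (some (dst, j0)) (σ (some (dst, j0)) || σ (some (src, i0)))
        (some (dst, j)) = true ↔ _
      by_cases hj : j = j0
      · rw [hj, Function.update_self, Bool.or_eq_true]
        constructor
        · rintro (h1 | h1)
          · exact Or.inl h1
          · exact Or.inr ⟨i0, h1, rfl, rfl, (wlk_zero G _ _).2 (Or.inl h)⟩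
        · rintro (h1 | ⟨i, h1, h2, _⟩)
          · exact Or.inl h1
          · rw [h2] at h1
            exact Or.inr h1
      · rw [Function.update_of_ne]
        · constructor
          · exact fun h1 => Or.inl h1
          · rintro (h1 | ⟨i, _, _, h3, _⟩)
            · exact h1
            · exact absurd h3 hj
        · intro h1
          simp only [Option.some.injEq, Prod.mk.injEq, true_and] at h1
          exact hj h1
    · intro row i _ hr
      show Function.update σ (some (dst, j0)) _ (some (row, i)) = σ (some (row, i))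
      rw [Function.update_of_ne]
      intro h1
      simp only [Option.some.injEq, Prod.mk.injEq] at h1
      exact hr h1.1
  · simp only [h, if_false]
    rw [exec_cons, exec_cons, exec_cons, exec_nil]
    have e1 : ∀ ρ : ℕ × Fin m, (Instr.and none none (some (src, i0)) :
        Instr (Fin n × Fin n) (Option (ℕ × Fin m))).apply (fun e : Fin n × Fin n => G e.1 e.2)
        ((Instr.input none (X i0, Y j0) : Instr (Fin n × Fin n) (Option (ℕ × Fin m))).apply
          (fun e : Fin n × Fin n => G e.1 e.2) σ) (some ρ) = σ (some ρ) := by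
      intro ρ
      show Function.update (Function.update σ none _) none _ (some ρ) = σ (some ρ)
      rw [Function.update_of_ne (by simp), Function.update_of_ne (by simp)]
    have e2 : (Instr.and none none (some (src, i0)) :
        Instr (Fin n × Fin n) (Option (ℕ × Fin m))).apply (fun e : Fin n × Fin n => G e.1 e.2)
        ((Instr.input none (X i0, Y j0) : Instr (Fin n × Fin n) (Option (ℕ × Fin m))).apply
          (fun e : Fin n × Fin n => G e.1 e.2) σ) none =
        (G (X i0) (Y j0) && σ (some (src, i0))) := by
      show Function.update (Function.update σ none (G (X i0) (Y j0))) none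
        (Function.update σ none (G (X i0) (Y j0)) none &&
          Function.update σ none (G (X i0) (Y j0)) (some (src, i0))) none = _
      rw [Function.update_self, Function.update_self, Function.update_of_ne (by simp)]
    generalize (Instr.and none none (some (src, i0)) :
        Instr (Fin n × Fin n) (Option (ℕ × Fin m))).apply (fun e : Fin n × Fin n => G e.1 e.2)
        ((Instr.input none (X i0, Y j0) : Instr (Fin n × Fin n) (Option (ℕ × Fin m))).apply
          (fun e : Fin n × Fin n => G e.1 e.2) σ) = τ at e1 e2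
    constructor
    · intro j
      show Function.update τ (some (dst, j0)) (τ (some (dst, j0)) || τ none)
        (some (dst, j)) = true ↔ _
      by_cases hj : j = j0
      · rw [hj, Function.update_self, Bool.or_eq_true, e1, e2, Bool.and_eq_true]
        constructor
        · rintro (h1 | ⟨h1, h2⟩)
          · exact Or.inl h1
          · exact Or.inr ⟨i0, h2, rfl, rfl, (wlk_zero G _ _).2 (Or.inr h1)⟩
        · rintro (h1 | ⟨i, h1, h2, _, h3⟩)
          · exact Or.inl h1
          · rw [h2] at h1 h3
            rcases (wlk_zero G _ _).1 h3 with h4 | h4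
            · exact absurd h4 h
            · exact Or.inr ⟨h4, h1⟩
      · rw [Function.update_of_ne, e1]
        · constructor
          · exact fun h1 => Or.inl h1
          · rintro (h1 | ⟨i, _, _, h3, _⟩)
            · exact h1
            · exact absurd h3 hj
        · intro h1
          simp only [Option.some.injEq, Prod.mk.injEq, true_and] at h1
          exact hj h1
    · intro row i _ hr
      show Function.update τ (some (dst, j0)) _ (some (row, i)) = σ (some (row, i))
      rw [Function.update_of_ne, e1]
      intro h1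
      simp only [Option.some.injEq, Prod.mk.injEq] at h1
      exact hr h1.1

theorem Uses_mono {A ρ : Type} {U V : Set ρ} (h : U ⊆ V) {I : Instr A ρ} (hI : I.Uses U) :
    I.Uses V := by
  cases I with
  | const i b => exact h hI
  | input i a => exact h hI
  | and i j l => exact ⟨h hI.1, h hI.2.1, h hI.2.2⟩
  | or i j l => exact ⟨h hI.1, h hI.2.1, h hI.2.2⟩

end StepAux

theorem exists_step_zero {n m : ℕ} (X Y : Fin m → Fin n) (src dst : ℕ) (hsd : src ≠ dst) :
    ∃ p : List (Instr (Fin n × Fin n) (Option (ℕ × Fin m))),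
      p.length ≤ 5 * m ^ 2 ∧ (∀ I ∈ p, I.Uses (regs m 0 src dst)) ∧
      ∀ (G : Fin n → Fin n → Bool) (σ : Option (ℕ × Fin m) → Bool),
        (∀ j, exec (fun e : Fin n × Fin n => G e.1 e.2) p σ (some (dst, j)) = true ↔
          ∃ i, σ (some (src, i)) = true ∧ wlk G 0 (X i) (Y j)) ∧
        ∀ row i, row ≠ dst →
          exec (fun e : Fin n × Fin n => G e.1 e.2) p σ (some (row, i)) = σ (some (row, i)) := by
  refine ⟨StepAux.clr _ m dst ++
    (Finset.univ : Finset (Fin m × Fin m)).toList.flatMap (StepAux.blk X Y src dst), ?_, ?_, ?_⟩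
  · have h1 := StepAux.length_flatMap_le (Finset.univ : Finset (Fin m × Fin m)).toList
      (StepAux.blk X Y src dst) 3 (by
        intro c _
        unfold StepAux.blk
        split_ifs <;> simp)
    rw [Finset.length_toList, Finset.card_univ, Fintype.card_prod, Fintype.card_fin] at h1
    rw [List.length_append]
    have h2 : (StepAux.clr (Fin n × Fin n) m dst).length = m := by
      unfold StepAux.clr
      rw [List.length_map, List.length_finRange]
    rw [h2]
    nlinarith [Nat.zero_le m, Nat.le_self_pow (n := 2) (by norm_num) m]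
  · intro I hI
    rcases List.mem_append.1 hI with h | h
    · unfold StepAux.clr at h
      obtain ⟨j, _, rfl⟩ := List.mem_map.1 h
      exact Or.inr ⟨dst, j, rfl, Or.inr (Or.inr rfl)⟩
    · obtain ⟨c, _, hc⟩ := List.mem_flatMap.1 h
      have a1 : ∀ j : Fin m, (some (dst, j) : Option (ℕ × Fin m)) ∈ regs m 0 src dst :=
        fun j => Or.inr ⟨dst, j, rfl, Or.inr (Or.inr rfl)⟩
      have a2 : ∀ j : Fin m, (some (src, j) : Option (ℕ × Fin m)) ∈ regs m 0 src dst :=
        fun j => Or.inr ⟨src, j, rfl, Or.inr (Or.inl rfl)⟩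
      have a3 : (none : Option (ℕ × Fin m)) ∈ regs m 0 src dst := Or.inl rfl
      unfold StepAux.blk at hc
      split_ifs at hc
      · rw [List.mem_singleton] at hc
        rw [hc]
        exact ⟨a1 _, a1 _, a2 _⟩
      · simp only [List.mem_cons, List.not_mem_nil, or_false] at hc
        rcases hc with hc | hc | hc
        · rw [hc]
          exact a3
        · rw [hc]
          exact ⟨a3, a3, a2 _⟩
        · rw [hc]
          exact ⟨a1 _, a1 _, a3⟩
  · intro G σ
    rw [StepAux.exec_append]
    obtain ⟨h1, h2⟩ := StepAux.exec_clr (dst := dst) (fun e : Fin n × Fin n => G e.1 e.2) σ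
    obtain ⟨h3, h4⟩ := StepAux.loop (b := 0) hsd (Nat.zero_le _)
      (fun e : Fin n × Fin n => G e.1 e.2) (StepAux.blk X Y src dst)
      (fun c i j => i = c.1 ∧ j = c.2 ∧ wlk G 0 (X i) (Y j))
      (fun c σ => StepAux.exec_blk X Y c G σ) (Finset.univ : Finset (Fin m × Fin m)).toList
      (exec (fun e : Fin n × Fin n => G e.1 e.2) (StepAux.clr _ m dst) σ)
    constructor
    · intro j
      rw [h3 j, h1 j]
      constructor
      · rintro (h | ⟨i, h5, c, _, _, _, h6⟩)
        · exact absurd h (by simp)
        · rw [h2 src i hsd] at h5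
          exact ⟨i, h5, h6⟩
      · rintro ⟨i, h5, h6⟩
        refine Or.inr ⟨i, ?_, (i, j), by simp, rfl, rfl, h6⟩
        rw [h2 src i hsd]
        exact h5
    · intro row i hr
      rw [h4 row i (Nat.zero_le _) hr, h2 row i hr]

theorem exists_step {n m B : ℕ} (C : Fin B → Fin m → Fin n) (hC : ∀ v, ∃ c i, C c i = v) (h : ℕ) :
    ∀ (X Y : Fin m → Fin n) (src dst : ℕ), src ≠ dst → 2 * h ≤ src → 2 * h ≤ dst →
    ∃ p : List (Instr (Fin n × Fin n) (Option (ℕ × Fin m))),
      p.length ≤ 5 * m ^ 2 * (4 * B) ^ h ∧ (∀ I ∈ p, I.Uses (regs m h src dst)) ∧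
      ∀ (G : Fin n → Fin n → Bool) (σ : Option (ℕ × Fin m) → Bool),
        (∀ j, exec (fun e : Fin n × Fin n => G e.1 e.2) p σ (some (dst, j)) = true ↔
          ∃ i, σ (some (src, i)) = true ∧ wlk G h (X i) (Y j)) ∧
        ∀ row i, 2 * h ≤ row → row ≠ dst →
          exec (fun e : Fin n × Fin n => G e.1 e.2) p σ (some (row, i)) = σ (some (row, i)) := by
  induction h with
  | zero =>
    intro X Y src dst hsd _ _
    obtain ⟨p, h1, h2, h3⟩ := exists_step_zero X Y src dst hsd
    refine ⟨p, by simpa using h1, h2, fun G σ => ⟨(h3 G σ).1, fun row i _ hr => (h3 G σ).2 row i hr⟩⟩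
  | succ h ih =>
    intro X Y src dst hsd hs hd
    have e1 := fun c => ih X (C c) src (2 * h) (by omega) (by omega) (le_refl _)
    have e2 := fun c => ih (C c) Y (2 * h) (2 * h + 1) (by omega) (le_refl _) (by omega)
    choose p1 a1 a2 a3 using e1
    choose p2 b1 b2 b3 using e2
    refine ⟨StepAux.clr _ m dst ++ (List.finRange B).flatMap
      (fun c => p1 c ++ (p2 c ++ StepAux.orr _ m dst (2 * h + 1))), ?_, ?_, ?_⟩
    · have h2 : (StepAux.clr (Fin n × Fin n) m dst).length = m := by
        unfold StepAux.clr
        rw [List.length_map, List.length_finRange]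
      have h3 : (StepAux.orr (Fin n × Fin n) m dst (2 * h + 1)).length = m := by
        unfold StepAux.orr
        rw [List.length_map, List.length_finRange]
      obtain ⟨L, hL⟩ : ∃ L : ℕ, L = 5 * m ^ 2 * (4 * B) ^ h := ⟨_, rfl⟩
      have h1 := StepAux.length_flatMap_le (List.finRange B)
        (fun c => p1 c ++ (p2 c ++ StepAux.orr _ m dst (2 * h + 1))) (2 * L + m) (by
          intro c _
          rw [List.length_append, List.length_append, h3]
          have := a1 c
          have := b1 c
          rw [← hL] at *
          omega)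
      rw [List.length_finRange] at h1
      rw [List.length_append, h2]
      have h4 : 5 * m ^ 2 * (4 * B) ^ (h + 1) = 4 * B * L := by
        rw [hL]
        ring
      rw [h4]
      rcases Nat.eq_zero_or_pos m with hm | hm
      · have hL0 : L = 0 := by
          rw [hL, hm]
          simp
        have h5 : B * (2 * L + m) = 0 := by
          rw [hL0, hm]
          simp
        have h6 : 4 * B * L = 0 := by
          rw [hL0]
          simp
        rw [h5] at h1
        rw [h6]
        omega
      · have hB : 0 < B := by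
          obtain ⟨c, _⟩ := hC (X ⟨0, hm⟩)
          exact lt_of_le_of_lt (Nat.zero_le _) c.2
        have hL1 : m ≤ L := by
          rw [hL]
          have h5 : 1 ≤ (4 * B) ^ h := Nat.one_le_pow _ _ (by omega)
          calc m ≤ 5 * m ^ 2 := by nlinarith
            _ = 5 * m ^ 2 * 1 := (mul_one _).symm
            _ ≤ _ := Nat.mul_le_mul_left _ h5
        have h6 : B * m ≤ B * L := Nat.mul_le_mul_left _ hL1
        have h7 : m ≤ B * L := by nlinarith
        have h8 : B * (2 * L + m) = 2 * (B * L) + B * m := by ring
        have h9 : 4 * B * L = 4 * (B * L) := by ring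
        rw [h8] at h1
        rw [h9]
        omega
    · intro I hI
      rcases List.mem_append.1 hI with h0 | h0
      · unfold StepAux.clr at h0
        obtain ⟨j, _, rfl⟩ := List.mem_map.1 h0
        exact Or.inr ⟨dst, j, rfl, Or.inr (Or.inr rfl)⟩
      · obtain ⟨c, _, hc⟩ := List.mem_flatMap.1 h0
        rcases List.mem_append.1 hc with hc | hc
        · refine StepAux.Uses_mono ?_ (a2 c I hc)
          rintro ρ (h1 | ⟨row, i, h1, h3⟩)
          · exact Or.inl h1
          · refine Or.inr ⟨row, i, h1, ?_⟩
            rcases h3 with h3 | h3 | h3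
            · exact Or.inl (by omega)
            · exact Or.inr (Or.inl h3)
            · exact Or.inl (by omega)
        · rcases List.mem_append.1 hc with hc | hc
          · refine StepAux.Uses_mono ?_ (b2 c I hc)
            rintro ρ (h1 | ⟨row, i, h1, h3⟩)
            · exact Or.inl h1
            · refine Or.inr ⟨row, i, h1, ?_⟩
              rcases h3 with h3 | h3 | h3
              · exact Or.inl (by omega)
              · exact Or.inl (by omega)
              · exact Or.inl (by omega)
          · unfold StepAux.orr at hc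
            obtain ⟨j, _, rfl⟩ := List.mem_map.1 hc
            have d1 : (some (dst, j) : Option (ℕ × Fin m)) ∈ regs m (h + 1) src dst :=
              Or.inr ⟨dst, j, rfl, Or.inr (Or.inr rfl)⟩
            exact ⟨d1, d1, Or.inr ⟨2 * h + 1, j, rfl, Or.inl (by omega)⟩⟩
    · intro G σ
      rw [StepAux.exec_append]
      obtain ⟨h1, h2⟩ := StepAux.exec_clr (dst := dst) (fun e : Fin n × Fin n => G e.1 e.2) σ
      have hbody : ∀ c, ∀ σ : Option (ℕ × Fin m) → Bool,
          (∀ j, exec (fun e : Fin n × Fin n => G e.1 e.2)
            (p1 c ++ (p2 c ++ StepAux.orr _ m dst (2 * h + 1))) σ (some (dst, j)) = true ↔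
            σ (some (dst, j)) = true ∨ ∃ i, σ (some (src, i)) = true ∧
              ∃ k, wlk G h (X i) (C c k) ∧ wlk G h (C c k) (Y j)) ∧
          ∀ row i, 2 * (h + 1) ≤ row → row ≠ dst → exec (fun e : Fin n × Fin n => G e.1 e.2)
            (p1 c ++ (p2 c ++ StepAux.orr _ m dst (2 * h + 1))) σ (some (row, i)) =
              σ (some (row, i)) := by
        intro c σ
        rw [StepAux.exec_append, StepAux.exec_append]
        obtain ⟨c1, c2⟩ := a3 c G σ
        obtain ⟨d1, d2⟩ := b3 c G (exec (fun e : Fin n × Fin n => G e.1 e.2) (p1 c) σ)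
        obtain ⟨f1, f2⟩ := StepAux.exec_orr (dst := dst) (s := 2 * h + 1) (by omega)
          (fun e : Fin n × Fin n => G e.1 e.2)
          (exec (fun e : Fin n × Fin n => G e.1 e.2) (p2 c)
            (exec (fun e : Fin n × Fin n => G e.1 e.2) (p1 c) σ))
        constructor
        · intro j
          rw [f1 j, Bool.or_eq_true, d1 j, d2 dst j (by omega) (by omega),
            c2 dst j (by omega) (by omega)]
          constructor
          · rintro (h5 | ⟨k, h5, h6⟩)
            · exact Or.inl h5
            · obtain ⟨i, h7, h8⟩ := (c1 k).1 h5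
              exact Or.inr ⟨i, h7, k, h8, h6⟩
          · rintro (h5 | ⟨i, h5, k, h6, h7⟩)
            · exact Or.inl h5
            · exact Or.inr ⟨k, (c1 k).2 ⟨i, h5, h6⟩, h7⟩
        · intro row i hr1 hr2
          rw [f2 row i hr2, d2 row i (by omega) (by omega), c2 row i (by omega) (by omega)]
      obtain ⟨h3, h4⟩ := StepAux.loop (b := 2 * (h + 1)) hsd hs
        (fun e : Fin n × Fin n => G e.1 e.2)
        (fun c => p1 c ++ (p2 c ++ StepAux.orr _ m dst (2 * h + 1)))
        (fun c i j => ∃ k, wlk G h (X i) (C c k) ∧ wlk G h (C c k) (Y j))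
        hbody (List.finRange B)
        (exec (fun e : Fin n × Fin n => G e.1 e.2) (StepAux.clr _ m dst) σ)
      constructor
      · intro j
        rw [h3 j, h1 j]
        constructor
        · rintro (h5 | ⟨i, h5, c, _, k, h6, h7⟩)
          · exact absurd h5 (by simp)
          · rw [h2 src i hsd] at h5
            exact ⟨i, h5, (wlk_succ G h _ _).2 ⟨_, h6, h7⟩⟩
        · rintro ⟨i, h5, h6⟩
          obtain ⟨w, h7, h8⟩ := (wlk_succ G h _ _).1 h6
          obtain ⟨c, k, rfl⟩ := hC w
          refine Or.inr ⟨i, ?_, c, List.mem_finRange c, k, h7, h8⟩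
          rw [h2 src i hsd]
          exact h5
      · intro row i hr1 hr2
        rw [h4 row i hr1 hr2, h2 row i hr2]

end MTB
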