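import Pool.Agent.Lib.MTB.Iter
import Pool.Agent.Lib.MTB.Land

/-!
# MTB.Upper (MP_e46137_lc): upper bound
-/

namespace MTB

open Classical

namespace UpperAux

theorem hasWalk_reach {V : Type} (G : V → V → Bool) (l : ℕ) (u v : V) (h : HasWalk G l u v) :
    Reach G u v := by
  induction l generalizing v with
  | zero =>
    have h : u = v := h
    rw [h]
    exact Relation.ReflTransGen.refl
  | succ l ih =>
    obtain ⟨w, h1, h2⟩ := h
    exact Relation.ReflTransGen.tail (ih w h1) h2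

theorem blocks {n m : ℕ} (hn : 1 ≤ n) : ∃ C : Fin (n / (m + 2) + 1) → Fin (m + 2) → Fin n,
    ∀ v, ∃ c i, C c i = v := by
  refine ⟨fun c i => if h : (c : ℕ) * (m + 2) + i < n then ⟨c * (m + 2) + i, h⟩ else ⟨0, hn⟩,
    fun v => ?_⟩
  have h1 : (v : ℕ) / (m + 2) < n / (m + 2) + 1 :=
    Nat.lt_succ_of_le (Nat.div_le_div_right v.2.le)
  have h2 : (v : ℕ) % (m + 2) < m + 2 := Nat.mod_lt _ (by omega)
  refine ⟨⟨(v : ℕ) / (m + 2), h1⟩, ⟨(v : ℕ) % (m + 2), h2⟩, ?_⟩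
  have h3 : (v : ℕ) / (m + 2) * (m + 2) + (v : ℕ) % (m + 2) = v := by
    rw [Nat.mul_comm]
    exact Nat.div_add_mod _ _
  have h4 : (v : ℕ) / (m + 2) * (m + 2) + (v : ℕ) % (m + 2) < n := by
    rw [h3]
    exact v.2
  show (if h : (v : ℕ) / (m + 2) * (m + 2) + (v : ℕ) % (m + 2) < n then
    (⟨(v : ℕ) / (m + 2) * (m + 2) + (v : ℕ) % (m + 2), h⟩ : Fin n) else ⟨0, hn⟩) = v
  rw [dif_pos h4]
  exact Fin.ext h3

end UpperAux

/-- Combination of `exists_landmarks` (lists of `m` vertices, completed by `s` and `t` to lists of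
`m + 2`) and `exists_iter_mach`. -/
theorem upper_explicit {n m h : ℕ} (hn : 1 ≤ n) (hm : 2 * n * (n - 2 ^ h) ^ m ≤ n ^ m)
    (s t : Fin n) :
    ∃ (M : Mach n ((2 * h + 3) * (m + 2) + 1)) (out : Fin ((2 * h + 3) * (m + 2) + 1)) (T : ℕ),
      T ≤ ((n + 1) ^ 2 + 1) * (m + 3) *
        (20 * (m + 2) ^ 2 * (4 * (n / (m + 2) + 1)) ^ h + 20 * (m + 2)) ∧
      M.Simple ∧ Decides M out T n s t ∧ ∀ G, M.run G T out = true ↔ Reach G s t := by
  obtain ⟨R, hR⟩ := exists_landmarks (w := 2 ^ h) hn hm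
  obtain ⟨C, hC⟩ := UpperAux.blocks (m := m) hn
  obtain ⟨M, out, T, hT, hS, hrun⟩ := exists_iter_mach hn C hC h
    (fun j => (Fin.cons s (Fin.cons t (R j)) : Fin (m + 2) → Fin n)) 0 1
  have key : ∀ G, M.run G T out = true ↔ Reach G s t := by
    intro G
    rw [hrun G]
    constructor
    · rintro ⟨j, hj⟩
      exact hops_sound G _ _ _ hj
    · intro hG
      obtain ⟨l, p, h1, h2, h3, h4⟩ := exists_simple G s t hG
      obtain ⟨j, hj⟩ := hR l p h1
      refine ⟨j, hops G p h4 _ _ _ h2.symm h3.symm ?_⟩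
      intro a ha
      obtain ⟨i, b, e1, e2, e3⟩ := hj a ha
      exact ⟨i.succ.succ, b, e1, e2, e3⟩
  refine ⟨M, out, T, hT, hS, ?_, key⟩
  intro G
  constructor
  · rintro ⟨l, _, hl⟩
    exact (key G).2 (UpperAux.hasWalk_reach G l s t hl)
  · intro hG
    by_contra h1
    exact hG ((key G).1 (by simpa using h1))

end MTB
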